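import Pool.Agent.H.MP_08eaf3_pr.Defs2
import Pool.Agent.H.MP_08eaf3_pr.Sys

/-!
# Part G: definitions (tree laws, recursion for general factors, paths, tree averages)
-/

set_option autoImplicit false

open MeasureTheory ProbabilityTheory Filter Topology Matrix

namespace SKC.G

/-! ### Laws of the level matrices of `n` replicas

Levels are numbered `0, ..., L-1` (weights `m 0, ..., m (L-1)`); the entry `w i j` of a level matrix is
the number of levels shared by the replicas `i` and `j`; `w i i = L`, and `1 ≤ w i j ≤ L - 1` for `i ≠ j`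
(not needed: it follows from the identities). -/

/-- level matrices -/
abbrev LM (L n : ℕ) : Type := Fin n → Fin n → Fin (L + 1)

/-- restriction to the first `n` replicas -/
def LM.res {L n : ℕ} (w : LM L (n + 1)) : LM L n := fun i j => w i.castSucc j.castSucc

/-- symmetric, ultrametric, diagonal `L` -/
structure LM.Um {L n : ℕ} (w : LM L n) : Prop where
  diag : ∀ i, (w i i : ℕ) = L
  symm : ∀ i j, w i j = w j i
  um : ∀ i j k, min (w i j : ℕ) (w j k) ≤ w i k

/-- number of replicas (including `i`) sharing the level `j` with `i` -/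
def LM.cnt {L n : ℕ} (w : LM L n) (i : Fin n) (j : ℕ) : ℕ :=
  (Finset.univ.filter (fun k : Fin n => j < (w i k : ℕ))).card

/-- consistent laws of the level matrices of `n` replicas satisfying the Ghirlanda-Guerra identities
with weights `m` -/
structure TLaw (L : ℕ) (m : ℕ → ℝ) where
  /-- the probabilities -/
  p : ∀ n : ℕ, LM L n → ℝ
  nonneg : ∀ n w, 0 ≤ p n w
  /-- normalisation for one replica -/
  one : ∑ w : LM L 1, p 1 w = 1
  /-- consistency -/
  cons : ∀ (n : ℕ) (w : LM L n), 0 < n →
    ∑ w' : LM L (n + 1), (if w'.res = w then p (n + 1) w' else 0) = p n w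
  /-- support -/
  supp : ∀ n w, p n w ≠ 0 → w.Um
  /-- all replicas share the level `0` -/
  root : ∀ n w, p n w ≠ 0 → ∀ i j, 0 < (w i j : ℕ)
  /-- Ghirlanda-Guerra -/
  gg : ∀ (n : ℕ) (w : LM L n) (i : Fin n) (j : ℕ), j < L →
    ∑ w' : LM L (n + 1), (if w'.res = w ∧ j < (w' i.castSucc (Fin.last n) : ℕ) then p (n + 1) w' else 0)
      = p n w * (((w.cnt i j : ℕ) : ℝ) - m j) / n

/-! ### Recursion with general factors -/

/-- a level: weight and factor of the field increment -/
abbrev Lev (κ : Type) : Type := ℝ × Matrix κ κ ℝ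

/-- the recursion `Psi` along a list of levels -/
noncomputable def PsiG {κ : Type} [Fintype κ] : List (Lev κ) → ((κ → ℝ) → ℝ) → ((κ → ℝ) → ℝ)
  | [], F => F
  | (s :: l), F => Tm s.1 s.2 (PsiG l F)

/-- the chain expectation along a list of levels -/
noncomputable def ChG {κ : Type} [Fintype κ] :
    List (Lev κ) → ((κ → ℝ) → ℝ) → ((κ → ℝ) → ℝ) → ((κ → ℝ) → ℝ)
  | [], _, h => h
  | (s :: l), F, h => Es s.1 s.2 (PsiG l F) (ChG l F h)

/-- plain Gaussian expectation along a list of levels -/
noncomputable def GxG {κ : Type} [Fintype κ] : List (Lev κ) → ((κ → ℝ) → ℝ) → ((κ → ℝ) → ℝ)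
  | [], h => h
  | (s :: l), h => fun z => ∫ x, GxG l h (z + s.2.mulVec x) ∂(gam κ)

/-- covariance of the field after the levels of the list -/
noncomputable def CovG {κ : Type} [Fintype κ] (l : List (Lev κ)) : Matrix κ κ ℝ :=
  (l.map (fun s => s.2 * s.2ᵀ)).sum

/-- weight of level `j` of a list -/
noncomputable def wt {κ : Type} (l : List (Lev κ)) (j : ℕ) : ℝ := (l.map Prod.fst).getD j 0

/-- factor of level `j` of a list -/
noncomputable def fac {κ : Type} (l : List (Lev κ)) (j : ℕ) : Matrix κ κ ℝ := (l.map Prod.snd).getD j 0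

/-! ### Paths -/

/-- increments of one replica: level `j` has the increment `y j` -/
abbrev Pth (κ : Type) (L : ℕ) : Type := Fin L → κ → ℝ

/-- law of the increments of one replica -/
noncomputable def pth (κ : Type) [Fintype κ] (L : ℕ) : Measure (Pth κ L) :=
  Measure.pi (fun _ : Fin L => gam κ)

/-- law of the increments of `n` replicas -/
noncomputable def pths (κ : Type) [Fintype κ] (L n : ℕ) : Measure (Fin n → Pth κ L) :=
  Measure.pi (fun _ : Fin n => pth κ L)

/-- the field after `k` levels: `W_k(x) = ∑_{j<k} B_j x_j` -/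
noncomputable def Wk {κ : Type} [Fintype κ] (l : List (Lev κ)) {L : ℕ} (x : Pth κ L) (k : ℕ) :
    κ → ℝ :=
  ∑ j : Fin L, if (j : ℕ) < k then (fac l j).mulVec (x j) else 0

/-- `x` on the levels below `k`, `y` on the levels `≥ k` -/
def mix {κ : Type} {L : ℕ} (k : ℕ) (x y : Pth κ L) : Pth κ L :=
  fun j => if (j : ℕ) < k then x j else y j

/-- first replica sharing level `j` with `i` -/
noncomputable def anc {L n : ℕ} (w : LM L n) (i : Fin n) (j : ℕ) : Fin n := by
  classical
  exact if h : (Finset.univ.filter (fun k : Fin n => j < (w k i : ℕ))).Nonempty then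
    (Finset.univ.filter (fun k : Fin n => j < (w k i : ℕ))).min' h else i

/-- the path of replica `i`: its increment at level `j` is the one of the first replica sharing this
level -/
noncomputable def xp {κ : Type} {L n : ℕ} (w : LM L n) (y : Fin n → Pth κ L) (i : Fin n) : Pth κ L :=
  fun j => y (anc w i j) j

/-- the exponent of the density of one path above level `k` -/
noncomputable def ex1 {κ : Type} [Fintype κ] (l : List (Lev κ)) (F : (κ → ℝ) → ℝ) (k : ℕ)
    {L : ℕ} (x : Pth κ L) : ℝ :=
  ∑ j : Fin L, if k ≤ (j : ℕ) then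
    wt l j * (PsiG (l.drop (j + 1)) F (Wk l x (j + 1)) - PsiG (l.drop j) F (Wk l x j)) else 0

/-- the exponent of the density of the tree: sum over the pairs (replica `i`, level `j`) such that `i`
is the first replica in its class at level `j` -/
noncomputable def exT {κ : Type} [Fintype κ] (l : List (Lev κ)) (F : (κ → ℝ) → ℝ)
    {L n : ℕ} (w : LM L n) (y : Fin n → Pth κ L) : ℝ := by
  classical
  exact ∑ i : Fin n, ∑ j : Fin L, if anc w i j = i then
    wt l j * (PsiG (l.drop (j + 1)) F (Wk l (xp w y i) (j + 1)) -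
      PsiG (l.drop j) F (Wk l (xp w y i) j)) else 0

/-- tree average of a function of the values of the field at the replicas -/
noncomputable def TA {κ : Type} [Fintype κ] (l : List (Lev κ)) (F : (κ → ℝ) → ℝ)
    {L : ℕ} {m : ℕ → ℝ} (T : TLaw L m) {n : ℕ} (Θ : (Fin n → κ → ℝ) → ℝ) : ℝ :=
  ∑ w : LM L n, T.p n w *
    ∫ y, Θ (fun i => Wk l (xp w y i) L) * Real.exp (exT l F w y) ∂(pths κ L n)

/-! ### The hierarchy -/

/-- derivative hierarchy of the family `D t n a` (`a : ℕ → ℕ` exponents, only the first `n` matter) -/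
def Hier (D : ℝ → ℕ → (ℕ → ℕ) → ℝ) : Prop :=
  ∀ (n : ℕ) (a : ℕ → ℕ) (t : ℝ), 0 < n → HasDerivAt (fun s => D s n a)
    ((∑ l ∈ Finset.range n, D t n (Function.update a l (a l + 1))) -
      (n : ℝ) * D t (n + 1) (Function.update a n 1)) t

/-! ### Abstract Gibbs averages with tilt `exp (t Y)` -/

/-- normalisation `<exp (t Y)>` -/
noncomputable def zz {X Ω : Type} [Fintype Ω] (G Y : X → Ω → ℝ) (t : ℝ) (x : X) : ℝ :=
  ∑ ω, G x ω * Real.exp (t * Y x ω)

/-- moments of `Y` under the tilted Gibbs average -/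
noncomputable def mo {X Ω : Type} [Fintype Ω] (G Y : X → Ω → ℝ) (t : ℝ) (x : X) (a : ℕ) : ℝ :=
  (∑ ω, G x ω * Real.exp (t * Y x ω) * Y x ω ^ a) / zz G Y t x

/-! ### Fields on replica systems -/

/-- `E log <exp f(field)>` for the Gaussian field with features `v`, independent of the system -/
noncomputable def fld {N : ℕ} (S : RS N) {κ ι : Type} [Fintype ι] (f : (κ → ℝ) → ℝ)
    (v : Cfg (Fin 2) N → κ → ι → ℝ) : ℝ :=
  ∫ x, ∫ y, Real.log (∑ ρ : Cfg (Fin 2) N, S.G x ρ * Real.exp (f (fun c => dot y (v ρ c))))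
    ∂(gam ι) ∂S.mu

/-- features of the cavity field: covariance `2 b_c b_c' R_cc'` -/
noncomputable def vz (b1 b2 : ℝ) (N : ℕ) (ρ : Cfg (Fin 2) N) (c : Fin 2) : Fin N → ℝ :=
  fun i => Real.sqrt 2 * be b1 b2 c * sg (ρ i c) / Real.sqrt N

/-- features of the field `y`: covariance `C(R)` -/
noncomputable def vy (b1 b2 : ℝ) (N : ℕ) (ρ : Cfg (Fin 2) N) (_ : Unit) : Fin N × Fin N → ℝ :=
  fun q => vH (be b1 b2) N ρ q / Real.sqrt N

/-- a cell structure of mesh `δ` of the limit overlaps of a family of systems: the path `l`, the law of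
the level matrices, the number `kap t` of shared levels as a function of the trace `t` of the overlap
matrix of two different replicas -/
structure CS (F : Fam) (δ : ℝ) where
  /-- number of levels -/
  L : ℕ
  /-- the path -/
  l : List (Step (Fin 2))
  len : l.length = L
  /-- law of the level matrices, the weights are the ones of the path -/
  T : TLaw L (fun j => (l.map Prod.fst).getD j 0)
  /-- the weights of the path -/
  valid : Valid l
  /-- total -/
  tot : Qtot l = mat 1 1 F.u
  /-- number of shared levels -/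
  kap : ℝ → ℕ
  kap_lt : ∀ t, kap t < L
  law : ∀ (n : ℕ) (w : LM L n), 0 < n → F.EA (n := n) (fun A =>
    if ∀ i j, (w i j : ℕ) = (if i = j then L else kap (Matrix.trace (A i j))) then (1 : ℝ) else 0)
      = T.p n w
  close : ∀ η : ℝ, 0 < η → Tendsto (fun i => (F.S i).av (n := 2) (fun r =>
    if ∃ c c', δ + η < |ovM (r 0) (r 1) c c' -
      Qtot (l.take (kap (Matrix.trace (ovM (r 0) (r 1))))) c c'| then (1 : ℝ) else 0)) F.U (𝓝 0)

end SKC.G
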