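import Pool.Agent.H.MP_08eaf3_pr.G.Defs
import Pool.Agent.H.MP_08eaf3_pr.Sys.Basic
import Pool.Agent.H.MP_08eaf3_pr.Sys.Ov
import Pool.Agent.H.MP_08eaf3_pr.Sys.Fam1

/-!
# Part G3: overlaps are close to the matrices of their levels with high probability
-/

set_option autoImplicit false

open MeasureTheory ProbabilityTheory Filter Topology Matrix

namespace SKC.G

theorem in2_append {K : Type} [Fintype K] (l l' : List (Step K)) :
    Qtot (l ++ l') = Qtot l + Qtot l' := by
  induction l with
  | nil =>
    show Qtot l' = 0 + Qtot l'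
    rw [zero_add]
  | cons a l ih =>
    show a.2 * a.2ᵀ + Qtot (l ++ l') = a.2 * a.2ᵀ + Qtot l + Qtot l'
    rw [ih, add_assoc]

theorem in2_abs {K : Type} [Fintype K] (l : List (Step K)) (c c' : K) :
    |Qtot l c c'| ≤ (Qtot l c c + Qtot l c' c') / 2 := by
  induction l with
  | nil =>
    show |(0 : ℝ)| ≤ (0 + 0) / 2
    simp
  | cons a l ih =>
    show |(a.2 * a.2ᵀ + Qtot l) c c'| ≤
      ((a.2 * a.2ᵀ + Qtot l) c c + (a.2 * a.2ᵀ + Qtot l) c' c') / 2
    simp only [Matrix.add_apply]
    refine (abs_add_le _ _).trans ?_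
    have h1 : |(a.2 * a.2ᵀ) c c'| ≤ ((a.2 * a.2ᵀ) c c + (a.2 * a.2ᵀ) c' c') / 2 := by
      simp only [Matrix.mul_apply, Matrix.transpose_apply]
      refine (Finset.abs_sum_le_sum_abs _ _).trans ?_
      rw [← Finset.sum_add_distrib, Finset.sum_div]
      refine Finset.sum_le_sum fun d _ => ?_
      rw [abs_le]
      constructor
      · nlinarith [sq_nonneg (a.2 c d + a.2 c' d)]
      · nlinarith [sq_nonneg (a.2 c d - a.2 c' d)]
    linarith

/-- the entries of the matrices on a path with total `mat 1 1 u` are at most `1`.  [`Qtot l c c = ∑_j ∑_d (E_j c d)²`, so the diagonal of the prefix is at most `1`;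
`|Qtot (l.take k) c c'| ≤ ∑ |E c d| |E c' d| ≤ ½ (Q c c + Q c' c')`.] -/
theorem Q_cube (l : List (Step (Fin 2))) (u : ℝ) (hl : Qtot l = mat 1 1 u) (k : ℕ) (c c' : Fin 2) :
    |Qtot (l.take k) c c'| ≤ 1 := by
  have h1 : Qtot l = Qtot (l.take k) + Qtot (l.drop k) := by
    rw [← in2_append, List.take_append_drop]
  have h2 : ∀ e : Fin 2, Qtot (l.take k) e e ≤ 1 := by
    intro e
    have h3 := congrFun (congrFun h1 e) e
    rw [hl, Matrix.add_apply] at h3
    have h4 := in2_abs (l.drop k) e e
    have h5 := abs_nonneg (Qtot (l.drop k) e e)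
    have h6 : mat 1 1 u e e = 1 := by
      fin_cases e <;> rfl
    linarith
  have h7 := in2_abs (l.take k) c c'
  have h8 := h2 c
  have h9 := h2 c'
  linarith

/-- the diagonal of the total is `1` and the off-diagonal entry has absolute value at most `1` -/
theorem u_le (l : List (Step (Fin 2))) (u : ℝ) (hl : Qtot l = mat 1 1 u) : |u| ≤ 1 := by
  have h1 := Q_cube l u hl l.length 0 1
  rw [List.take_length, hl] at h1
  exact h1

variable {F : Fam} {δ : ℝ}

/-- matrix predicted for the pair `i, j` of replicas -/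
noncomputable def CS.pred (C : CS F δ) {n : ℕ} (A : Fin n → Fin n → Matrix (Fin 2) (Fin 2) ℝ)
    (i j : Fin n) : Matrix (Fin 2) (Fin 2) ℝ :=
  if i = j then mat 1 1 F.u else Qtot (C.l.take (C.kap (Matrix.trace (A i j))))

/-- level matrix of an array -/
noncomputable def CS.lev (C : CS F δ) {n : ℕ} (A : Fin n → Fin n → Matrix (Fin 2) (Fin 2) ℝ) :
    LM C.L n :=
  fun i j => if i = j then Fin.last C.L else ⟨C.kap (Matrix.trace (A i j)), Nat.lt_succ_of_lt (C.kap_lt _)⟩

theorem CS.lev_eq (C : CS F δ) {n : ℕ} (A : Fin n → Fin n → Matrix (Fin 2) (Fin 2) ℝ) (w : LM C.L n) :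
    C.lev A = w ↔ ∀ i j, (w i j : ℕ) = (if i = j then C.L else C.kap (Matrix.trace (A i j))) := by
  have h0 : ∀ i j, (C.lev A i j : ℕ) = (if i = j then C.L else C.kap (Matrix.trace (A i j))) := by
    intro i j
    unfold CS.lev
    split_ifs
    · rfl
    · rfl
  constructor
  · rintro rfl i j
    exact h0 i j
  · intro h
    funext i j
    apply Fin.ext
    rw [h0, h]

/-- [`C.len`, `C.tot`, `List.take_length`] -/
theorem CS.pred_eq (C : CS F δ) {n : ℕ} (A : Fin n → Fin n → Matrix (Fin 2) (Fin 2) ℝ) (i j : Fin n) :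
    C.pred A i j = Qtot (C.l.take (C.lev A i j)) := by
  unfold CS.pred CS.lev
  split_ifs with h
  · rw [Fin.val_last, ← C.len, List.take_length, C.tot]
  · rfl

/-- [union bound over the pairs `i, j`: for `i ≠ j` `RS.av_marginal` (embedding `![i, j]`) and `C.close η`; for `i = j`: the diagonal entries are `1` (`ovM_self`, eventually `0 < Nn i`), the off-diagonal ones
are close to `u` by `hF.self η` (`RS.av_marginal`), `ovM_swap`.  `RS.av_mono`, `RS.av_sum`, squeeze.] -/
theorem CS.bad_small (hF : F.IsGG) (hδ : 0 ≤ δ) (C : CS F δ) (n : ℕ) (η : ℝ) (hη : 0 < η) :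
    Tendsto (fun k => (F.S k).av (n := n) (fun r =>
      if ∃ i j c c', δ + η < |arr r i j c c' - C.pred (arr r) i j c c'| then (1 : ℝ) else 0)) F.U (𝓝 0) := by
  have hpair : ∀ i j : Fin n, Tendsto (fun k => (F.S k).av (n := n) (fun r =>
      if ∃ c c', δ + η < |arr r i j c c' - C.pred (arr r) i j c c'| then (1 : ℝ) else 0)) F.U
      (𝓝 0) := by
    intro i j
    by_cases hij : i = j
    · subst hij
      have h1 : Tendsto (fun k => (F.S k).av (n := 1)
          (fun r => if η < |ovM (r 0) (r 0) 0 1 - F.u| then (1 : ℝ) else 0)) F.U (𝓝 0) :=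
        hF.self η hη
      refine squeeze_zero' (Eventually.of_forall fun k => (F.S k).av_nonneg _ fun r => ?_) ?_ h1
      · split_ifs <;> norm_num
      · filter_upwards [hF.hN.eventually_gt_atTop 0] with k hk
        rw [← (F.S k).av_marginal (n := n) (m := 1) (fun _ => i)
          (fun a b _ => Subsingleton.elim a b)
          (fun r => if η < |ovM (r 0) (r 0) 0 1 - F.u| then (1 : ℝ) else 0)]
        refine (F.S k).av_mono _ _ fun r => ?_
        by_cases hb : η < |ovM (r i) (r i) 0 1 - F.u|
        · rw [if_pos hb]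
          split_ifs <;> norm_num
        · rw [if_neg hb, if_neg]
          push Not at hb
          rintro ⟨c, c', hcc⟩
          have h2 : C.pred (arr r) i i c c' = mat 1 1 F.u c c' := by
            unfold CS.pred
            rw [if_pos rfl]
          rw [h2] at hcc
          have h3 : |arr r i i c c' - mat 1 1 F.u c c'| ≤ δ + η := by
            show |ovM (r i) (r i) c c' - mat 1 1 F.u c c'| ≤ δ + η
            have k1 := ovM_self hk (r i) 0
            have k2 := ovM_self hk (r i) 1
            have k3 := ovM_swap (r i) (r i) 1 0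
            fin_cases c <;> fin_cases c'
            · show |ovM (r i) (r i) 0 0 - 1| ≤ δ + η
              rw [k1]
              simp
              linarith
            · show |ovM (r i) (r i) 0 1 - F.u| ≤ δ + η
              linarith
            · show |ovM (r i) (r i) 1 0 - F.u| ≤ δ + η
              rw [k3]
              linarith
            · show |ovM (r i) (r i) 1 1 - 1| ≤ δ + η
              rw [k2]
              simp
              linarith
          exact absurd hcc (not_lt.2 h3)
    · refine (C.close η hη).congr fun k => ?_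
      have hinj : Function.Injective (![i, j] : Fin 2 → Fin n) := by
        intro a b hab
        fin_cases a <;> fin_cases b
        · rfl
        · exact absurd hab hij
        · exact absurd hab.symm hij
        · rfl
      rw [← (F.S k).av_marginal (n := n) (m := 2) (![i, j]) hinj]
      congr 1
      funext r
      have h2 : C.pred (arr r) i j =
          Qtot (C.l.take (C.kap (Matrix.trace (ovM (r i) (r j))))) := by
        unfold CS.pred
        rw [if_neg hij]
        rfl
      rw [h2]
      rfl
  have hsum : Tendsto (fun k => ∑ i : Fin n, ∑ j : Fin n, (F.S k).av (n := n) (fun r =>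
      if ∃ c c', δ + η < |arr r i j c c' - C.pred (arr r) i j c c'| then (1 : ℝ) else 0)) F.U
      (𝓝 0) := by
    have h1 := tendsto_finsetSum (Finset.univ : Finset (Fin n))
      (fun i _ => tendsto_finsetSum (Finset.univ : Finset (Fin n)) (fun j _ => hpair i j))
    simpa using h1
  refine squeeze_zero (fun k => (F.S k).av_nonneg _ fun r => ?_) (fun k => ?_) hsum
  · split_ifs <;> norm_num
  · have h1 : ∑ i : Fin n, ∑ j : Fin n, (F.S k).av (n := n) (fun r =>
        if ∃ c c', δ + η < |arr r i j c c' - C.pred (arr r) i j c c'| then (1 : ℝ) else 0) =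
        (F.S k).av (n := n) (fun r => ∑ i : Fin n, ∑ j : Fin n,
          if ∃ c c', δ + η < |arr r i j c c' - C.pred (arr r) i j c c'| then (1 : ℝ) else 0) := by
      rw [RS.av_sum]
      refine Finset.sum_congr rfl fun i _ => ?_
      rw [RS.av_sum]
    rw [h1]
    refine (F.S k).av_mono _ _ fun r => ?_
    have h0 : ∀ i j : Fin n, (0 : ℝ) ≤
        if ∃ c c', δ + η < |arr r i j c c' - C.pred (arr r) i j c c'| then (1 : ℝ) else 0 := by
      intro i j
      split_ifs <;> norm_num
    by_cases hb : ∃ i j c c', δ + η < |arr r i j c c' - C.pred (arr r) i j c c'|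
    · rw [if_pos hb]
      obtain ⟨i, j, hcc⟩ := hb
      have h2 : (if ∃ c c', δ + η < |arr r i j c c' - C.pred (arr r) i j c c'| then (1 : ℝ)
          else 0) = 1 := if_pos hcc
      calc (1 : ℝ) = if ∃ c c', δ + η < |arr r i j c c' - C.pred (arr r) i j c c'| then (1 : ℝ)
          else 0 := h2.symm
        _ ≤ ∑ j : Fin n, if ∃ c c', δ + η < |arr r i j c c' - C.pred (arr r) i j c c'|
            then (1 : ℝ) else 0 :=
          Finset.single_le_sum (f := fun j : Fin n =>
            if ∃ c c', δ + η < |arr r i j c c' - C.pred (arr r) i j c c'| then (1 : ℝ) else 0)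
            (fun j _ => h0 i j) (Finset.mem_univ j)
        _ ≤ _ := Finset.single_le_sum (f := fun i : Fin n => ∑ j : Fin n,
            if ∃ c c', δ + η < |arr r i j c c' - C.pred (arr r) i j c c'| then (1 : ℝ) else 0)
            (fun i _ => Finset.sum_nonneg fun j _ => h0 i j) (Finset.mem_univ i)
    · rw [if_neg hb]
      exact Finset.sum_nonneg fun i _ => Finset.sum_nonneg fun j _ => h0 i j

/-- [`C.law`, `CS.lev_eq`, `Fam.tendsto_E`] -/
theorem CS.law_tendsto (C : CS F δ) (n : ℕ) (hn : 0 < n) (w : LM C.L n) :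
    Tendsto (fun k => (F.S k).av (fun r => if C.lev (arr r) = w then (1 : ℝ) else 0)) F.U
      (𝓝 (C.T.p n w)) := by
  have h1 := Fam.tendsto_E F (n := n) (fun k r => if C.lev (arr r) = w then (1 : ℝ) else 0) 1
    (fun k r => by split_ifs <;> simp)
  have h2 : F.E (n := n) (fun k r => if C.lev (arr r) = w then (1 : ℝ) else 0) = C.T.p n w := by
    rw [← C.law n w hn]
    unfold Fam.EA
    congr 1
    funext k r
    simp only [CS.lev_eq]
  rw [h2] at h1
  exact h1

end SKC.G
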