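import Pool.Agent.H.MP_08eaf3_pr.G.Bd0
import Pool.Agent.H.MP_08eaf3_pr.G.In2
import Pool.Agent.H.MP_08eaf3_pr.Sys.Ov

/-!
# Part G3: bounded functions of the field, families
-/

set_option autoImplicit false

open MeasureTheory ProbabilityTheory Filter Topology Matrix

namespace SKC.G

variable {κ : Type} [Fintype κ] [DecidableEq κ]

/-- modulus of continuity of a kernel function on the cube -/
def KLip (Gm : Matrix (Fin 2) (Fin 2) ℝ → Matrix κ κ ℝ) (CG : ℝ) : Prop :=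
  ∀ (R R' : Matrix (Fin 2) (Fin 2) ℝ) (e : ℝ), (∀ d d', |R d d'| ≤ 1) → (∀ d d', |R' d d'| ≤ 1) →
    (∀ d d', |R d d' - R' d d'| ≤ e) → ∀ c c', |Gm R c c' - Gm R' c c'| ≤ CG * e

/-- data of a field: level list of the field adapted to a cell structure -/
structure FData (F : Fam) (δ : ℝ) (C : CS F δ) (κ : Type) [Fintype κ] where
  /-- kernel -/
  Gm : Matrix (Fin 2) (Fin 2) ℝ → Matrix κ κ ℝ
  /-- levels of the field -/
  lG : List (Lev κ)
  len : lG.length = C.L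
  wts : lG.map Prod.fst = C.l.map Prod.fst
  cov : ∀ k ≤ C.L, CovG (lG.take k) = Gm (Qtot (C.l.take k))
  /-- features -/
  ι : F.I → Type
  fin : ∀ i, Fintype (ι i)
  v : ∀ i, Cfg (Fin 2) (F.Nn i) → κ → ι i → ℝ
  gram : ∀ i ρ ρ' c c', @dot (ι i) (fin i) (v i ρ c) (v i ρ' c') = Gm (ovM ρ ρ') c c'

theorem bd_const (CY CG : ℝ) (hCY : 0 ≤ CY) (hCG : 0 ≤ CG) (K N : ℕ) (η0 : ℝ) (hη0 : 0 < η0) :
    ∃ e0 : ℝ, 0 < e0 ∧ ∀ n : ℕ, n ≤ K → ∀ e : ℝ, 0 ≤ e → e ≤ e0 →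
      2 * (CY * K) * (n * N) * Real.sqrt ((n * N + 1) * (CG * e)) ≤ η0 / 2 := by
  obtain ⟨A, hA⟩ : ∃ A : ℝ, A = 2 * (CY * K) * (K * N) := ⟨_, rfl⟩
  obtain ⟨B, hB⟩ : ∃ B : ℝ, B = (K * N + 1) * CG := ⟨_, rfl⟩
  have hA0 : 0 ≤ A := by rw [hA]; positivity
  have hB0 : 0 ≤ B := by rw [hB]; positivity
  have hs : 0 < η0 / (2 * (A + 1)) := by positivity
  refine ⟨(η0 / (2 * (A + 1))) ^ 2 / (B + 1), by positivity, ?_⟩
  intro n hn e he hee
  have hnK : (n : ℝ) ≤ K := by exact_mod_cast hn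
  have hN0 : (0 : ℝ) ≤ (N : ℝ) := Nat.cast_nonneg N
  have h0 : (n : ℝ) * N ≤ K * N := mul_le_mul_of_nonneg_right hnK hN0
  have h1 : ((n : ℝ) * N + 1) * (CG * e) ≤ B * e := by
    rw [hB, mul_assoc]
    exact mul_le_mul_of_nonneg_right (by linarith) (mul_nonneg hCG he)
  have h2 : B * e ≤ (η0 / (2 * (A + 1))) ^ 2 := by
    have h3 : B * e ≤ (B + 1) * ((η0 / (2 * (A + 1))) ^ 2 / (B + 1)) :=
      mul_le_mul (by linarith) hee he (by linarith)
    rwa [mul_div_cancel₀ _ (by positivity : (B + 1) ≠ 0)] at h3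
  have h3 : Real.sqrt (((n : ℝ) * N + 1) * (CG * e)) ≤ η0 / (2 * (A + 1)) := by
    rw [Real.sqrt_le_left hs.le]
    exact h1.trans h2
  have h4 : 2 * (CY * K) * ((n : ℝ) * N) ≤ A := by
    rw [hA]
    exact mul_le_mul_of_nonneg_left h0 (by positivity)
  have h5 : 2 * (CY * K) * ((n : ℝ) * N) * Real.sqrt (((n : ℝ) * N + 1) * (CG * e)) ≤
      A * (η0 / (2 * (A + 1))) := mul_le_mul h4 h3 (Real.sqrt_nonneg _) hA0
  refine h5.trans ?_
  rw [← mul_div_assoc, div_le_div_iff₀ (by positivity) (by norm_num)]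
  nlinarith

theorem bd_theta (L K : ℕ) (η0 : ℝ) (hη0 : 0 < η0) :
    ∃ θ : ℝ, 0 < θ ∧ ∀ n : ℕ, n ≤ K →
      2 * θ + (Fintype.card (LM L n) : ℝ) * θ ≤ η0 / 2 := by
  obtain ⟨S, hS⟩ : ∃ S : ℝ, S = ∑ n ∈ Finset.range (K + 1), (Fintype.card (LM L n) : ℝ) := ⟨_, rfl⟩
  have hS0 : 0 ≤ S := by
    rw [hS]
    exact Finset.sum_nonneg fun n _ => Nat.cast_nonneg _
  refine ⟨η0 / (2 * (2 + S)), by positivity, ?_⟩
  intro n hn
  have h1 : (Fintype.card (LM L n) : ℝ) ≤ S := by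
    rw [hS]
    exact Finset.single_le_sum (f := fun n => (Fintype.card (LM L n) : ℝ))
      (fun n _ => Nat.cast_nonneg _) (Finset.mem_range.2 (Nat.lt_succ_of_le hn))
  have h2 : 0 < η0 / (2 * (2 + S)) := by positivity
  have h3 : 2 * (η0 / (2 * (2 + S))) + (Fintype.card (LM L n) : ℝ) * (η0 / (2 * (2 + S))) ≤
      (2 + S) * (η0 / (2 * (2 + S))) := by
    rw [← add_mul]
    exact mul_le_mul_of_nonneg_right (by linarith) h2.le
  refine h3.trans (le_of_eq ?_)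
  have h4 : 2 + S ≠ 0 := by positivity
  field_simp

omit [DecidableEq κ] in
/-- the event of `in_det` is contained in the event of `bad_small` -/
theorem bd_bad {F : Fam} {δ : ℝ} (C : CS F δ) (P : FData F δ C κ) {CG : ℝ} (hK : KLip P.Gm CG)
    {N n : ℕ} (S : RS N) (e : ℝ) :
    S.av (n := n) (fun r => if ∃ i j c c', CG * e < |P.Gm (arr r i j) c c' -
      CovG (P.lG.take (C.lev (arr r) i j)) c c'| then (1 : ℝ) else 0) ≤
    S.av (n := n) (fun r => if ∃ i j c c', e < |arr r i j c c' - C.pred (arr r) i j c c'|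
      then (1 : ℝ) else 0) := by
  refine S.av_mono _ _ fun r => ?_
  split_ifs with h1 h2 h2
  · exact le_rfl
  · exfalso
    obtain ⟨i, j, c, c', hlt⟩ := h1
    push Not at h2
    have h3 : CovG (P.lG.take (C.lev (arr r) i j)) = P.Gm (C.pred (arr r) i j) := by
      rw [P.cov _ (Nat.le_of_lt_succ (C.lev (arr r) i j).2), C.pred_eq]
    rw [h3] at hlt
    refine absurd hlt (not_lt.2 (hK _ _ e (fun d d' => SKC.abs_ovM_le _ _ d d') (fun d d' => ?_)
      (fun d d' => h2 i j d d') c c'))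
    rw [C.pred_eq]
    exact Q_cube C.l F.u C.tot _ d d'
  · exact zero_le_one
  · exact le_rfl

omit [DecidableEq κ] in
theorem bd_lip_meas {f : (κ → ℝ) → ℝ} {c : ℝ} (h : ∀ z z', |f z - f z'| ≤ c * n1 (z - z')) :
    Measurable f := by
  refine Continuous.measurable ?_
  rw [continuous_iff_continuousAt]
  intro z
  rw [ContinuousAt, tendsto_iff_dist_tendsto_zero]
  have hn : Continuous (fun z' : κ → ℝ => c * n1 (z' - z)) := by
    have h1 : Continuous (n1 : (κ → ℝ) → ℝ) := by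
      unfold n1
      exact continuous_finsetSum _ fun c _ => (continuous_apply c).abs
    exact continuous_const.mul (h1.comp (continuous_id.sub continuous_const))
  have h0 : Tendsto (fun z' : κ → ℝ => c * n1 (z' - z)) (𝓝 z) (𝓝 0) := by
    have h2 := hn.tendsto z
    have h3 : c * n1 (z - z) = 0 := by
      unfold n1
      simp
    rwa [h3] at h2
  exact squeeze_zero (fun _ => dist_nonneg) (fun z' => by rw [Real.dist_eq]; exact h z' z) h0

/-- closeness at `t = 0` for a family.  [Given `K`, `η0`: choose first `e0 > 0` with `2 (CY K) (K card κ) sqrt ((K card κ + 1) (CG e0)) ≤ η0 / 2`, `δ0 = e0 / 2`, and for given `C`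
a `θ > 0` with `2 θ + card (LM C.L n) θ ≤ η0 / 2` for all `n ≤ K`.  Eventually along `F.U`, for all `n ≤ K` (finitely many) and all `w` (finitely many): `CS.bad_small` with `η = δ0`
(the event of `in_det` with `δ' = CG (δ + δ0)` is contained in the event of `bad_small`, by `KLip`, `abs_ovM_le`, `Q_cube`, `CS.pred_eq`, `cov`), `CS.law_tendsto`; then `in_det`.] -/
theorem fam_zero (CY CG : ℝ) (hCY : 0 ≤ CY) (hCG : 0 ≤ CG) (K : ℕ) (η0 : ℝ) (hη0 : 0 < η0) :
    ∃ δ0 : ℝ, 0 < δ0 ∧ ∀ (F : Fam), F.IsGG → ∀ (δ : ℝ), 0 < δ → δ ≤ δ0 → ∀ (C : CS F δ)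
      (P : FData F δ C κ), KLip P.Gm CG → ∀ (Y : (κ → ℝ) → ℝ), (∀ z, |Y z| ≤ 1) →
      (∀ z z', |Y z - Y z'| ≤ CY * n1 (z - z')) →
      ∀ᶠ i in (F.U : Filter F.I), ∀ (n : ℕ) (a : ℕ → ℕ), 0 < n → n ≤ K → (∀ l, a l ≤ K) →
        |(F.S i).av (fun r : Fin n → Cfg (Fin 2) (F.Nn i) =>
            ∫ y, ∏ j : Fin n, Y (fun c => @dot (P.ι i) (P.fin i) y (P.v i (r j) c)) ^ a j
              ∂(@gam (P.ι i) (P.fin i))) -
          ∑ w : LM C.L n, C.T.p n w *
            ∫ y, ∏ j : Fin n, Y (Wk P.lG (xp w y j) C.L) ^ a j ∂(pths κ C.L n)| ≤ η0 := by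
  obtain ⟨e0, he0, hE⟩ := bd_const CY CG hCY hCG K (Fintype.card κ) η0 hη0
  refine ⟨e0 / 2, by positivity, ?_⟩
  intro F hF δ hδ hδ0 C P hK Y hY1 hYL
  obtain ⟨θ, hθ, hθ2⟩ := bd_theta C.L K η0 hη0
  have hev : ∀ᶠ i in (F.U : Filter F.I), ∀ n ∈ Finset.range (K + 1), 0 < n →
      ((F.S i).av (n := n) (fun r => if ∃ i' j c c', δ + e0 / 2 <
          |arr r i' j c c' - C.pred (arr r) i' j c c'| then (1 : ℝ) else 0) ≤ θ ∧
        ∀ w : LM C.L n, |(F.S i).av (fun r => if C.lev (arr r) = w then (1 : ℝ) else 0) -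
          C.T.p n w| ≤ θ) := by
    rw [Filter.eventually_all_finset]
    intro n _
    by_cases hn : 0 < n
    · have h1 := (CS.bad_small hF hδ.le C n (e0 / 2) (by positivity)).eventually
        (eventually_le_nhds hθ)
      have h2 : ∀ᶠ i in (F.U : Filter F.I), ∀ w : LM C.L n,
          |(F.S i).av (fun r => if C.lev (arr r) = w then (1 : ℝ) else 0) - C.T.p n w| ≤ θ := by
        rw [Filter.eventually_all]
        intro w
        have h3 := (CS.law_tendsto C n hn w).eventually (Metric.closedBall_mem_nhds _ hθ)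
        filter_upwards [h3] with i hi
        rw [Real.dist_eq] at hi
        exact hi
      filter_upwards [h1, h2] with i h1 h2 _
      exact ⟨h1, h2⟩
    · exact Filter.Eventually.of_forall fun i h => absurd h hn
  filter_upwards [hev] with i hi n a hn hnK ha
  obtain ⟨hb, hl⟩ := hi n (Finset.mem_range.2 (Nat.lt_succ_of_le hnK)) hn
  let _ := P.fin i
  have h := in_det (F.S i) P.lG P.len (C.T.p n) (C.T.supp n) (fun r => C.lev (arr r)) P.Gm
    (P.v i) (P.gram i) (CG * (δ + e0 / 2)) θ (by positivity) hθ.le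
    ((bd_bad C P hK (F.S i) (δ + e0 / 2)).trans hb) hl Y CY hCY hY1 hYL a K ha
  refine h.trans ?_
  have h1 := hE n hnK (δ + e0 / 2) (by positivity) (by linarith)
  have h2 := hθ2 n hnK
  linarith

/-- **Bounded Lipschitz functions of the field.**  [`bdd_one`, `fam_zero` with `Y = f / M`] -/
theorem main_bdd (M CF CG ε : ℝ) (hM : 0 < M) (hCF : 0 ≤ CF) (hCG : 0 ≤ CG) (hε : 0 < ε) :
    ∃ δ0 : ℝ, 0 < δ0 ∧ ∀ (F : Fam), F.IsGG → ∀ (δ : ℝ), 0 < δ → δ ≤ δ0 → ∀ (C : CS F δ)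
      (P : FData F δ C κ), KLip P.Gm CG → ∀ (f : (κ → ℝ) → ℝ), (∀ z, |f z| ≤ M) →
      (∀ z z', |f z - f z'| ≤ CF * n1 (z - z')) →
      ∀ᶠ i in (F.U : Filter F.I),
        |@fld _ (F.S i) κ (P.ι i) (P.fin i) f (P.v i) - PsiG P.lG f 0| ≤ ε := by
  obtain ⟨K, η, hη, hb⟩ := bdd_one (κ := κ) M ε hM hε
  obtain ⟨δ0, hδ0, hz⟩ := fam_zero (κ := κ) (CF / M) CG (by positivity) hCG K η hη
  refine ⟨δ0, hδ0, ?_⟩
  intro F hF δ hδ hδle C P hK f hfM hfL
  have hY1 : ∀ z, |f z / M| ≤ 1 := by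
    intro z
    rw [abs_div, abs_of_pos hM, div_le_one hM]
    exact hfM z
  have hYL : ∀ z z', |f z / M - f z' / M| ≤ CF / M * n1 (z - z') := by
    intro z z'
    rw [← sub_div, abs_div, abs_of_pos hM, div_mul_eq_mul_div]
    exact div_le_div_of_nonneg_right (hfL z z') hM.le
  have hYm : Measurable (fun z => f z / M) := bd_lip_meas hYL
  have hff : (fun z => M * (f z / M)) = f := by
    funext z
    exact mul_div_cancel₀ _ hM.ne'
  have hw : ∀ j < C.L, (fun j => (C.l.map Prod.fst).getD j 0) j = wt P.lG j := by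
    intro j _
    unfold wt
    rw [P.wts]
  filter_upwards [hz F hF δ hδ hδle C P hK (fun z => f z / M) hY1 hYL] with i hi
  have h := hb C.L _ C.T P.lG P.len hw (F.Nn i) (F.S i) (P.ι i) (P.fin i) (P.v i)
    (fun z => f z / M) hYm hY1 hi
  rwa [hff] at h

end SKC.G
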