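import Pool.Agent.H.MP_08eaf3_pr.B.Cls
import Pool.Agent.H.MP_08eaf3_pr.A.Mom
import Pool.Agent.H.MP_08eaf3_pr.G.Defs

/-!
# Part G4: monotonicity and gap inequality for fields on a system
-/

set_option autoImplicit false

open MeasureTheory ProbabilityTheory Filter Topology Matrix

namespace SKC.G

variable {κ : Type} [Fintype κ] {N : ℕ} {ι : Type} [Fintype ι]

/-- the logarithm of an average of exponentials -/
theorem fl_log_bd {Ω : Type} [Fintype Ω] (w a : Ω → ℝ) (h0 : ∀ ω, 0 ≤ w ω) (h1 : ∑ ω, w ω = 1) :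
    0 < ∑ ω, w ω * Real.exp (a ω) ∧ |Real.log (∑ ω, w ω * Real.exp (a ω))| ≤ ∑ ω, |a ω| := by
  have hA : ∀ ω, |a ω| ≤ ∑ ω, |a ω| := fun ω =>
    Finset.single_le_sum (f := fun ω => |a ω|) (fun _ _ => abs_nonneg _) (Finset.mem_univ ω)
  set A := ∑ ω, |a ω| with hAdef
  have hlow : Real.exp (-A) ≤ ∑ ω, w ω * Real.exp (a ω) := by
    calc Real.exp (-A) = ∑ ω, w ω * Real.exp (-A) := by rw [← Finset.sum_mul, h1, one_mul]
      _ ≤ _ := Finset.sum_le_sum fun ω _ => mul_le_mul_of_nonneg_left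
        (Real.exp_le_exp.2 (by have := (abs_le.1 (hA ω)).1; linarith)) (h0 ω)
  have hup : ∑ ω, w ω * Real.exp (a ω) ≤ Real.exp A := by
    calc ∑ ω, w ω * Real.exp (a ω) ≤ ∑ ω, w ω * Real.exp A := Finset.sum_le_sum fun ω _ =>
          mul_le_mul_of_nonneg_left (Real.exp_le_exp.2 (by have := (abs_le.1 (hA ω)).2; linarith)) (h0 ω)
      _ = Real.exp A := by rw [← Finset.sum_mul, h1, one_mul]
  have hpos : 0 < ∑ ω, w ω * Real.exp (a ω) := lt_of_lt_of_le (Real.exp_pos _) hlow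
  refine ⟨hpos, ?_⟩
  rw [abs_le]
  constructor
  · rw [Real.le_log_iff_exp_le hpos]
    exact hlow
  · rw [Real.log_le_iff_le_exp hpos]
    exact hup

theorem fl_field (v : Cfg (Fin 2) N → κ → ι → ℝ) (ρ : Cfg (Fin 2) N) (y : ι → ℝ) :
    (fun c => dot y (v ρ c)) = (0 : κ → ℝ) + (Matrix.of (v ρ)).mulVec y := by
  funext c
  rw [zero_add]
  unfold dot
  show _ = ∑ i, v ρ c i * y i
  exact Finset.sum_congr rfl fun i _ => mul_comm _ _

theorem fl_LG {f : (κ → ℝ) → ℝ} (hf : LG f) (v : Cfg (Fin 2) N → κ → ι → ℝ) (ρ : Cfg (Fin 2) N) :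
    LG (fun y : ι → ℝ => f (fun c => dot y (v ρ c))) := by
  have h := LG.comp_affine hf (0 : κ → ℝ) (Matrix.of (v ρ))
  have e : (fun y : ι → ℝ => f (fun c => dot y (v ρ c))) =
      fun x => f (0 + (Matrix.of (v ρ)).mulVec x) := by
    funext y
    rw [fl_field]
  rw [e]
  exact h

theorem fl_EG {f : (κ → ℝ) → ℝ} (hf : EG f) (v : Cfg (Fin 2) N → κ → ι → ℝ) (ρ : Cfg (Fin 2) N) :
    EG (fun y : ι → ℝ => f (fun c => dot y (v ρ c))) := by
  have h := EG.comp_affine hf (0 : κ → ℝ) (Matrix.of (v ρ))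
  have e : (fun y : ι → ℝ => f (fun c => dot y (v ρ c))) =
      fun x => f (0 + (Matrix.of (v ρ)).mulVec x) := by
    funext y
    rw [fl_field]
  rw [e]
  exact h

theorem fl_bd_int {f : (κ → ℝ) → ℝ} (hf : LG f) (v : Cfg (Fin 2) N → κ → ι → ℝ) :
    Integrable (fun y : ι → ℝ => ∑ ρ : Cfg (Fin 2) N, |f (fun c => dot y (v ρ c))|) (gam ι) :=
  integrable_finsetSum _ fun ρ _ => ((fl_LG hf v ρ).integrable).abs

/-- integrability of the inner integrand.  [`|log ∑ G e^{f}| ≤ ∑_ρ |f (field ρ)|` (the logarithm lies between the minimum and the maximum of `f`), linear growth] -/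
theorem fld_inner (S : RS N) {f : (κ → ℝ) → ℝ} (hf : LG f) (v : Cfg (Fin 2) N → κ → ι → ℝ)
    (x : S.X) : Integrable (fun y => Real.log (∑ ρ : Cfg (Fin 2) N,
      S.G x ρ * Real.exp (f (fun c => dot y (v ρ c))))) (gam ι) := by
  have hc : Continuous (fun y : ι → ℝ => ∑ ρ : Cfg (Fin 2) N,
      S.G x ρ * Real.exp (f (fun c => dot y (v ρ c)))) :=
    continuous_finset_sum _ fun ρ _ => continuous_const.mul ((fl_LG hf v ρ).cont.rexp)
  have hb := fun y : ι → ℝ => fl_log_bd (S.G x) (fun ρ => f (fun c => dot y (v ρ c))) (S.nonneg x)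
    (S.sum_one x)
  refine (fl_bd_int hf v).mono' ?_ (Eventually.of_forall fun y => ?_)
  · exact (hc.log fun y => (hb y).1.ne').aestronglyMeasurable
  · rw [Real.norm_eq_abs]
    exact (hb y).2

/-- integrability of the outer integrand (bounded, measurable in `x`) -/
theorem fld_outer (S : RS N) {f : (κ → ℝ) → ℝ} (hf : LG f) (v : Cfg (Fin 2) N → κ → ι → ℝ) :
    Integrable (fun x => ∫ y, Real.log (∑ ρ : Cfg (Fin 2) N,
      S.G x ρ * Real.exp (f (fun c => dot y (v ρ c)))) ∂(gam ι)) S.mu := by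
  have hm : Measurable (fun p : S.X × (ι → ℝ) => Real.log (∑ ρ : Cfg (Fin 2) N,
      S.G p.1 ρ * Real.exp (f (fun c => dot p.2 (v ρ c))))) := by
    refine Measurable.log (Finset.measurable_fun_sum _ fun ρ _ => ?_)
    exact ((S.meas ρ).comp measurable_fst).mul
      (((fl_LG hf v ρ).cont.measurable.comp measurable_snd).exp)
  have hsm : StronglyMeasurable (fun x => ∫ y, Real.log (∑ ρ : Cfg (Fin 2) N,
      S.G x ρ * Real.exp (f (fun c => dot y (v ρ c)))) ∂(gam ι)) :=
    StronglyMeasurable.integral_prod_right (f := fun x y => Real.log (∑ ρ : Cfg (Fin 2) N,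
      S.G x ρ * Real.exp (f (fun c => dot y (v ρ c))))) hm.stronglyMeasurable
  refine Integrable.of_bound hsm.aestronglyMeasurable
    (∫ y : ι → ℝ, ∑ ρ : Cfg (Fin 2) N, |f (fun c => dot y (v ρ c))| ∂(gam ι))
    (Eventually.of_forall fun x => ?_)
  refine norm_integral_le_of_norm_le (fl_bd_int hf v) (Eventually.of_forall fun y => ?_)
  rw [Real.norm_eq_abs]
  exact (fl_log_bd (S.G x) (fun ρ => f (fun c => dot y (v ρ c))) (S.nonneg x) (S.sum_one x)).2

theorem fld_mono (S : RS N) {f g : (κ → ℝ) → ℝ} (hf : LG f) (hg : LG g) (h : ∀ z, f z ≤ g z)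
    (v : Cfg (Fin 2) N → κ → ι → ℝ) : fld S f v ≤ fld S g v := by
  unfold fld
  refine integral_mono (fld_outer S hf v) (fld_outer S hg v) fun x => ?_
  refine integral_mono (fld_inner S hf v x) (fld_inner S hg v x) fun y => ?_
  refine Real.log_le_log (fl_log_bd (S.G x) (fun ρ => f (fun c => dot y (v ρ c))) (S.nonneg x)
    (S.sum_one x)).1 ?_
  exact Finset.sum_le_sum fun ρ _ => mul_le_mul_of_nonneg_left (Real.exp_le_exp.2 (h _)) (S.nonneg x ρ)

/-- [`log (∑ G e^f) - log (∑ G e^g) ≤ (∑ G e^f - ∑ G e^g) / ∑ G e^g ≤ e^M ∑ G k` pointwise; integrate: `∫ k(field ρ) ≤ Bd` for every `ρ`, `∑ G = 1`] -/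
theorem fld_gap (S : RS N) {f g k : (κ → ℝ) → ℝ} (hf : LG f) (hg : LG g) (hk : EG k)
    (hk0 : ∀ z, 0 ≤ k z) (M Bd : ℝ) (hM : ∀ z, -M ≤ g z)
    (h : ∀ z, Real.exp (f z) - Real.exp (g z) ≤ k z) (v : Cfg (Fin 2) N → κ → ι → ℝ)
    (hB : ∀ ρ, ∫ y, k (fun c => dot y (v ρ c)) ∂(gam ι) ≤ Bd) :
    fld S f v ≤ fld S g v + Real.exp M * Bd := by
  have hki : ∀ ρ, Integrable (fun y : ι → ℝ => k (fun c => dot y (v ρ c))) (gam ι) := fun ρ =>
    (fl_EG hk v ρ).integrable
  have hinner : ∀ x, ∫ y, Real.log (∑ ρ : Cfg (Fin 2) N,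
      S.G x ρ * Real.exp (f (fun c => dot y (v ρ c)))) ∂(gam ι) ≤
      (∫ y, Real.log (∑ ρ : Cfg (Fin 2) N,
        S.G x ρ * Real.exp (g (fun c => dot y (v ρ c)))) ∂(gam ι)) + Real.exp M * Bd := by
    intro x
    have hpt : ∀ y : ι → ℝ, Real.log (∑ ρ : Cfg (Fin 2) N,
        S.G x ρ * Real.exp (f (fun c => dot y (v ρ c)))) ≤
        Real.log (∑ ρ : Cfg (Fin 2) N, S.G x ρ * Real.exp (g (fun c => dot y (v ρ c)))) +
          Real.exp M * ∑ ρ : Cfg (Fin 2) N, S.G x ρ * k (fun c => dot y (v ρ c)) := by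
      intro y
      have hA := (fl_log_bd (S.G x) (fun ρ => f (fun c => dot y (v ρ c))) (S.nonneg x)
        (S.sum_one x)).1
      have hB' := (fl_log_bd (S.G x) (fun ρ => g (fun c => dot y (v ρ c))) (S.nonneg x)
        (S.sum_one x)).1
      have hBl : Real.exp (-M) ≤ ∑ ρ, S.G x ρ * Real.exp (g (fun c => dot y (v ρ c))) := by
        calc Real.exp (-M) = ∑ ρ, S.G x ρ * Real.exp (-M) := by
              rw [← Finset.sum_mul, S.sum_one x, one_mul]
          _ ≤ _ := Finset.sum_le_sum fun ρ _ => mul_le_mul_of_nonneg_left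
            (Real.exp_le_exp.2 (hM _)) (S.nonneg x ρ)
      have hAB : ∑ ρ, S.G x ρ * Real.exp (f (fun c => dot y (v ρ c))) ≤
          (∑ ρ, S.G x ρ * Real.exp (g (fun c => dot y (v ρ c)))) +
            ∑ ρ, S.G x ρ * k (fun c => dot y (v ρ c)) := by
        rw [← Finset.sum_add_distrib]
        refine Finset.sum_le_sum fun ρ _ => ?_
        rw [← mul_add]
        refine mul_le_mul_of_nonneg_left ?_ (S.nonneg x ρ)
        have := h (fun c => dot y (v ρ c))
        linarith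
      have hk' : 0 ≤ ∑ ρ, S.G x ρ * k (fun c => dot y (v ρ c)) :=
        Finset.sum_nonneg fun ρ _ => mul_nonneg (S.nonneg x ρ) (hk0 _)
      set A := ∑ ρ, S.G x ρ * Real.exp (f (fun c => dot y (v ρ c))) with hAd
      set B := ∑ ρ, S.G x ρ * Real.exp (g (fun c => dot y (v ρ c))) with hBd
      set C := ∑ ρ, S.G x ρ * k (fun c => dot y (v ρ c)) with hCd
      have h1 : Real.log A - Real.log B ≤ A / B - 1 := by
        rw [← Real.log_div hA.ne' hB'.ne']
        exact Real.log_le_sub_one_of_pos (div_pos hA hB')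
      have h2 : A / B - 1 ≤ C / B := by
        have : A / B ≤ (B + C) / B := div_le_div_of_nonneg_right hAB hB'.le
        rw [add_div, div_self hB'.ne'] at this
        linarith
      have h3 : C / B ≤ C / Real.exp (-M) :=
        div_le_div_of_nonneg_left hk' (Real.exp_pos _) hBl
      have h4 : C / Real.exp (-M) = Real.exp M * C := by
        rw [Real.exp_neg, div_inv_eq_mul, mul_comm]
      linarith
    have hS : Integrable (fun y : ι → ℝ => ∑ ρ : Cfg (Fin 2) N,
        S.G x ρ * k (fun c => dot y (v ρ c))) (gam ι) :=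
      integrable_finsetSum _ fun ρ _ => (hki ρ).const_mul _
    have h1 := integral_mono (fld_inner S hf v x)
      ((fld_inner S hg v x).add (hS.const_mul (Real.exp M))) hpt
    refine h1.trans ?_
    rw [integral_add' (fld_inner S hg v x) (hS.const_mul (Real.exp M)), integral_const_mul]
    have h2 : ∫ y, ∑ ρ : Cfg (Fin 2) N, S.G x ρ * k (fun c => dot y (v ρ c)) ∂(gam ι) ≤ Bd := by
      rw [integral_finsetSum _ fun ρ _ => (hki ρ).const_mul _]
      calc ∑ ρ, ∫ y, S.G x ρ * k (fun c => dot y (v ρ c)) ∂(gam ι) ≤ ∑ ρ, S.G x ρ * Bd :=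
            Finset.sum_le_sum fun ρ _ => by
              rw [integral_const_mul]
              exact mul_le_mul_of_nonneg_left (hB ρ) (S.nonneg x ρ)
        _ = Bd := by rw [← Finset.sum_mul, S.sum_one x, one_mul]
    have h3 := mul_le_mul_of_nonneg_left h2 (Real.exp_pos M).le
    linarith
  unfold fld
  have h1 := integral_mono (fld_outer S hf v)
    ((fld_outer S hg v).add (integrable_const (Real.exp M * Bd))) hinner
  refine h1.trans (le_of_eq ?_)
  rw [integral_add' (fld_outer S hg v) (integrable_const _), integral_const]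
  simp

end SKC.G
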