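import Pool.Agent.H.MP_08eaf3_pr.G.Gp
import Pool.Agent.H.MP_08eaf3_pr.G.Fl
import Pool.Agent.H.MP_08eaf3_pr.G.Bd
import Pool.Agent.H.MP_08eaf3_pr.D.Ker1

/-!
# Part G4: the field `y`
-/

set_option autoImplicit false

open MeasureTheory ProbabilityTheory Filter Topology Matrix

namespace SKC.G

/-- levels of the field `y`: variances of the increments `C(Q + E Eᵀ) - C(Q)` -/
noncomputable def ly (β : Fin 2 → ℝ) : Matrix (Fin 2) (Fin 2) ℝ → List (Step (Fin 2)) →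
    List (Lev Unit)
  | _, [] => []
  | Q, (s :: l) =>
    (s.1, fun _ _ => Real.sqrt (Cf β (Q + s.2 * s.2ᵀ) - Cf β Q)) :: ly β (Q + s.2 * s.2ᵀ) l

/-- kernel of the field `y` -/
noncomputable def Gy (b1 b2 : ℝ) (R : Matrix (Fin 2) (Fin 2) ℝ) : Matrix Unit Unit ℝ :=
  fun _ _ => Cf (be b1 b2) R

theorem ly_length (β : Fin 2 → ℝ) (Q : Matrix (Fin 2) (Fin 2) ℝ) (l : List (Step (Fin 2))) :
    (ly β Q l).length = l.length := by
  induction l generalizing Q with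
  | nil => rfl
  | cons s l ih => simp [ly, ih]

theorem ly_fst (β : Fin 2 → ℝ) (Q : Matrix (Fin 2) (Fin 2) ℝ) (l : List (Step (Fin 2))) :
    (ly β Q l).map Prod.fst = l.map Prod.fst := by
  induction l generalizing Q with
  | nil => rfl
  | cons s l ih => simp [ly, ih]

theorem ly_take (β : Fin 2 → ℝ) (Q : Matrix (Fin 2) (Fin 2) ℝ) (l : List (Step (Fin 2))) (k : ℕ) :
    (ly β Q l).take k = ly β Q (l.take k) := by
  induction l generalizing Q k with
  | nil => simp [ly]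
  | cons s l ih =>
    cases k with
    | zero => simp [ly]
    | succ k => simp [ly, ih]

/-- `C` is monotone: `C(Q + E Eᵀ) - C(Q) = 2 ∑_d (β E_d)ᵀ Q (β E_d) + C(E Eᵀ)` -/
theorem Cf_mono (b1 b2 : ℝ) (h1 : 0 ≤ b1) (h2 : 0 ≤ b2) (Q E : Matrix (Fin 2) (Fin 2) ℝ)
    (hQ : Q.PosSemidef) : Cf (be b1 b2) Q ≤ Cf (be b1 b2) (Q + E * Eᵀ) := by
  have hq : ∀ x : Fin 2 → ℝ, 0 ≤ x 0 * (Q 0 0 * x 0 + Q 0 1 * x 1) + x 1 * (Q 1 0 * x 0 + Q 1 1 * x 1) := by
    intro x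
    have h := hQ.dotProduct_mulVec_nonneg x
    simpa [dotProduct, Matrix.mulVec, Fin.sum_univ_two] using h
  have e0 := hq ![b1 * E 0 0, b2 * E 1 0]
  have e1 := hq ![b1 * E 0 1, b2 * E 1 1]
  simp only [Matrix.cons_val_zero, Matrix.cons_val_one] at e0 e1
  have hb : ∀ c : Fin 2, 0 ≤ be b1 b2 c := by
    intro c
    fin_cases c
    · exact h1
    · exact h2
  have hC : 0 ≤ Cf (be b1 b2) (E * Eᵀ) := by
    unfold Cf
    exact Finset.sum_nonneg fun c _ => Finset.sum_nonneg fun c' _ =>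
      mul_nonneg (mul_nonneg (hb c) (hb c')) (sq_nonneg _)
  have key : Cf (be b1 b2) (Q + E * Eᵀ) = Cf (be b1 b2) Q + Cf (be b1 b2) (E * Eᵀ) +
      2 * ((b1 * E 0 0 * (Q 0 0 * (b1 * E 0 0) + Q 0 1 * (b2 * E 1 0)) +
        b2 * E 1 0 * (Q 1 0 * (b1 * E 0 0) + Q 1 1 * (b2 * E 1 0))) +
      (b1 * E 0 1 * (Q 0 0 * (b1 * E 0 1) + Q 0 1 * (b2 * E 1 1)) +
        b2 * E 1 1 * (Q 1 0 * (b1 * E 0 1) + Q 1 1 * (b2 * E 1 1)))) := by
    simp only [Cf, be, Fin.sum_univ_two, Matrix.cons_val_zero, Matrix.cons_val_one, Matrix.add_apply,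
      Matrix.mul_apply, Matrix.transpose_apply]
    ring
  rw [key]
  linarith

theorem ly_psd {Q : Matrix (Fin 2) (Fin 2) ℝ} (hQ : Q.PosSemidef) (E : Matrix (Fin 2) (Fin 2) ℝ) :
    (Q + E * Eᵀ).PosSemidef := by
  have h := Matrix.posSemidef_self_mul_conjTranspose E
  rw [Matrix.conjTranspose_eq_transpose_of_trivial] at h
  exact hQ.add h

/-- [induction on `l`, `Cf_mono`, `Real.mul_self_sqrt`; telescoping] -/
theorem CovG_ly (b1 b2 : ℝ) (h1 : 0 ≤ b1) (h2 : 0 ≤ b2) (l : List (Step (Fin 2))) :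
    ∀ (Q : Matrix (Fin 2) (Fin 2) ℝ), Q.PosSemidef →
      CovG (ly (be b1 b2) Q l) = Gy b1 b2 (Q + Qtot l) - Gy b1 b2 Q := by
  induction l with
  | nil =>
    intro Q _
    have e1 : Q + Qtot ([] : List (Step (Fin 2))) = Q := add_zero Q
    rw [e1, sub_self]
    rfl
  | cons s l ih =>
    intro Q hQ
    have hQ' : (Q + s.2 * s.2ᵀ).PosSemidef := ly_psd hQ s.2
    obtain ⟨B, hB⟩ : ∃ B : Matrix Unit Unit ℝ,
        B = fun _ _ => Real.sqrt (Cf (be b1 b2) (Q + s.2 * s.2ᵀ) - Cf (be b1 b2) Q) := ⟨_, rfl⟩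
    have e1 : CovG (ly (be b1 b2) Q (s :: l)) =
        B * Bᵀ + CovG (ly (be b1 b2) (Q + s.2 * s.2ᵀ) l) := by
      rw [hB]
      simp [CovG, ly]
    have e2 : Q + Qtot (s :: l) = (Q + s.2 * s.2ᵀ) + Qtot l := (add_assoc _ _ _).symm
    rw [e1, ih _ hQ', e2]
    have h0 : 0 ≤ Cf (be b1 b2) (Q + s.2 * s.2ᵀ) - Cf (be b1 b2) Q :=
      sub_nonneg.2 (Cf_mono b1 b2 h1 h2 Q s.2 hQ)
    funext a b
    rw [Matrix.add_apply, Matrix.sub_apply, Matrix.sub_apply, Matrix.mul_apply]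
    have hBe : ∀ i j, B i j = Real.sqrt (Cf (be b1 b2) (Q + s.2 * s.2ᵀ) - Cf (be b1 b2) Q) :=
      fun _ _ => by rw [hB]
    simp only [Matrix.transpose_apply, hBe, Finset.univ_unique, Finset.sum_singleton,
      Real.mul_self_sqrt h0, Gy]
    ring

theorem KLip_Gy (b1 b2 : ℝ) (h1 : 0 ≤ b1) (h2 : 0 ≤ b2) : KLip (Gy b1 b2) (2 * (b1 + b2) ^ 2) := by
  intro R R' e hR hR' he _ _
  have hsq : ∀ d d', |R d d' ^ 2 - R' d d' ^ 2| ≤ 2 * e := by
    intro d d'
    have e1 : R d d' ^ 2 - R' d d' ^ 2 = (R d d' - R' d d') * (R d d' + R' d d') := by ring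
    rw [e1, abs_mul]
    have h3 : |R d d' + R' d d'| ≤ 2 := (abs_add_le _ _).trans (by linarith [hR d d', hR' d d'])
    have h4 := he d d'
    have h5 : 0 ≤ e := (abs_nonneg _).trans h4
    calc |R d d' - R' d d'| * |R d d' + R' d d'| ≤ e * 2 :=
          mul_le_mul h4 h3 (abs_nonneg _) h5
      _ = 2 * e := mul_comm _ _
  have hb : ∀ c : Fin 2, 0 ≤ be b1 b2 c := by
    intro c
    fin_cases c
    · exact h1
    · exact h2
  have e2 : Gy b1 b2 R () () - Gy b1 b2 R' () () =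
      ∑ c, ∑ c', be b1 b2 c * be b1 b2 c' * (R c c' ^ 2 - R' c c' ^ 2) := by
    simp only [Gy, Cf]
    rw [← Finset.sum_sub_distrib]
    refine Finset.sum_congr rfl fun c _ => ?_
    rw [← Finset.sum_sub_distrib]
    exact Finset.sum_congr rfl fun c' _ => by ring
  have e3 : |Gy b1 b2 R () () - Gy b1 b2 R' () ()| ≤
      ∑ c, ∑ c', be b1 b2 c * be b1 b2 c' * (2 * e) := by
    rw [e2]
    refine (Finset.abs_sum_le_sum_abs _ _).trans (Finset.sum_le_sum fun c _ => ?_)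
    refine (Finset.abs_sum_le_sum_abs _ _).trans (Finset.sum_le_sum fun c' _ => ?_)
    rw [abs_mul, abs_of_nonneg (mul_nonneg (hb c) (hb c'))]
    exact mul_le_mul_of_nonneg_left (hsq c c') (mul_nonneg (hb c) (hb c'))
  refine e3.trans (le_of_eq ?_)
  simp only [be, Fin.sum_univ_two, Matrix.cons_val_zero, Matrix.cons_val_one]
  ring

/-- [`dot (vH ρ) (vH ρ') = N * Cf β (ov ρ ρ')`; `N = 0`: both sides are `0`] -/
theorem vy_gram (b1 b2 : ℝ) (N : ℕ) (ρ ρ' : Cfg (Fin 2) N) (c c' : Unit) :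
    dot (vy b1 b2 N ρ c) (vy b1 b2 N ρ' c') = Gy b1 b2 (ovM ρ ρ') c c' := by
  have e1 : dot (vy b1 b2 N ρ c) (vy b1 b2 N ρ' c') =
      dot (vH (be b1 b2) N ρ) (vH (be b1 b2) N ρ') / (N : ℝ) := by
    unfold dot vy
    rw [Finset.sum_div]
    refine Finset.sum_congr rfl fun q _ => ?_
    rw [div_mul_div_comm, Real.mul_self_sqrt (Nat.cast_nonneg N)]
  rw [e1, dot_vH]
  rcases Nat.eq_zero_or_pos N with rfl | hN
  · simp [Gy, Cf, ovM, ov]
  · have hN' : (N : ℝ) ≠ 0 := by exact_mod_cast hN.ne'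
    rw [mul_comm, mul_div_assoc, div_self hN', mul_one]
    rfl

/-- the data of the field `y` -/
noncomputable def PY (b1 b2 : ℝ) (h1 : 0 ≤ b1) (h2 : 0 ≤ b2) {F : Fam} {δ : ℝ} (C : CS F δ) :
    FData F δ C Unit where
  Gm := Gy b1 b2
  lG := ly (be b1 b2) 0 C.l
  len := by
    rw [ly_length]
    exact C.len
  wts := ly_fst _ _ _
  cov := fun k _ => by
    rw [ly_take, CovG_ly b1 b2 h1 h2 _ _ Matrix.PosSemidef.zero, zero_add]
    have h0 : Gy b1 b2 0 = 0 := by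
      funext a b
      simp [Gy, Cf]
    rw [h0, sub_zero]
  ι := fun i => Fin (F.Nn i) × Fin (F.Nn i)
  fin := fun _ => inferInstance
  v := fun i => vy b1 b2 (F.Nn i)
  gram := fun i => vy_gram b1 b2 (F.Nn i)

theorem ly_step (m b c : ℝ) (B : Matrix Unit Unit ℝ) (hB : B () () = b) (z : Unit → ℝ) :
    Tm m B (fun z => z () + c) z = z () + c + m * b ^ 2 / 2 := by
  have e0 : ∀ x : Unit → ℝ, (z + B.mulVec x) () = z () + dot x (fun _ => b) := by
    intro x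
    rw [← hB]
    simp [Matrix.mulVec, dotProduct, dot, mul_comm]
  unfold Tm
  simp only [e0]
  split_ifs with hm
  · rw [hm, zero_mul, zero_div, add_zero]
    have e1 : ∀ x : Unit → ℝ, z () + dot x (fun _ => b) + c = dot x (fun _ => b) + (z () + c) :=
      fun x => by ring
    simp only [e1]
    rw [integral_add (LG.integrable (LG.dot_right _)) (integrable_const _), A.integral_dot]
    simp
  · have e1 : ∀ x : Unit → ℝ, Real.exp (m * (z () + dot x (fun _ => b) + c)) =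
        Real.exp (m * (z () + c)) * Real.exp (dot x (m • fun _ => b)) := by
      intro x
      rw [A.dot_smul_right, ← Real.exp_add]
      congr 1
      ring
    simp only [e1]
    rw [integral_const_mul, A.integral_exp_dot, ← Real.exp_add, Real.log_exp, A.dot_smul_left,
      A.dot_smul_right]
    have e2 : dot (fun _ : Unit => b) (fun _ => b) = b ^ 2 := by
      simp [dot, sq]
    rw [e2]
    field_simp

/-- the linear terminal function.  [one step: `Tm m B (z ↦ z () + c) z = z () + c + m B²/2` (`A.integral_exp_dot`, `A.integral_dot`); `Real.sq_sqrt` by `Cf_mono`] -/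
theorem PsiG_lin (b1 b2 : ℝ) (h1 : 0 ≤ b1) (h2 : 0 ≤ b2) (l : List (Step (Fin 2))) :
    ∀ (Q : Matrix (Fin 2) (Fin 2) ℝ), Q.PosSemidef → ∀ z : Unit → ℝ,
      PsiG (ly (be b1 b2) Q l) (fun z => z ()) z = z () + (1 / 2) * corr (be b1 b2) Q l := by
  induction l with
  | nil =>
    intro Q _ z
    simp [ly, PsiG, corr]
  | cons s l ih =>
    intro Q hQ z
    have hQ' : (Q + s.2 * s.2ᵀ).PosSemidef := ly_psd hQ s.2
    have h0 : 0 ≤ Cf (be b1 b2) (Q + s.2 * s.2ᵀ) - Cf (be b1 b2) Q :=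
      sub_nonneg.2 (Cf_mono b1 b2 h1 h2 Q s.2 hQ)
    have e1 : PsiG (ly (be b1 b2) (Q + s.2 * s.2ᵀ) l) (fun z => z ()) =
        fun z => z () + (1 / 2) * corr (be b1 b2) (Q + s.2 * s.2ᵀ) l := by
      funext z'
      exact ih _ hQ' z'
    show Tm s.1 _ (PsiG (ly (be b1 b2) (Q + s.2 * s.2ᵀ) l) (fun z => z ())) z = _
    rw [e1, ly_step _ (Real.sqrt (Cf (be b1 b2) (Q + s.2 * s.2ᵀ) - Cf (be b1 b2) Q)) _ _ rfl,
      Real.sq_sqrt h0]
    simp only [corr]
    ring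

theorem ly_Cf_le (b1 b2 u : ℝ) (h1 : 0 ≤ b1) (h2 : 0 ≤ b2) (hu : |u| ≤ 1) :
    Cf (be b1 b2) (mat 1 1 u) ≤ (b1 + b2) ^ 2 := by
  have hu2 : u ^ 2 ≤ 1 := by
    rw [← sq_abs]
    nlinarith [abs_nonneg u]
  have e1 : Cf (be b1 b2) (mat 1 1 u) = b1 ^ 2 + b2 ^ 2 + 2 * (b1 * b2) * u ^ 2 := by
    simp only [Cf, be, mat, Fin.sum_univ_two, Matrix.cons_val_zero, Matrix.cons_val_one,
      Matrix.of_apply]
    ring
  rw [e1]
  nlinarith [mul_nonneg h1 h2]

theorem ly_LG_id : LG (fun z : Unit → ℝ => z ()) := by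
  refine ⟨continuous_apply (), 1, fun z => ?_⟩
  have h : n1 z = |z ()| := by simp [n1]
  rw [h]
  linarith [abs_nonneg (z ())]

theorem ly_LG_clip (a b : ℝ) : LG (fun z : Unit → ℝ => max (min (z ()) a) b) := by
  refine ⟨((continuous_apply ()).min continuous_const).max continuous_const,
    1 + |a| + |b|, fun z => ?_⟩
  have h : n1 z = |z ()| := by simp [n1]
  rw [h]
  have h3 : |max (min (z ()) a) b| ≤ |z ()| + |a| + |b| := by
    have ha := abs_nonneg a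
    have hb := abs_nonneg b
    have hz := abs_nonneg (z ())
    rcases max_cases (min (z ()) a) b with ⟨e, _⟩ | ⟨e, _⟩ <;> rw [e]
    · rcases min_cases (z ()) a with ⟨e', _⟩ | ⟨e', _⟩ <;> rw [e'] <;> linarith
    · linarith
  nlinarith [abs_nonneg a, abs_nonneg b, abs_nonneg (z ())]

theorem ly_LG_max (b : ℝ) : LG (fun z : Unit → ℝ => max (z ()) b) := by
  refine ⟨(continuous_apply ()).max continuous_const, 1 + |b|, fun z => ?_⟩
  have h : n1 z = |z ()| := by simp [n1]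
  rw [h]
  have h3 : |max (z ()) b| ≤ |z ()| + |b| := by
    have hb := abs_nonneg b
    have hz := abs_nonneg (z ())
    rcases max_cases (z ()) b with ⟨e, _⟩ | ⟨e, _⟩ <;> rw [e] <;> linarith
  nlinarith [abs_nonneg b, abs_nonneg (z ())]

theorem ly_pairwise (β : Fin 2 → ℝ) (Q : Matrix (Fin 2) (Fin 2) ℝ) (l : List (Step (Fin 2)))
    (hv : Valid l) : (ly β Q l).Pairwise (fun a b => a.1 ≤ b.1) := by
  have h := hv.1
  rw [← List.pairwise_map (f := Prod.fst) (R := fun a b : ℝ => a ≤ b)] at h ⊢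
  rwa [ly_fst]

theorem ly_bounds (β : Fin 2 → ℝ) (Q : Matrix (Fin 2) (Fin 2) ℝ) (l : List (Step (Fin 2)))
    (hv : Valid l) : ∀ a ∈ ly β Q l, 0 ≤ a.1 ∧ a.1 ≤ 1 := by
  intro a ha
  have h : a.1 ∈ (ly β Q l).map Prod.fst := List.mem_map_of_mem ha
  rw [ly_fst] at h
  obtain ⟨a', ha', e⟩ := List.mem_map.1 h
  rw [← e]
  exact hv.2.1 a' ha'

/-- truncation from below.  [`psi_gap` with `f = max (z ()) (-M) + M`, `g = z () + M`, `m0 = 0`, `PsiG_add_const`: `(f - g) e^f = max (-M - z ()) 0` (it is `0` unless `z () < -M`, and then `f = 0`)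
`≤ e^{-M} e^{-z ()}`; `GxG_exp` with `c = -1`, `CovG_ly`, and `Cf (be b1 b2) (mat 1 1 u) ≤ (b1 + b2)²` (`u_le`)] -/
theorem psi_trunc_y (b1 b2 u : ℝ) (h1 : 0 ≤ b1) (h2 : 0 ≤ b2) (l : List (Step (Fin 2)))
    (hv : Valid l) (hl : Qtot l = mat 1 1 u) (M : ℝ) :
    PsiG (ly (be b1 b2) 0 l) (fun z => max (z ()) (-M)) 0 ≤
      (1 / 2) * corr (be b1 b2) 0 l + Real.exp ((b1 + b2) ^ 2) * Real.exp (-M) := by
  have hf : LG (fun z : Unit → ℝ => max (z ()) (-M) + M) := (ly_LG_max (-M)).add (LG.const M)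
  have hg : LG (fun z : Unit → ℝ => z () + M) := ly_LG_id.add (LG.const M)
  have h0 : ∀ z : Unit → ℝ, 0 ≤ max (z ()) (-M) + M := fun z => by
    linarith [le_max_right (z ()) (-M)]
  have hle : ∀ z : Unit → ℝ, z () + M ≤ max (z ()) (-M) + M := fun z => by
    linarith [le_max_left (z ()) (-M)]
  have hgap := psi_gap (ly (be b1 b2) 0 l) (ly_pairwise _ _ l hv) (ly_bounds _ _ l hv) hf hg h0 hle
    0 le_rfl zero_le_one (fun a ha => (ly_bounds _ _ l hv a ha).1) 0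
  rw [zero_mul, neg_zero, Real.exp_zero, one_mul,
    PsiG_add_const _ (ly_LG_max (-M)) M, PsiG_add_const _ ly_LG_id M,
    PsiG_lin b1 b2 h1 h2 l 0 Matrix.PosSemidef.zero] at hgap
  have hEG : EG (fun y : Unit → ℝ => (max (y ()) (-M) + M - (y () + M)) *
      Real.exp (max (y ()) (-M) + M)) := by
    have h3 := (hf.eg.sub hg.eg).mul (hf.exp 1)
    simpa using h3
  have hEG' : EG (fun y : Unit → ℝ => Real.exp (-M) * Real.exp (dot (fun _ => -1) y)) := by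
    have h3 := (EG.exp_dot (fun _ : Unit => (-1 : ℝ))).const_mul (Real.exp (-M))
    refine h3.mono ?_ ?_
    · have : (fun y : Unit → ℝ => Real.exp (-M) * Real.exp (dot (fun _ => -1) y)) =
          fun y : Unit → ℝ => Real.exp (-M) * Real.exp (dot y (fun _ => -1)) := by
        funext y
        rw [A.dot_comm]
      rw [this]
      exact h3.1
    · intro y
      rw [A.dot_comm]
  have hpt : ∀ y : Unit → ℝ, (max (y ()) (-M) + M - (y () + M)) * Real.exp (max (y ()) (-M) + M) ≤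
      Real.exp (-M) * Real.exp (dot (fun _ => -1) y) := by
    intro y
    have e1 : dot (fun _ => -1) y = -(y ()) := by simp [dot]
    rw [e1, ← Real.exp_add]
    rcases le_total (-M) (y ()) with h | h
    · rw [max_eq_left h]
      have : (y () + M - (y () + M)) * Real.exp (y () + M) = 0 := by ring
      rw [this]
      exact (Real.exp_pos _).le
    · rw [max_eq_right h, neg_add_cancel, Real.exp_zero, mul_one]
      have := Real.add_one_le_exp (-M + -(y ()))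
      linarith
  have hmono := GxG_mono (ly (be b1 b2) 0 l) hEG hEG' hpt 0
  rw [GxG_const_mul, GxG_exp, CovG_ly b1 b2 h1 h2 l 0 Matrix.PosSemidef.zero, zero_add, hl] at hmono
  have e2 : dot (fun _ : Unit => (-1 : ℝ)) 0 + (1 / 2) * ∑ i : Unit, ∑ j : Unit,
      (-1 : ℝ) * (Gy b1 b2 (mat 1 1 u) - Gy b1 b2 0) i j * (-1) =
      (1 / 2) * Cf (be b1 b2) (mat 1 1 u) := by
    have h3 : (Gy b1 b2 (mat 1 1 u) - Gy b1 b2 0) () () = Cf (be b1 b2) (mat 1 1 u) := by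
      rw [Matrix.sub_apply]
      simp [Gy, Cf]
    simp only [Finset.univ_unique, Finset.sum_singleton]
    have h4 : (default : Unit) = () := rfl
    rw [h4, h3, A.dot_zero_right]
    ring
  rw [e2] at hmono
  have hC := ly_Cf_le b1 b2 u h1 h2 (u_le l u hl)
  have h5 : Real.exp ((1 / 2) * Cf (be b1 b2) (mat 1 1 u)) ≤ Real.exp ((b1 + b2) ^ 2) := by
    refine Real.exp_le_exp.2 ?_
    nlinarith [sq_nonneg (b1 + b2)]
  have h6 := mul_le_mul_of_nonneg_left h5 (Real.exp_pos (-M)).le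
  have e3 : (0 : Unit → ℝ) () = 0 := rfl
  rw [e3] at hgap
  linarith

theorem ly_Cf_ov (b1 b2 : ℝ) (h1 : 0 ≤ b1) (h2 : 0 ≤ b2) {N : ℕ} (ρ : Cfg (Fin 2) N) :
    Cf (be b1 b2) (ovM ρ ρ) ≤ (b1 + b2) ^ 2 := by
  have hb : ∀ c : Fin 2, 0 ≤ be b1 b2 c := by
    intro c
    fin_cases c
    · exact h1
    · exact h2
  have h3 : Cf (be b1 b2) (ovM ρ ρ) ≤ ∑ c, ∑ c', be b1 b2 c * be b1 b2 c' * 1 := by
    unfold Cf
    refine Finset.sum_le_sum fun c _ => Finset.sum_le_sum fun c' _ =>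
      mul_le_mul_of_nonneg_left ?_ (mul_nonneg (hb c) (hb c'))
    have h4 := abs_ovM_le ρ ρ c c'
    rw [← sq_abs]
    nlinarith [abs_nonneg (ovM ρ ρ c c')]
  refine h3.trans (le_of_eq ?_)
  simp only [be, Fin.sum_univ_two, Matrix.cons_val_zero, Matrix.cons_val_one]
  ring

/-- truncation on the system.  [`fld_gap` with `f = z ()`, `g = max (min (z ()) (2 M)) (-M)`, `k = exp (2 z () - 2 M)`: `e^f - e^g ≤ e^{z} - e^{2M} ≤ e^{2 z - 2 M}` if `z > 2M` and `≤ 0` otherwise;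
`∫ exp (2 y - 2 M) = exp (2 Cf (R) - 2 M)` (`A.integral_exp_dot`, `vy_gram`), `Cf (ovM ρ ρ) ≤ (b1 + b2)²`] -/
theorem fld_trunc_y (b1 b2 : ℝ) (h1 : 0 ≤ b1) (h2 : 0 ≤ b2) {N : ℕ} (S : RS N) (M : ℝ)
    (hM : 0 ≤ M) :
    fld S (fun z => z ()) (vy b1 b2 N) ≤ fld S (fun z => max (min (z ()) (2 * M)) (-M)) (vy b1 b2 N) +
      Real.exp (2 * (b1 + b2) ^ 2) * Real.exp (-M) := by
  have hk : EG (fun z : Unit → ℝ => Real.exp (-(2 * M)) * Real.exp (2 * z ())) :=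
    (ly_LG_id.exp 2).const_mul _
  have hk0 : ∀ z : Unit → ℝ, 0 ≤ Real.exp (-(2 * M)) * Real.exp (2 * z ()) := fun z =>
    mul_nonneg (Real.exp_pos _).le (Real.exp_pos _).le
  have hg : ∀ z : Unit → ℝ, -M ≤ max (min (z ()) (2 * M)) (-M) := fun z => le_max_right _ _
  have hpt : ∀ z : Unit → ℝ, Real.exp (z ()) - Real.exp (max (min (z ()) (2 * M)) (-M)) ≤
      Real.exp (-(2 * M)) * Real.exp (2 * z ()) := by
    intro z
    rcases le_total (z ()) (2 * M) with h | h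
    · rw [min_eq_left h]
      have h3 := Real.exp_le_exp.2 (le_max_left (z ()) (-M))
      have h4 := hk0 z
      linarith
    · rw [min_eq_right h, ← Real.exp_add]
      have h3 : Real.exp (z ()) ≤ Real.exp (-(2 * M) + 2 * z ()) := Real.exp_le_exp.2 (by linarith)
      have h4 := Real.exp_pos (max (2 * M) (-M))
      linarith
  have hB : ∀ ρ : Cfg (Fin 2) N, ∫ y, (Real.exp (-(2 * M)) *
      Real.exp (2 * (fun c => dot y (vy b1 b2 N ρ c)) ())) ∂(gam (Fin N × Fin N)) ≤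
      Real.exp (-(2 * M)) * Real.exp (2 * (b1 + b2) ^ 2) := by
    intro ρ
    rw [integral_const_mul]
    refine mul_le_mul_of_nonneg_left ?_ (Real.exp_pos _).le
    have e1 : ∀ y : Fin N × Fin N → ℝ, Real.exp (2 * dot y (vy b1 b2 N ρ ())) =
        Real.exp (dot y ((2 : ℝ) • vy b1 b2 N ρ ())) := fun y => by rw [A.dot_smul_right]
    simp only [e1]
    rw [A.integral_exp_dot, A.dot_smul_left, A.dot_smul_right, vy_gram]
    refine Real.exp_le_exp.2 ?_
    have h3 := ly_Cf_ov b1 b2 h1 h2 ρ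
    have e2 : Gy b1 b2 (ovM ρ ρ) () () = Cf (be b1 b2) (ovM ρ ρ) := rfl
    rw [e2]
    linarith
  have h := fld_gap S ly_LG_id (ly_LG_clip (2 * M) (-M)) hk hk0 M _ hg hpt (vy b1 b2 N) hB
  refine h.trans (le_of_eq ?_)
  have e3 : Real.exp M * (Real.exp (-(2 * M)) * Real.exp (2 * (b1 + b2) ^ 2)) =
      Real.exp (2 * (b1 + b2) ^ 2) * Real.exp (-M) := by
    rw [← Real.exp_add, ← Real.exp_add, ← Real.exp_add]
    congr 1
    ring
  rw [e3]

/-- **Upper bound for the field `y`.**  [Choose `M ≥ 1` with both truncation errors at most `ε/3`; `main_bdd` with `2 M`, Lipschitz constant `1`, `PY`, `KLip_Gy`; `PsiG_mono` (`min ≤`), `psi_trunc_y`, `fld_trunc_y`] -/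
theorem field_upper (b1 b2 : ℝ) (h1 : 0 ≤ b1) (h2 : 0 ≤ b2) (ε : ℝ) (hε : 0 < ε) :
    ∃ δ0 : ℝ, 0 < δ0 ∧ ∀ (F : Fam), F.IsGG → ∀ (δ : ℝ), 0 < δ → δ ≤ δ0 → ∀ (C : CS F δ),
      ∀ᶠ i in (F.U : Filter F.I),
        fld (F.S i) (fun z => z ()) (vy b1 b2 (F.Nn i)) ≤ (1 / 2) * corr (be b1 b2) 0 C.l + ε := by
  obtain ⟨A, hA⟩ : ∃ A : ℝ, A = Real.exp ((b1 + b2) ^ 2) + Real.exp (2 * (b1 + b2) ^ 2) := ⟨_, rfl⟩
  have hA0 : 0 < A := by
    rw [hA]
    positivity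
  obtain ⟨M, hM⟩ : ∃ M : ℝ, M = max 1 (Real.log (3 * A / ε)) := ⟨_, rfl⟩
  have hM1 : 1 ≤ M := by
    rw [hM]
    exact le_max_left _ _
  have hMe : A * Real.exp (-M) ≤ ε / 3 := by
    have h3 : Real.log (3 * A / ε) ≤ M := by
      rw [hM]
      exact le_max_right _ _
    have h4 : 3 * A / ε ≤ Real.exp M := (Real.log_le_iff_le_exp (by positivity)).1 h3
    rw [Real.exp_neg, ← div_eq_mul_inv, div_le_iff₀ (Real.exp_pos M)]
    rw [div_le_iff₀ hε] at h4
    linarith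
  obtain ⟨δ0, hδ0, H⟩ := main_bdd (κ := Unit) (2 * M) 1 (2 * (b1 + b2) ^ 2) (ε / 3) (by linarith)
    zero_le_one (by positivity) (by linarith)
  refine ⟨δ0, hδ0, fun F hF δ hδ hδ' C => ?_⟩
  have hb : ∀ z : Unit → ℝ, |max (min (z ()) (2 * M)) (-M)| ≤ 2 * M := by
    intro z
    rw [abs_le]
    constructor
    · linarith [le_max_right (min (z ()) (2 * M)) (-M)]
    · exact max_le (min_le_right _ _) (by linarith)
  have hl : ∀ z z' : Unit → ℝ, |max (min (z ()) (2 * M)) (-M) - max (min (z' ()) (2 * M)) (-M)| ≤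
      1 * n1 (z - z') := by
    intro z z'
    have e1 : n1 (z - z') = |z () - z' ()| := by simp [n1]
    rw [one_mul, e1]
    refine (abs_max_sub_max_le_abs _ _ _).trans ?_
    refine (abs_min_sub_min_le_max _ _ _ _).trans (max_le le_rfl ?_)
    rw [sub_self, abs_zero]
    exact abs_nonneg _
  filter_upwards [H F hF δ hδ hδ' C (PY b1 b2 h1 h2 C) (KLip_Gy b1 b2 h1 h2)
    (fun z => max (min (z ()) (2 * M)) (-M)) hb hl] with i hi
  have h3 : |fld (F.S i) (fun z => max (min (z ()) (2 * M)) (-M)) (vy b1 b2 (F.Nn i)) -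
      PsiG (ly (be b1 b2) 0 C.l) (fun z => max (min (z ()) (2 * M)) (-M)) 0| ≤ ε / 3 := hi
  have h4 := (abs_le.1 h3).2
  have h5 := fld_trunc_y b1 b2 h1 h2 (F.S i) M (by linarith)
  have h6 := psi_trunc_y b1 b2 F.u h1 h2 C.l C.valid C.tot M
  have h7 := PsiG_mono (ly (be b1 b2) 0 C.l) (fun a ha => (ly_bounds _ _ C.l C.valid a ha).1)
    (ly_LG_clip (2 * M) (-M)) (ly_LG_max (-M))
    (fun z => max_le_max (min_le_left _ _) le_rfl) 0
  have e4 : A * Real.exp (-M) = Real.exp ((b1 + b2) ^ 2) * Real.exp (-M) +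
      Real.exp (2 * (b1 + b2) ^ 2) * Real.exp (-M) := by
    rw [hA]
    ring
  linarith

end SKC.G
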