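import Pool.Agent.H.MP_08eaf3_pr.G.Defs

/-!
# Part G: combinatorics of the first replica sharing a level
-/

set_option autoImplicit false

open MeasureTheory ProbabilityTheory Filter Topology Matrix

namespace SKC.G

variable {L n : ℕ} {w : LM L n}

theorem LM.Um.res {w' : LM L (n + 1)} (h : w'.Um) : w'.res.Um :=
  ⟨fun _ => h.diag _, fun _ _ => h.symm _ _, fun _ _ _ => h.um _ _ _⟩

/-- [`Finset.min'_mem`; the set contains `i` because `w i i = L`] -/
theorem lt_anc (h : w.Um) (i : Fin n) {j : ℕ} (hj : j < L) : j < (w (anc w i j) i : ℕ) := by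
  have hne : (Finset.univ.filter (fun k : Fin n => j < (w k i : ℕ))).Nonempty :=
    ⟨i, Finset.mem_filter.2 ⟨Finset.mem_univ _, by rw [h.diag]; exact hj⟩⟩
  unfold anc
  rw [dif_pos (by convert hne)]
  have h1 := Finset.min'_mem _ hne
  convert (Finset.mem_filter.1 h1).2

/-- [`Finset.min'_le`] -/
theorem anc_le_of (i k : Fin n) {j : ℕ} (hk : j < (w k i : ℕ)) : anc w i j ≤ k := by
  have hm : k ∈ Finset.univ.filter (fun k : Fin n => j < (w k i : ℕ)) :=
    Finset.mem_filter.2 ⟨Finset.mem_univ _, hk⟩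
  have hne : (Finset.univ.filter (fun k : Fin n => j < (w k i : ℕ))).Nonempty := ⟨k, hm⟩
  unfold anc
  rw [dif_pos (by convert hne)]
  convert Finset.min'_le _ _ hm

theorem anc_le (h : w.Um) (i : Fin n) {j : ℕ} (hj : j < L) : anc w i j ≤ i :=
  anc_le_of i i (by rw [h.diag]; exact hj)

theorem an_eq (h : w.Um) (i a : Fin n) {j : ℕ} (hj : j < L) (h1 : j < (w a i : ℕ))
    (h2 : ∀ k, j < (w k i : ℕ) → a ≤ k) : anc w i j = a :=
  le_antisymm (anc_le_of i a h1) (h2 _ (lt_anc h i hj))

theorem an_trans (h : w.Um) {a b c : Fin n} {j : ℕ} (h1 : j < (w a b : ℕ))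
    (h2 : j < (w b c : ℕ)) : j < (w a c : ℕ) :=
  lt_of_lt_of_le (lt_min h1 h2) (h.um a b c)

/-- two replicas have the same first replica at level `j` iff they share level `j`.  [`←`: the sets `{k | j < w k i}` and `{k | j < w k i'}` agree by `um`, `symm`.
`→`: with `a` the common first replica, `j < w i a` and `j < w a i'`.] -/
theorem anc_eq_iff (h : w.Um) (i i' : Fin n) {j : ℕ} (hj : j < L) :
    anc w i j = anc w i' j ↔ j < (w i i' : ℕ) := by
  constructor
  · intro e
    have h1 := lt_anc h i hj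
    have h2 := lt_anc h i' hj
    rw [← e] at h2
    refine an_trans h (b := anc w i j) ?_ h2
    rw [h.symm]
    exact h1
  · intro h1
    have h1' : j < (w i' i : ℕ) := by rw [h.symm]; exact h1
    exact an_eq h i _ hj (an_trans h (lt_anc h i' hj) h1')
      (fun k hk => anc_le_of i' k (an_trans h hk h1))

/-- the first replica is its own first replica -/
theorem anc_anc (h : w.Um) (i : Fin n) {j : ℕ} (hj : j < L) : anc w (anc w i j) j = anc w i j := by
  rw [anc_eq_iff h _ _ hj]
  exact lt_anc h i hj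

/-- among the replicas sharing level `j` with `i` exactly one is its own first replica -/
theorem anc_unique (h : w.Um) (i k : Fin n) {j : ℕ} (hj : j < L) :
    (anc w k j = k ∧ j < (w k i : ℕ)) ↔ k = anc w i j := by
  constructor
  · rintro ⟨h1, h2⟩
    rw [← (anc_eq_iff h k i hj).2 h2]
    exact h1.symm
  · rintro rfl
    exact ⟨anc_anc h i hj, lt_anc h i hj⟩

theorem xp_eq {κ : Type} (h : w.Um) (y : Fin n → Pth κ L) (i i' : Fin n) {j : Fin L}
    (hj : (j : ℕ) < (w i i' : ℕ)) : xp w y i j = xp w y i' j := by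
  show y (anc w i j) j = y (anc w i' j) j
  rw [(anc_eq_iff h i i' j.2).2 hj]

/-- the fields agree up to the number of shared levels -/
theorem Wk_xp_eq {κ : Type} [Fintype κ] (l : List (Lev κ)) (h : w.Um) (y : Fin n → Pth κ L)
    (i i' : Fin n) {k : ℕ} (hk : k ≤ (w i i' : ℕ)) : Wk l (xp w y i) k = Wk l (xp w y i') k := by
  unfold Wk
  refine Finset.sum_congr rfl fun j _ => ?_
  split_ifs with hjk
  · rw [xp_eq h y i i' (lt_of_lt_of_le hjk hk)]
  · rfl

/-! ### One more replica; `i0` is an old replica sharing the most levels with the new one -/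

variable {w' : LM L (n + 1)}

theorem anc_castSucc (h : w'.Um) (i : Fin n) {j : ℕ} (hj : j < L) :
    anc w' i.castSucc j = (anc w'.res i j).castSucc := by
  refine an_eq h i.castSucc _ hj (lt_anc h.res i hj) ?_
  intro k hk
  induction k using Fin.lastCases with
  | last => exact Fin.le_last _
  | cast k => exact Fin.castSucc_le_castSucc_iff.2 (anc_le_of i k hk)

/-- [`{k | j < w' k last} = {k | j < w' k i0.castSucc}` by `um`, `symm`; `anc_castSucc`] -/
theorem anc_last_lt (h : w'.Um) (i0 : Fin n) {j : ℕ}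
    (hj : j < (w' i0.castSucc (Fin.last n) : ℕ)) :
    anc w' (Fin.last n) j = (anc w'.res i0 j).castSucc := by
  have hL : j < L := hj.trans_le (Nat.lt_succ_iff.1 (w' i0.castSucc (Fin.last n)).2)
  rw [← anc_castSucc h i0 hL, anc_eq_iff h _ _ hL, h.symm]
  exact hj

theorem anc_last_ge (h : w'.Um) (i0 : Fin n)
    (h0 : ∀ i : Fin n, w' i.castSucc (Fin.last n) ≤ w' i0.castSucc (Fin.last n)) {j : ℕ}
    (hj : (w' i0.castSucc (Fin.last n) : ℕ) ≤ j) (hL : j < L) :
    anc w' (Fin.last n) j = Fin.last n := by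
  refine an_eq h _ _ hL (by rw [h.diag]; exact hL) ?_
  intro k hk
  induction k using Fin.lastCases with
  | last => exact le_rfl
  | cast k =>
    have h1 : (w' k.castSucc (Fin.last n) : ℕ) ≤ (w' i0.castSucc (Fin.last n) : ℕ) := h0 k
    omega

theorem xp_castSucc {κ : Type} (h : w'.Um) (y : Fin n → Pth κ L) (z : Pth κ L) (i : Fin n) :
    xp w' (Fin.snoc (α := fun _ => Pth κ L) y z) i.castSucc = xp w'.res y i := by
  funext j
  unfold xp
  rw [anc_castSucc h i j.2, Fin.snoc_castSucc]

theorem xp_last {κ : Type} (h : w'.Um) (i0 : Fin n)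
    (h0 : ∀ i : Fin n, w' i.castSucc (Fin.last n) ≤ w' i0.castSucc (Fin.last n))
    (y : Fin n → Pth κ L) (z : Pth κ L) :
    xp w' (Fin.snoc (α := fun _ => Pth κ L) y z) (Fin.last n) =
      mix (w' i0.castSucc (Fin.last n)) (xp w'.res y i0) z := by
  funext j
  unfold xp mix
  split_ifs with hj
  · rw [anc_last_lt h i0 hj, Fin.snoc_castSucc]
  · rw [anc_last_ge h i0 h0 (not_lt.1 hj) j.2, Fin.snoc_last]

/-- [`Fin.sum_univ_castSucc`; for the old replicas `anc_castSucc`, `xp_castSucc`; for the new one `anc w' last j = last ↔ top ≤ j` (`anc_last_lt`, `anc_last_ge`,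
`(Fin.castSucc_lt_last _).ne`), `xp_last`] -/
theorem exT_snoc {κ : Type} [Fintype κ] (l : List (Lev κ)) (F : (κ → ℝ) → ℝ) (h : w'.Um)
    (i0 : Fin n)
    (h0 : ∀ i : Fin n, w' i.castSucc (Fin.last n) ≤ w' i0.castSucc (Fin.last n))
    (y : Fin n → Pth κ L) (z : Pth κ L) :
    exT l F w' (Fin.snoc (α := fun _ => Pth κ L) y z) = exT l F w'.res y +
      ex1 l F (w' i0.castSucc (Fin.last n)) (mix (w' i0.castSucc (Fin.last n)) (xp w'.res y i0) z) := by
  unfold exT ex1
  rw [Fin.sum_univ_castSucc]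
  congr 1
  · refine Finset.sum_congr rfl fun i _ => Finset.sum_congr rfl fun j _ => ?_
    rw [anc_castSucc h i j.2, xp_castSucc h]
    simp only [Fin.castSucc_inj]
  · refine Finset.sum_congr rfl fun j _ => ?_
    rw [xp_last h i0 h0]
    by_cases hj : (w' i0.castSucc (Fin.last n) : ℕ) ≤ (j : ℕ)
    · rw [if_pos (anc_last_ge h i0 h0 hj j.2), if_pos hj]
    · rw [if_neg hj, if_neg]
      rw [anc_last_lt h i0 (not_le.1 hj)]
      exact (Fin.castSucc_lt_last _).ne

end SKC.G
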