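import Pool.Agent.H.MP_08eaf3_pr.G.Defs

/-!
# Part G1: uniqueness for the hierarchy
-/

set_option autoImplicit false

open MeasureTheory ProbabilityTheory Filter Topology Matrix

namespace SKC.G

theorem Hier.sub {D D' : ℝ → ℕ → (ℕ → ℕ) → ℝ} (h : Hier D) (h' : Hier D') :
    Hier (fun t n a => D t n a - D' t n a) := by
  intro n a t hn
  refine ((h n a t hn).sub (h' n a t hn)).congr_deriv ?_
  rw [Finset.sum_sub_distrib]
  ring

/-- Taylor estimate.  [Put `B k n t = η * exp (2 * N0 * (t - s)) + 2 * 2^k * (t-s)^k * (n+k-1).choose k`.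
Claim: for all `k`, all `n, a` with `0 < n`, `n + k ≤ N0`, `∀ l, a l + k ≤ N0`, and all `t ∈ [s, s + 1/8]`: `|D t n a| ≤ B k n t`.
`k = 0`: `|D| ≤ 2`.  `k + 1`: `image_norm_le_of_norm_deriv_right_le_deriv_boundary` on `[s, s+1/8]` (value at `s`: `|D s n a| ≤ η`, and `(0:ℝ)^(k+1) = 0`).
The derivative of `D` at `t` is, by `Hier` and the claim for `k`, at most `n * B k n t + n * B k (n+1) t ≤ 2 * n * B k (n+1) t` in absolute value
(`B k n t ≤ B k (n+1) t`, `Nat.choose_le_choose`; the updated exponents are `≤ a l + 1`, and `1 ≤ N0 - k` for the new one: use `n + (k+1) ≤ N0`; the claim for `k` is applied with `n + 1`, and `(n+1) + k ≤ N0`),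
and this equals at most the derivative of `B (k+1) n`, because `(k+1) * (n+k).choose (k+1) = n * (n+k).choose k`
(`Nat.succ_mul_choose_eq`-type identity: `(n+k).choose (k+1) * (k+1) = (n+k).choose k * (n+k-k)`, `Nat.choose_succ_right_eq`) and `2 * n ≤ 2 * N0`.] -/
theorem hier_taylor (D : ℝ → ℕ → (ℕ → ℕ) → ℝ) (hD : Hier D) (hb : ∀ t n a, 0 < n → |D t n a| ≤ 2)
    (N0 : ℕ) (η s : ℝ) (hη : 0 ≤ η)
    (h0 : ∀ n a, 0 < n → n ≤ N0 → (∀ l, a l ≤ N0) → |D s n a| ≤ η) :
    ∀ (k n : ℕ) (a : ℕ → ℕ), 0 < n → n + k ≤ N0 → (∀ l, a l + k ≤ N0) →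
      ∀ t ∈ Set.Icc s (s + 1 / 8), |D t n a| ≤
        η * Real.exp (2 * N0 * (t - s)) + 2 * 2 ^ k * (t - s) ^ k * ((n + k - 1).choose k : ℕ) := by
  intro k
  induction k with
  | zero =>
    intro n a hn _ _ t _
    have h1 := hb t n a hn
    have h2 : 0 ≤ η * Real.exp (2 * N0 * (t - s)) := mul_nonneg hη (Real.exp_pos _).le
    simp only [pow_zero, Nat.choose_zero_right, Nat.cast_one, mul_one]
    linarith
  | succ k ih =>
    intro n a hn hnk hak
    have hB : ∀ x : ℝ, HasDerivAt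
        (fun x => η * Real.exp (2 * N0 * (x - s)) +
          2 * 2 ^ (k + 1) * (x - s) ^ (k + 1) * (((n + (k + 1) - 1).choose (k + 1) : ℕ) : ℝ))
        (η * (Real.exp (2 * N0 * (x - s)) * (2 * N0 * 1)) +
          2 * 2 ^ (k + 1) * (((k + 1 : ℕ) : ℝ) * (x - s) ^ (k + 1 - 1) * 1) *
            (((n + (k + 1) - 1).choose (k + 1) : ℕ) : ℝ)) x := by
      intro x
      have h1 : HasDerivAt (fun x : ℝ => x - s) 1 x := (hasDerivAt_id x).sub_const s
      have h2 := ((h1.const_mul (2 * (N0 : ℝ))).exp).const_mul η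
      have h3 := ((h1.pow (k + 1)).const_mul (2 * 2 ^ (k + 1) : ℝ)).mul_const
        (((n + (k + 1) - 1).choose (k + 1) : ℕ) : ℝ)
      exact h2.add h3
    have hmain := image_norm_le_of_norm_deriv_right_le_deriv_boundary (a := s) (b := s + 1 / 8)
      (f := fun t => D t n a)
      (f' := fun t => (∑ l ∈ Finset.range n, D t n (Function.update a l (a l + 1))) -
        (n : ℝ) * D t (n + 1) (Function.update a n 1))
      (fun x _ => (hD n a x hn).continuousAt.continuousWithinAt)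
      (fun x _ => (hD n a x hn).hasDerivWithinAt) ?_ hB ?_
    · intro t ht
      have h1 := hmain ht
      rwa [Real.norm_eq_abs] at h1
    · rw [Real.norm_eq_abs, sub_self, mul_zero, Real.exp_zero, zero_pow (Nat.succ_ne_zero k)]
      have h1 := h0 n a hn (by omega) (fun l => by have := hak l; omega)
      simpa using h1
    · intro x hx
      have hx' : x ∈ Set.Icc s (s + 1 / 8) := ⟨hx.1, hx.2.le⟩
      have hxs : 0 ≤ x - s := sub_nonneg.2 hx.1
      have he : 0 ≤ η * Real.exp (2 * N0 * (x - s)) := mul_nonneg hη (Real.exp_pos _).le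
      have hp : (0 : ℝ) ≤ 2 * 2 ^ k * (x - s) ^ k := by positivity
      obtain ⟨e, hedef⟩ : ∃ e, e = η * Real.exp (2 * N0 * (x - s)) := ⟨_, rfl⟩
      obtain ⟨c, hcdef⟩ : ∃ c : ℝ, c = 2 * 2 ^ k * (x - s) ^ k := ⟨_, rfl⟩
      have h1 : ∀ l ∈ Finset.range n, |D x n (Function.update a l (a l + 1))| ≤
          e + c * ((n + k).choose k : ℕ) := by
        intro l _
        have h2 := ih n (Function.update a l (a l + 1)) hn (by omega) (fun l' => by
          have h3 := hak l'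
          by_cases h4 : l' = l
          · subst h4
            rw [Function.update_self]
            omega
          · rw [Function.update_of_ne h4]
            omega) x hx'
        rw [← hedef, ← hcdef] at h2
        refine h2.trans ?_
        have h5 : (((n + k - 1).choose k : ℕ) : ℝ) ≤ ((n + k).choose k : ℕ) := by
          exact_mod_cast Nat.choose_le_choose k (Nat.sub_le (n + k) 1)
        have h6 : 0 ≤ c := hcdef ▸ hp
        have h7 := mul_le_mul_of_nonneg_left h5 h6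
        linarith
      have h2 : |D x (n + 1) (Function.update a n 1)| ≤ e + c * ((n + k).choose k : ℕ) := by
        have h2 := ih (n + 1) (Function.update a n 1) (Nat.succ_pos n) (by omega) (fun l' => by
          have h3 := hak l'
          by_cases h4 : l' = n
          · subst h4
            rw [Function.update_self]
            omega
          · rw [Function.update_of_ne h4]
            omega) x hx'
        rw [← hedef, ← hcdef] at h2
        have h8 : n + 1 + k - 1 = n + k := by omega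
        rwa [h8] at h2
      have h3 : |∑ l ∈ Finset.range n, D x n (Function.update a l (a l + 1))| ≤
          n * (e + c * ((n + k).choose k : ℕ)) := by
        refine (Finset.abs_sum_le_sum_abs _ _).trans ((Finset.sum_le_sum h1).trans ?_)
        rw [Finset.sum_const, Finset.card_range, nsmul_eq_mul]
      have h4 : |(n : ℝ) * D x (n + 1) (Function.update a n 1)| ≤
          n * (e + c * ((n + k).choose k : ℕ)) := by
        rw [abs_mul, Nat.abs_cast]
        exact mul_le_mul_of_nonneg_left h2 (Nat.cast_nonneg n)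
      have h5 : (((n + k).choose (k + 1) : ℕ) : ℝ) * ((k + 1 : ℕ) : ℝ) =
          ((n + k).choose k : ℕ) * n := by
        have h6 := Nat.choose_succ_right_eq (n + k) k
        rw [Nat.add_sub_cancel] at h6
        exact_mod_cast h6
      have h6 : n + (k + 1) - 1 = n + k := by omega
      have h7 : k + 1 - 1 = k := rfl
      rw [Real.norm_eq_abs, h6, h7]
      refine (abs_sub _ _).trans ?_
      have hnN : (n : ℝ) ≤ N0 := by exact_mod_cast (show n ≤ N0 by omega)
      have h8 : (n : ℝ) * e ≤ N0 * e := mul_le_mul_of_nonneg_right hnN (hedef ▸ he)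
      have h9 : 2 * 2 ^ (k + 1) * (((k + 1 : ℕ) : ℝ) * (x - s) ^ k * 1) *
          (((n + k).choose (k + 1) : ℕ) : ℝ) = 2 * (c * (((n + k).choose k : ℕ) * n)) := by
        rw [← h5, hcdef]
        ring
      rw [h9]
      have h10 : η * (Real.exp (2 * N0 * (x - s)) * (2 * N0 * 1)) = 2 * (N0 * e) := by
        rw [hedef]
        ring
      rw [h10]
      nlinarith [h3, h4, h8]

/-- One step.  [`hier_taylor` with `k = R`: `2 * 2^R * (1/8)^R * (n+R-1).choose R ≤ 2 * 2^R * (1/8)^R * 2^(n+R) = 2 * 2^n * (1/2)^R`; choose `R` with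
`2 * 2^K * (1/2)^R ≤ ε/2`, `N0 = K + R`, `η = (ε/2) * exp (- 2 * N0 / 8)`.] -/
theorem hier_step (K : ℕ) (ε : ℝ) (hε : 0 < ε) : ∃ (K' : ℕ) (η : ℝ), K ≤ K' ∧ 0 < η ∧ η ≤ ε ∧
    ∀ D : ℝ → ℕ → (ℕ → ℕ) → ℝ, Hier D → (∀ t n a, 0 < n → |D t n a| ≤ 2) → ∀ s : ℝ,
      (∀ n a, 0 < n → n ≤ K' → (∀ l, a l ≤ K') → |D s n a| ≤ η) →
      ∀ t ∈ Set.Icc s (s + 1 / 8), ∀ n a, 0 < n → n ≤ K → (∀ l, a l ≤ K) → |D t n a| ≤ ε := by
  obtain ⟨R, hR⟩ : ∃ R : ℕ, 2 * 2 ^ K * (1 / 2 : ℝ) ^ R ≤ ε / 2 := by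
    have h1 : 0 < ε / 2 / (2 * 2 ^ K) := by positivity
    obtain ⟨R, hR⟩ := exists_pow_lt_of_lt_one h1 (by norm_num : (1 / 2 : ℝ) < 1)
    refine ⟨R, ?_⟩
    rw [lt_div_iff₀ (by positivity)] at hR
    linarith
  have hN : (0 : ℝ) ≤ 2 * ((K + R : ℕ) : ℝ) / 8 := by positivity
  refine ⟨K + R, ε / 2 * Real.exp (-(2 * ((K + R : ℕ) : ℝ) / 8)), Nat.le_add_right _ _,
    by positivity, ?_, ?_⟩
  · have h1 : Real.exp (-(2 * ((K + R : ℕ) : ℝ) / 8)) ≤ 1 := Real.exp_le_one_iff.2 (by linarith)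
    have h2 := mul_le_mul_of_nonneg_left h1 (by positivity : 0 ≤ ε / 2)
    linarith
  · intro D hD hb s h0 t ht n a hn hnK haK
    have h1 := hier_taylor D hD hb (K + R) _ s (by positivity) h0 R n a hn (by omega)
      (fun l => by have := haK l; omega) t ht
    refine h1.trans ?_
    have hts : 0 ≤ t - s := sub_nonneg.2 ht.1
    have hts' : t - s ≤ 1 / 8 := by linarith [ht.2]
    have h2 : ε / 2 * Real.exp (-(2 * ((K + R : ℕ) : ℝ) / 8)) *
        Real.exp (2 * ((K + R : ℕ) : ℝ) * (t - s)) ≤ ε / 2 := by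
      rw [mul_assoc, ← Real.exp_add]
      have h3 : Real.exp (-(2 * ((K + R : ℕ) : ℝ) / 8) + 2 * ((K + R : ℕ) : ℝ) * (t - s)) ≤ 1 := by
        refine Real.exp_le_one_iff.2 ?_
        have h4 : (0 : ℝ) ≤ 2 * ((K + R : ℕ) : ℝ) := by positivity
        have h5 := mul_le_mul_of_nonneg_left hts' h4
        linarith
      have h4 := mul_le_mul_of_nonneg_left h3 (by positivity : 0 ≤ ε / 2)
      linarith
    have h3 : 2 * 2 ^ R * (t - s) ^ R * (((n + R - 1).choose R : ℕ) : ℝ) ≤ ε / 2 := by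
      refine le_trans ?_ hR
      have h4 : (t - s) ^ R ≤ (1 / 8 : ℝ) ^ R := pow_le_pow_left₀ hts hts' R
      have h5 : (((n + R - 1).choose R : ℕ) : ℝ) ≤ 2 ^ (K + R) := by
        have h6 : (n + R - 1).choose R ≤ 2 ^ (n + R - 1) := Nat.choose_le_two_pow _ _
        have h7 : 2 ^ (n + R - 1) ≤ 2 ^ (K + R) := Nat.pow_le_pow_right (by norm_num) (by omega)
        exact_mod_cast h6.trans h7
      calc 2 * 2 ^ R * (t - s) ^ R * (((n + R - 1).choose R : ℕ) : ℝ)
          ≤ 2 * 2 ^ R * (1 / 8 : ℝ) ^ R * 2 ^ (K + R) := by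
            refine mul_le_mul ?_ h5 (Nat.cast_nonneg _) (by positivity)
            exact mul_le_mul_of_nonneg_left h4 (by positivity)
        _ = 2 * 2 ^ K * (1 / 2 : ℝ) ^ R := by
            rw [pow_add]
            have h8 : (1 / 2 : ℝ) ^ R = 2 ^ R * (1 / 8 : ℝ) ^ R * 2 ^ R := by
              rw [← mul_pow, ← mul_pow]
              norm_num
            rw [h8]
            ring
    linarith

theorem hi_steps (k : ℕ) : ∀ (K : ℕ) (ε : ℝ), 0 < ε → ∃ (K' : ℕ) (η : ℝ), 0 < η ∧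
    ∀ D : ℝ → ℕ → (ℕ → ℕ) → ℝ, Hier D → (∀ t n a, 0 < n → |D t n a| ≤ 2) →
      (∀ n a, 0 < n → n ≤ K' → (∀ l, a l ≤ K') → |D 0 n a| ≤ η) →
      ∀ t ∈ Set.Icc (0 : ℝ) ((k : ℝ) / 8), ∀ n a, 0 < n → n ≤ K → (∀ l, a l ≤ K) →
        |D t n a| ≤ ε := by
  induction k with
  | zero =>
    intro K ε hε
    refine ⟨K, ε, hε, fun D _ _ h0 t ht n a hn hnK haK => ?_⟩
    have h1 : t = 0 := le_antisymm (by simpa using ht.2) ht.1
    rw [h1]
    exact h0 n a hn hnK haK
  | succ k ih =>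
    intro K ε hε
    obtain ⟨K1, η1, hK1, hη1, hηε, hst⟩ := hier_step K ε hε
    obtain ⟨K2, η2, hη2, h⟩ := ih K1 η1 hη1
    refine ⟨K2, η2, hη2, fun D hD hb h0 t ht n a hn hnK haK => ?_⟩
    have h1 := h D hD hb h0
    by_cases htk : t ≤ (k : ℝ) / 8
    · exact (h1 t ⟨ht.1, htk⟩ n a hn (hnK.trans hK1) (fun l => (haK l).trans hK1)).trans hηε
    · rw [not_le] at htk
      have hk0 : (0 : ℝ) ≤ (k : ℝ) / 8 := by positivity
      refine hst D hD hb ((k : ℝ) / 8) (fun n a hn hnK haK => h1 _ ⟨hk0, le_rfl⟩ n a hn hnK haK)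
        t ⟨htk.le, ?_⟩ n a hn hnK haK
      have h2 := ht.2
      push_cast at h2
      linarith

/-- [Induction on the number `k` of steps of length `1/8`: for every `k`, `K`, `ε` there are `K'`, `η` such that the bound by `η` at time `0` for `n, a ≤ K'`
gives the bound by `ε` on `[0, k/8]` for `n, a ≤ K`.] -/
theorem hier_close (T0 : ℝ) (ε : ℝ) (hε : 0 < ε) : ∃ (K : ℕ) (η : ℝ), 0 < η ∧
    ∀ D : ℝ → ℕ → (ℕ → ℕ) → ℝ, Hier D → (∀ t n a, 0 < n → |D t n a| ≤ 2) →
      (∀ n a, 0 < n → n ≤ K → (∀ l, a l ≤ K) → |D 0 n a| ≤ η) →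
      ∀ t ∈ Set.Icc 0 T0, |D t 1 (fun _ => 1)| ≤ ε := by
  obtain ⟨K, η, hη, h⟩ := hi_steps ⌈8 * T0⌉₊ 1 ε hε
  refine ⟨K, η, hη, fun D hD hb h0 t ht => ?_⟩
  refine h D hD hb h0 t ⟨ht.1, ht.2.trans ?_⟩ 1 (fun _ => 1) one_pos le_rfl (fun _ => le_rfl)
  have h1 := Nat.le_ceil (8 * T0)
  linarith

end SKC.G
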