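import Pool.Agent.H.MP_08eaf3_pr.G.Ps2

/-!
# Part G2: integration over one path
-/

set_option autoImplicit false

open MeasureTheory ProbabilityTheory Filter Topology Matrix

namespace SKC.G

instance {κ : Type} [Fintype κ] {L : ℕ} : IsProbabilityMeasure (pth κ L) := by
  unfold pth; infer_instance

instance {κ : Type} [Fintype κ] {L n : ℕ} : IsProbabilityMeasure (pths κ L n) := by
  unfold pths; infer_instance

/-- resampling one coordinate preserves a product measure.  [`Measure.pi_eq` for the image measure: the preimage of the box `∏ s_i` is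
`(Set.univ.pi (Function.update s k Set.univ)) ×ˢ s k`; `Measure.prod_prod`, `Measure.pi_pi`, `measure_univ`.] -/
theorem pi_update_mp {ι α : Type} [Fintype ι] [DecidableEq ι] [MeasurableSpace α] (μ : Measure α)
    [IsProbabilityMeasure μ] (k : ι) :
    MeasurePreserving (fun p : (ι → α) × α => Function.update p.1 k p.2)
      ((Measure.pi (fun _ : ι => μ)).prod μ) (Measure.pi (fun _ : ι => μ)) := by
  classical
  refine ⟨measurable_update', ?_⟩
  refine (Measure.pi_eq fun s hs => ?_).symm
  rw [Measure.map_apply measurable_update' (MeasurableSet.univ_pi hs)]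
  have h1 : (fun p : (ι → α) × α => Function.update p.1 k p.2) ⁻¹' (Set.univ.pi s) =
      (Set.univ.pi (Function.update s k Set.univ)) ×ˢ s k := by
    ext p
    simp only [Set.mem_preimage, Set.mem_pi, Set.mem_univ, true_implies, Set.mem_prod]
    constructor
    · intro h
      refine ⟨fun i => ?_, ?_⟩
      · by_cases hi : i = k
        · subst hi; simp
        · have := h i
          rw [Function.update_of_ne hi] at this
          rw [Function.update_of_ne hi]
          exact this
      · simpa using h k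
    · rintro ⟨h, h'⟩ i
      by_cases hi : i = k
      · subst hi; simpa using h'
      · have := h i
        rw [Function.update_of_ne hi] at this
        rw [Function.update_of_ne hi]
        exact this
  rw [h1, Measure.prod_prod, Measure.pi_pi, ← Finset.mul_prod_erase Finset.univ _ (Finset.mem_univ k),
    ← Finset.mul_prod_erase Finset.univ (fun i => μ (s i)) (Finset.mem_univ k)]
  have h2 : ∏ x ∈ Finset.univ.erase k, μ (Function.update s k Set.univ x) =
      ∏ x ∈ Finset.univ.erase k, μ (s x) :=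
    Finset.prod_congr rfl fun i hi => by rw [Function.update_of_ne (Finset.ne_of_mem_erase hi)]
  rw [h2, Function.update_self, measure_univ, one_mul, mul_comm]

variable {κ : Type} [Fintype κ] {L : ℕ}

omit [Fintype κ] in
theorem mix_L (x y : Pth κ L) : mix L x y = x := by
  funext j
  simp [mix, j.2]

omit [Fintype κ] in
theorem mix_zero (x y : Pth κ L) : mix 0 x y = y := by
  funext j
  simp [mix]

theorem mix_update (k : Fin L) (x y : Pth κ L) (z : κ → ℝ) :
    mix (k : ℕ) x (Function.update y k z) = mix ((k : ℕ) + 1) (Function.update x k z) y := by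
  funext j
  unfold mix
  by_cases h1 : (j : ℕ) < k
  · have h2 : j ≠ k := fun h => by subst h; exact lt_irrefl _ h1
    rw [if_pos h1, if_pos (by omega), Function.update_of_ne h2]
  · by_cases h2 : j = k
    · subst h2
      rw [if_neg h1, if_pos (Nat.lt_succ_self _), Function.update_self, Function.update_self]
    · have h3 : (j : ℕ) ≠ k := fun h => h2 (Fin.ext h)
      rw [if_neg h1, if_neg (by omega), Function.update_of_ne h2]

/-- `W_k` depends only on the levels below `k` -/
theorem Wk_congr (l : List (Lev κ)) {x x' : Pth κ L} {k : ℕ}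
    (h : ∀ j : Fin L, (j : ℕ) < k → x j = x' j) : Wk l x k = Wk l x' k := by
  unfold Wk
  refine Finset.sum_congr rfl fun j _ => ?_
  split_ifs with hj
  · rw [h j hj]
  · rfl

theorem Wk_succ (l : List (Lev κ)) (x : Pth κ L) (k : Fin L) :
    Wk l x ((k : ℕ) + 1) = Wk l x k + (fac l k).mulVec (x k) := by
  unfold Wk
  have h : ∀ j : Fin L, (if (j : ℕ) < (k : ℕ) + 1 then (fac l j).mulVec (x j) else 0) =
      (if (j : ℕ) < (k : ℕ) then (fac l j).mulVec (x j) else 0) +
        (if j = k then (fac l j).mulVec (x j) else 0) := by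
    intro j
    by_cases h1 : (j : ℕ) < k
    · have h2 : j ≠ k := fun h => by subst h; exact lt_irrefl _ h1
      rw [if_pos h1, if_pos (by omega), if_neg h2, add_zero]
    · by_cases h2 : j = k
      · subst h2
        rw [if_neg h1, if_pos (Nat.lt_succ_self _), if_pos rfl, zero_add]
      · have h3 : (j : ℕ) ≠ k := fun h => h2 (Fin.ext h)
        rw [if_neg h1, if_neg (by omega), if_neg h2, zero_add]
  rw [Finset.sum_congr rfl fun j _ => h j, Finset.sum_add_distrib]
  congr 1
  simp

theorem Wk_meas (l : List (Lev κ)) (k : ℕ) : Measurable (fun x : Pth κ L => Wk l x k) := by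
  unfold Wk
  refine Finset.measurable_fun_sum _ fun j _ => ?_
  split_ifs with hj
  · exact (Continuous.matrix_mulVec continuous_const (continuous_apply j)).measurable
  · exact measurable_const

theorem mix_meas (k : ℕ) (x : Pth κ L) : Measurable (fun y : Pth κ L => mix k x y) := by
  refine measurable_pi_lambda _ fun j => ?_
  unfold mix
  split_ifs with hj
  · exact measurable_const
  · exact measurable_pi_apply j

/-- one level of the recursion, `k < l.length` -/
theorem drop_eq_cons (l : List (Lev κ)) (k : ℕ) (hk : k < l.length) :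
    l.drop k = (wt l k, fac l k) :: l.drop (k + 1) := by
  rw [List.drop_eq_getElem_cons hk]
  congr 1
  unfold wt fac
  simp [hk]

/-- measurability of the exponent -/
theorem ex1_meas (l : List (Lev κ)) {F : (κ → ℝ) → ℝ} (hF : Measurable F) (k : ℕ) :
    Measurable (fun x : Pth κ L => ex1 l F k x) := by
  unfold ex1
  refine Finset.measurable_fun_sum _ fun j _ => ?_
  split_ifs with hj
  · exact (((PsiG_meas _ hF).comp (Wk_meas l _)).sub
      ((PsiG_meas _ hF).comp (Wk_meas l _))).const_mul _
  · exact measurable_const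

/-- the exponent is bounded -/
theorem ex1_bd (l : List (Lev κ)) {F : (κ → ℝ) → ℝ} (hF : Measurable F) {M : ℝ}
    (hM : ∀ z, |F z| ≤ M) (k : ℕ) : ∃ C : ℝ, ∀ x : Pth κ L, |ex1 l F k x| ≤ C := by
  refine ⟨∑ j : Fin L, |wt l j| * (M + M), fun x => ?_⟩
  unfold ex1
  refine (Finset.abs_sum_le_sum_abs _ _).trans (Finset.sum_le_sum fun j _ => ?_)
  have hM0 : 0 ≤ M := (abs_nonneg _).trans (hM 0)
  split_ifs with hj
  · rw [abs_mul]
    refine mul_le_mul_of_nonneg_left ?_ (abs_nonneg _)
    exact (abs_sub _ _).trans (add_le_add (PsiG_bd _ hF hM _) (PsiG_bd _ hF hM _))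
  · rw [abs_zero]
    positivity

/-- the exponent from level `k` and from level `k + 1` -/
theorem pa_ex1_succ (l : List (Lev κ)) (F : (κ → ℝ) → ℝ) (k : Fin L) (x : Pth κ L) :
    ex1 l F (k : ℕ) x = wt l k * (PsiG (l.drop ((k : ℕ) + 1)) F (Wk l x ((k : ℕ) + 1)) -
      PsiG (l.drop (k : ℕ)) F (Wk l x (k : ℕ))) + ex1 l F ((k : ℕ) + 1) x := by
  unfold ex1
  have h : ∀ j : Fin L, (if (k : ℕ) ≤ (j : ℕ) then
      wt l j * (PsiG (l.drop ((j : ℕ) + 1)) F (Wk l x ((j : ℕ) + 1)) -
        PsiG (l.drop (j : ℕ)) F (Wk l x (j : ℕ))) else 0) =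
      (if j = k then wt l j * (PsiG (l.drop ((j : ℕ) + 1)) F (Wk l x ((j : ℕ) + 1)) -
        PsiG (l.drop (j : ℕ)) F (Wk l x (j : ℕ))) else 0) +
      (if (k : ℕ) + 1 ≤ (j : ℕ) then
      wt l j * (PsiG (l.drop ((j : ℕ) + 1)) F (Wk l x ((j : ℕ) + 1)) -
        PsiG (l.drop (j : ℕ)) F (Wk l x (j : ℕ))) else 0) := by
    intro j
    by_cases h2 : j = k
    · subst h2
      rw [if_pos le_rfl, if_pos rfl, if_neg (by omega), add_zero]
    · have h3 : (j : ℕ) ≠ k := fun h => h2 (Fin.ext h)
      by_cases h1 : (k : ℕ) ≤ (j : ℕ)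
      · rw [if_pos h1, if_neg h2, if_pos (by omega), zero_add]
      · rw [if_neg h1, if_neg h2, if_neg (by omega), zero_add]
  rw [Finset.sum_congr rfl fun j _ => h j, Finset.sum_add_distrib]
  congr 1
  simp

/-- one step of the downward induction -/
theorem pa_step (l : List (Lev κ)) (hL : l.length = L) {F g : (κ → ℝ) → ℝ} (hF : Measurable F)
    (hg : Measurable g) {M C : ℝ} (hM : ∀ z, |F z| ≤ M) (hC : ∀ z, |g z| ≤ C) (k : Fin L)
    (ih : ∀ x : Pth κ L, ∫ y, g (Wk l (mix ((k : ℕ) + 1) x y) L) *
      Real.exp (ex1 l F ((k : ℕ) + 1) (mix ((k : ℕ) + 1) x y)) ∂(pth κ L) =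
      ChG (l.drop ((k : ℕ) + 1)) F g (Wk l x ((k : ℕ) + 1)))
    (x : Pth κ L) :
    ∫ y, g (Wk l (mix (k : ℕ) x y) L) * Real.exp (ex1 l F (k : ℕ) (mix (k : ℕ) x y)) ∂(pth κ L) =
      ChG (l.drop (k : ℕ)) F g (Wk l x (k : ℕ)) := by
  have hGm : Measurable (fun y : Pth κ L => g (Wk l y L) * Real.exp (ex1 l F (k : ℕ) y)) :=
    (hg.comp (Wk_meas l L)).mul (ex1_meas l hF k).exp
  obtain ⟨D, hD⟩ := ex1_bd (L := L) l hF hM (k : ℕ)
  have hGb : ∀ y : Pth κ L, ‖g (Wk l y L) * Real.exp (ex1 l F (k : ℕ) y)‖ ≤ C * Real.exp D := by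
    intro y
    rw [norm_mul, Real.norm_eq_abs, Real.norm_eq_abs, abs_of_pos (Real.exp_pos _)]
    exact mul_le_mul (hC _) (Real.exp_le_exp.2 ((le_abs_self _).trans (hD _))) (Real.exp_pos _).le
      ((abs_nonneg _).trans (hC 0))
  have hmp : MeasurePreserving (fun p : (Pth κ L) × (κ → ℝ) => Function.update p.1 k p.2)
      ((pth κ L).prod (gam κ)) (pth κ L) := pi_update_mp (gam κ) k
  have h1 : ∫ y, g (Wk l (mix (k : ℕ) x y) L) * Real.exp (ex1 l F (k : ℕ) (mix (k : ℕ) x y))
      ∂(pth κ L) = ∫ p : (Pth κ L) × (κ → ℝ), (fun y : Pth κ L => g (Wk l y L) *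
        Real.exp (ex1 l F (k : ℕ) y)) (mix (k : ℕ) x (Function.update p.1 k p.2))
        ∂((pth κ L).prod (gam κ)) := by
    conv_lhs => rw [← hmp.map_eq]
    rw [integral_map hmp.measurable.aemeasurable]
    exact (hGm.comp (mix_meas (k : ℕ) x)).aestronglyMeasurable
  rw [h1]
  have h2 : Measurable (fun p : (Pth κ L) × (κ → ℝ) => (fun y : Pth κ L => g (Wk l y L) *
        Real.exp (ex1 l F (k : ℕ) y)) (mix (k : ℕ) x (Function.update p.1 k p.2))) :=
    hGm.comp ((mix_meas (k : ℕ) x).comp hmp.measurable)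
  rw [integral_prod_symm _ (Integrable.of_bound h2.aestronglyMeasurable (C * Real.exp D)
    (Filter.Eventually.of_forall fun p => hGb _))]
  have hk : (k : ℕ) < l.length := by rw [hL]; exact k.2
  have h3 : ∀ z : κ → ℝ, ∫ y : Pth κ L, (fun y : Pth κ L => g (Wk l y L) *
        Real.exp (ex1 l F (k : ℕ) y)) (mix (k : ℕ) x (Function.update y k z)) ∂(pth κ L) =
      ChG (l.drop ((k : ℕ) + 1)) F g (Wk l x (k : ℕ) + (fac l k).mulVec z) *
        Real.exp (wt l k * (PsiG (l.drop ((k : ℕ) + 1)) F (Wk l x (k : ℕ) + (fac l k).mulVec z) -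
          PsiG (l.drop (k : ℕ)) F (Wk l x (k : ℕ)))) := by
    intro z
    have hA : Wk l (Function.update x k z) ((k : ℕ) + 1) =
        Wk l x (k : ℕ) + (fac l k).mulVec z := by
      rw [Wk_succ, Function.update_self]
      congr 1
      refine Wk_congr l fun j hj => Function.update_of_ne (fun h => ?_) _ _
      subst h
      exact lt_irrefl _ hj
    have hB : ∀ y : Pth κ L, Wk l (mix ((k : ℕ) + 1) (Function.update x k z) y) ((k : ℕ) + 1) =
        Wk l x (k : ℕ) + (fac l k).mulVec z := by
      intro y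
      rw [← hA]
      refine Wk_congr l fun j hj => ?_
      unfold mix
      rw [if_pos hj]
    have hB' : ∀ y : Pth κ L, Wk l (mix ((k : ℕ) + 1) (Function.update x k z) y) (k : ℕ) =
        Wk l x (k : ℕ) := by
      intro y
      refine Wk_congr l fun j hj => ?_
      unfold mix
      rw [if_pos (by omega)]
      refine Function.update_of_ne (fun h => ?_) _ _
      subst h
      exact lt_irrefl _ hj
    rw [← hA, ← ih, ← integral_mul_const]
    refine integral_congr_ae (Filter.Eventually.of_forall fun y => ?_)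
    show g (Wk l (mix (k : ℕ) x (Function.update y k z)) L) *
        Real.exp (ex1 l F (k : ℕ) (mix (k : ℕ) x (Function.update y k z))) = _
    rw [mix_update, pa_ex1_succ, hB, hB', hA, Real.exp_add]
    ring
  rw [integral_congr_ae (Filter.Eventually.of_forall h3), drop_eq_cons l (k : ℕ) hk]
  exact (Es_eq (wt l k) (fac l k) (PsiG_meas (l.drop ((k : ℕ) + 1)) hF)
    (PsiG_bd (l.drop ((k : ℕ) + 1)) hF hM) (ChG (l.drop ((k : ℕ) + 1)) F g)
    (Wk l x (k : ℕ))).symm

/-- **Integration over one path above level `k`.**  [Downward induction on `k` from `L = l.length` (`mix_L`, the exponent is `0`, `pth` is a probability measure, `l.drop L = []`).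
`k < L`: by `pi_update_mp` (for `pth κ L`, coordinate `k`) and Fubini `∫ y, H (mix k x y) = ∫ z, ∫ y, H (mix (k+1) (update x k z) y) ∂pth ∂gam` (`mix_update`; bounded measurable integrand,
`integral_prod`, `integral_map`, exchange).  In `x' := mix (k+1) (update x k z) y` the levels `≤ k` are those of `update x k z`, so `ex1 l F k x' = wt l k * (PsiG (l.drop (k+1)) F (Wk l x (k) + fac l k z) - PsiG (l.drop k) F (Wk l x k)) + ex1 l F (k+1) x'`.
The induction hypothesis for `k+1` and `update x k z` gives `∫ z, ChG (l.drop (k+1)) F g (Wk l x k + fac l k z) * exp (wt l k * (...)) ∂gam`, which is `ChG (l.drop k) F g (Wk l x k)` by `drop_eq_cons` and `Es_eq`.] -/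
theorem path_int (l : List (Lev κ)) (hL : l.length = L) {F g : (κ → ℝ) → ℝ} (hF : Measurable F)
    (hg : Measurable g) {M C : ℝ} (hM : ∀ z, |F z| ≤ M) (hC : ∀ z, |g z| ≤ C) (k : ℕ) (hk : k ≤ L)
    (x : Pth κ L) :
    ∫ y, g (Wk l (mix k x y) L) * Real.exp (ex1 l F k (mix k x y)) ∂(pth κ L) =
      ChG (l.drop k) F g (Wk l x k) := by
  obtain ⟨d, hd⟩ : ∃ d, k + d = L := ⟨L - k, by omega⟩
  clear hk
  induction d generalizing k x with
  | zero =>
    have hkL : k = L := by omega
    subst hkL
    have h0 : ∀ y : Pth κ k, ex1 l F k y = 0 := by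
      intro y
      unfold ex1
      refine Finset.sum_eq_zero fun j _ => ?_
      rw [if_neg (by have := j.2; omega)]
    have h1 : l.drop k = [] := List.drop_eq_nil_of_le hL.le
    simp only [mix_L, h0, Real.exp_zero, mul_one, h1]
    simp [ChG]
  | succ d ih =>
    have hkL : k < L := by omega
    exact pa_step l hL hF hg hM hC ⟨k, hkL⟩
      (fun x => ih (k + 1) x (by omega)) x

end SKC.G
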