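import Pool.Agent.H.MP_08eaf3_pr.G.An
import Pool.Agent.H.MP_08eaf3_pr.G.Pa

/-!
# Part G3: the tree field at `t = 0` is a Gaussian vector with explicit features
-/

set_option autoImplicit false

open MeasureTheory ProbabilityTheory Filter Topology Matrix

namespace SKC.G

variable {κ : Type} [Fintype κ] [DecidableEq κ] {L n : ℕ}

theorem tf_curry {ι ι' X : Type} [Fintype ι] [Fintype ι'] [MeasurableSpace X] (μ : Measure X)
    [IsProbabilityMeasure μ] :
    MeasurePreserving (Function.curry : (ι × ι' → X) → ι → ι' → X)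
      (Measure.pi (fun _ : ι × ι' => μ)) (Measure.pi (fun _ : ι => Measure.pi (fun _ : ι' => μ))) := by
  have h := Measure.infinitePi_map_curry (ι := ι) (κ := ι') (fun _ _ => μ)
  simp only [Measure.infinitePi_eq_pi] at h
  refine ⟨?_, ?_⟩
  · have := (MeasurableEquiv.curry ι ι' X).measurable
    rwa [MeasurableEquiv.coe_curry] at this
  · rw [← h, MeasurableEquiv.coe_curry]

omit [DecidableEq κ] in
theorem tf_PsiG_zero (l : List (Lev κ)) : PsiG l (fun _ : κ → ℝ => (0 : ℝ)) = fun _ => 0 := by
  induction l with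
  | nil => rfl
  | cons s l ih =>
    show Tm s.1 s.2 (PsiG l (fun _ => 0)) = fun _ => 0
    rw [ih]
    funext z
    unfold Tm
    split_ifs with h
    · simp
    · simp

omit [DecidableEq κ] in
theorem tf_CovG_take (l : List (Lev κ)) (k : ℕ) (hk : k ≤ l.length) :
    CovG (l.take k) = ∑ j ∈ Finset.range k, fac l j * (fac l j)ᵀ := by
  induction k with
  | zero => simp [CovG]
  | succ k ih =>
    have hk' : k < l.length := hk
    rw [Finset.sum_range_succ, ← ih hk'.le]
    unfold CovG
    rw [← List.take_concat_get' l k hk', List.map_append, List.sum_append]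
    congr 1
    have : fac l k = (l[k]).2 := by
      unfold fac
      simp [hk']
    rw [this]
    simp

/-- curry.  [`pths κ L n`, `pth κ L`, `gam` are iterated `Measure.pi`; `Measure.infinitePi_eq_pi`, `Measure.infinitePi_map_curry` (twice), or directly.] -/
theorem pths_curry :
    MeasurePreserving (fun (x : Fin n × (Fin L × κ) → ℝ) (i : Fin n) (j : Fin L) (d : κ) => x (i, (j, d)))
      (gam (Fin n × (Fin L × κ))) (pths κ L n) := by
  have h1 := tf_curry (ι := Fin n) (ι' := Fin L × κ) (gaussianReal 0 1)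
  have h2 := tf_curry (ι := Fin L) (ι' := κ) (gaussianReal 0 1)
  have h3 := measurePreserving_pi (fun _ : Fin n => Measure.pi (fun _ : Fin L × κ => gaussianReal 0 1))
    (fun _ : Fin n => Measure.pi (fun _ : Fin L => Measure.pi (fun _ : κ => gaussianReal 0 1)))
    (fun _ => h2)
  exact h3.comp h1

/-- features of the tree field -/
noncomputable def vT (l : List (Lev κ)) (w : LM L n) (a : Fin n × κ) : Fin n × (Fin L × κ) → ℝ :=
  fun q => if anc w a.1 q.2.1 = q.1 then fac l q.2.1 a.2 q.2.2 else 0

theorem vT_dot (l : List (Lev κ)) (w : LM L n) (x : Fin n × (Fin L × κ) → ℝ) (i : Fin n) (c : κ) :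
    Wk l (xp w (fun i j d => x (i, (j, d))) i) L c = dot x (vT l w (i, c)) := by
  have h1 : Wk l (xp w (fun i j d => x (i, (j, d))) i) L c =
      ∑ j : Fin L, ∑ d : κ, fac l j c d * x (anc w i j, (j, d)) := by
    unfold Wk
    rw [Finset.sum_apply]
    refine Finset.sum_congr rfl fun j _ => ?_
    rw [if_pos j.2]
    rfl
  rw [h1]
  symm
  unfold dot vT
  rw [Fintype.sum_prod_type]
  dsimp only
  rw [Finset.sum_comm, Fintype.sum_prod_type]
  refine Finset.sum_congr rfl fun j _ => Finset.sum_congr rfl fun d _ => ?_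
  dsimp only
  rw [Finset.sum_eq_single (anc w i j)]
  · rw [if_pos rfl, mul_comm]
  · intro b _ hb
    rw [if_neg (Ne.symm hb), mul_zero]
  · intro h
    exact absurd (Finset.mem_univ _) h

/-- [`pths_curry`, `vT_dot`] -/
theorem tree_feat (l : List (Lev κ)) (w : LM L n) (Θ : (Fin n → κ → ℝ) → ℝ) (hΘ : Measurable Θ) :
    ∫ y, Θ (fun i => Wk l (xp w y i) L) ∂(pths κ L n) =
      ∫ x, Θ (fun i c => dot x (vT l w (i, c))) ∂(gam (Fin n × (Fin L × κ))) := by
  have hm : Measurable (fun y : Fin n → Pth κ L => Θ (fun i => Wk l (xp w y i) L)) := by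
    refine hΘ.comp (measurable_pi_lambda _ fun i => (Wk_meas l L).comp ?_)
    refine measurable_pi_lambda _ fun j => ?_
    exact (measurable_pi_apply j).comp (measurable_pi_apply (anc w i j))
  rw [← (pths_curry (κ := κ) (L := L) (n := n)).map_eq,
    integral_map (pths_curry (κ := κ) (L := L) (n := n)).measurable.aemeasurable
      hm.aestronglyMeasurable]
  refine integral_congr_ae (Eventually.of_forall fun x => ?_)
  dsimp only
  congr 1
  funext i c
  exact vT_dot l w x i c

/-- covariance of the tree field.  [`dot (vT (i,c)) (vT (i',c')) = ∑_j (if anc w i j = anc w i' j then (fac l j * (fac l j)ᵀ) c c' else 0)`, `anc_eq_iff`, and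
`CovG (l.take k) = ∑_{j<k} fac l j * (fac l j)ᵀ` for `k ≤ L = l.length`.] -/
theorem vT_gram (l : List (Lev κ)) (hL : l.length = L) {w : LM L n} (h : w.Um) (i i' : Fin n)
    (c c' : κ) :
    dot (vT l w (i, c)) (vT l w (i', c')) = CovG (l.take (w i i')) c c' := by
  have hk : (w i i' : ℕ) ≤ L := Nat.lt_succ_iff.1 (w i i').2
  rw [tf_CovG_take l _ (by rw [hL]; exact hk)]
  unfold dot vT
  rw [Fintype.sum_prod_type]
  dsimp only
  rw [Finset.sum_comm, Fintype.sum_prod_type]
  dsimp only
  rw [Matrix.sum_apply]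
  have h1 : ∀ j : Fin L, (∑ d : κ, ∑ a : Fin n,
      (if anc w i j = a then fac l j c d else 0) * (if anc w i' j = a then fac l j c' d else 0)) =
      if (j : ℕ) < (w i i' : ℕ) then (fac l j * (fac l j)ᵀ) c c' else 0 := by
    intro j
    have h2 : ∀ d : κ, (∑ a : Fin n,
        (if anc w i j = a then fac l j c d else 0) * (if anc w i' j = a then fac l j c' d else 0)) =
        if (j : ℕ) < (w i i' : ℕ) then fac l j c d * fac l j c' d else 0 := by
      intro d
      rw [Finset.sum_eq_single (anc w i j)]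
      · rw [if_pos rfl]
        by_cases hj : (j : ℕ) < (w i i' : ℕ)
        · rw [if_pos hj, if_pos ((anc_eq_iff h i i' j.2).2 hj).symm]
        · rw [if_neg hj, if_neg (fun he => hj ((anc_eq_iff h i i' j.2).1 he.symm)), mul_zero]
      · intro b _ hb
        rw [if_neg (Ne.symm hb), zero_mul]
      · intro hn
        exact absurd (Finset.mem_univ _) hn
    rw [Finset.sum_congr rfl fun d _ => h2 d]
    split_ifs with hj
    · rfl
    · simp
  rw [Finset.sum_congr rfl fun j _ => h1 j,
    Fin.sum_univ_eq_sum_range (fun j => if j < (w i i' : ℕ) then (fac l j * (fac l j)ᵀ) c c' else 0) L,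
    ← Finset.sum_filter]
  refine Finset.sum_congr ?_ fun _ _ => rfl
  ext j
  simp only [Finset.mem_filter, Finset.mem_range]
  constructor
  · exact fun hj => hj.2
  · exact fun hj => ⟨lt_of_lt_of_le hj hk, hj⟩

/-- at tilt `0` the density is `1`.  [`PsiG_zero`-type: all level functions are constant `0`] -/
theorem exT_zero (l : List (Lev κ)) (w : LM L n) (Y : (κ → ℝ) → ℝ) (y : Fin n → Pth κ L) :
    exT l (fun z => 0 * Y z) w y = 0 := by
  classical
  have h0 : (fun z => 0 * Y z) = fun _ : κ → ℝ => (0 : ℝ) := by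
    funext z
    exact zero_mul _
  unfold exT
  rw [h0]
  refine Finset.sum_eq_zero fun i _ => Finset.sum_eq_zero fun j _ => ?_
  rw [tf_PsiG_zero, tf_PsiG_zero]
  split_ifs
  · simp
  · rfl

end SKC.G
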