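import Pool.Agent.H.MP_08eaf3_pr.G.Ga
import Pool.Agent.H.MP_08eaf3_pr.G.Tf
import Pool.Agent.H.MP_08eaf3_pr.Sys.Basic

/-!
# Part G3: comparison at `t = 0` for one system
-/

set_option autoImplicit false

open MeasureTheory ProbabilityTheory Filter Topology Matrix

namespace SKC.G

theorem in1_pow (x y : ℝ) (a : ℕ) (hx : |x| ≤ 1) (hy : |y| ≤ 1) :
    |x ^ a - y ^ a| ≤ a * |x - y| := by
  induction a with
  | zero => simp
  | succ a ih =>
    have h1 : x ^ (a + 1) - y ^ (a + 1) = (x ^ a - y ^ a) * x + y ^ a * (x - y) := by ring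
    rw [h1]
    refine (abs_add_le _ _).trans ?_
    rw [abs_mul, abs_mul]
    have h2 : |x ^ a - y ^ a| * |x| ≤ (a * |x - y|) * 1 :=
      mul_le_mul ih hx (abs_nonneg _) (by positivity)
    have h3 : |y ^ a| * |x - y| ≤ 1 * |x - y| := by
      refine mul_le_mul_of_nonneg_right ?_ (abs_nonneg _)
      rw [abs_pow]
      exact pow_le_one₀ (abs_nonneg _) hy
    push_cast
    linarith

theorem in1_prod {n : ℕ} (A : Fin n → ℝ) (a : Fin n → ℕ) (hA : ∀ i, |A i| ≤ 1) :
    |∏ i, A i ^ a i| ≤ 1 := by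
  rw [Finset.abs_prod]
  refine Finset.prod_le_one (fun i _ => abs_nonneg _) fun i _ => ?_
  rw [abs_pow]
  exact pow_le_one₀ (abs_nonneg _) (hA i)

/-- [induction on the number of factors: `|A B - A' B'| ≤ |A - A'| + |B - B'|` for numbers of absolute value at most `1`] -/
theorem prod_lip {n : ℕ} (A B : Fin n → ℝ) (a : Fin n → ℕ) (hA : ∀ i, |A i| ≤ 1)
    (hB : ∀ i, |B i| ≤ 1) : |∏ i, A i ^ a i - ∏ i, B i ^ a i| ≤ ∑ i, (a i : ℝ) * |A i - B i| := by
  induction n with
  | zero => simp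
  | succ n ih =>
    rw [Fin.prod_univ_succ, Fin.prod_univ_succ, Fin.sum_univ_succ]
    have h1 := ih (fun i => A i.succ) (fun i => B i.succ) (fun i => a i.succ) (fun i => hA _)
      (fun i => hB _)
    have h2 := in1_pow (A 0) (B 0) (a 0) (hA 0) (hB 0)
    have h3 := in1_prod (fun i : Fin n => A i.succ) (fun i => a i.succ) (fun i => hA _)
    have h4 : |B 0 ^ a 0| ≤ 1 := by
      rw [abs_pow]
      exact pow_le_one₀ (abs_nonneg _) (hB 0)
    have h5 : A 0 ^ a 0 * ∏ i : Fin n, A i.succ ^ a i.succ -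
        B 0 ^ a 0 * ∏ i : Fin n, B i.succ ^ a i.succ =
        (A 0 ^ a 0 - B 0 ^ a 0) * (∏ i : Fin n, A i.succ ^ a i.succ) +
        B 0 ^ a 0 * (∏ i : Fin n, A i.succ ^ a i.succ - ∏ i : Fin n, B i.succ ^ a i.succ) := by ring
    rw [h5]
    refine (abs_add_le _ _).trans ?_
    rw [abs_mul, abs_mul]
    have h6 := mul_le_mul h2 h3 (abs_nonneg _) (by positivity)
    have h7 := mul_le_mul h4 h1 (abs_nonneg _) zero_le_one
    linarith

variable {κ : Type} [Fintype κ] [DecidableEq κ] {L n : ℕ}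

omit [DecidableEq κ] in
theorem in1_cont (Y : (κ → ℝ) → ℝ) (CY : ℝ) (hY : ∀ z z', |Y z - Y z'| ≤ CY * n1 (z - z')) :
    Continuous Y := by
  rw [continuous_iff_continuousAt]
  intro z0
  have h1 : Continuous (fun z : κ → ℝ => CY * n1 (z - z0)) := by
    unfold n1
    fun_prop
  have h2 : Tendsto (fun z : κ → ℝ => CY * n1 (z - z0)) (𝓝 z0) (𝓝 0) := by
    have h3 := h1.tendsto z0
    have h4 : CY * n1 (z0 - z0) = 0 := by
      unfold n1
      simp
    rwa [h4] at h3
  have h5 : Tendsto (fun z => Y z - Y z0) (𝓝 z0) (𝓝 0) :=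
    squeeze_zero_norm (fun z => by rw [Real.norm_eq_abs]; exact hY z z0) h2
  have h6 := h5.add_const (Y z0)
  simp only [sub_add_cancel, zero_add] at h6
  exact h6

/-- one configuration.  [`gauss_cmp` with index type `Fin n × κ`, features `fun p => v p.1 p.2` and `vT lG w`, `Θ x = ∏ i, Y (fun c => x (i, c)) ^ a i`, Lipschitz constant `CY * K` by
`prod_lip` (`a i ≤ K`); `vT_gram`, `tree_feat` (measurability: `Y` is Lipschitz, hence continuous).] -/
theorem in_one (lG : List (Lev κ)) (hL : lG.length = L) {w : LM L n} (hw : w.Um) {ι : Type}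
    [Fintype ι] (v : Fin n → κ → ι → ℝ) (δ' : ℝ) (hδ' : 0 ≤ δ')
    (hv : ∀ i j c c', |dot (v i c) (v j c') - CovG (lG.take (w i j)) c c'| ≤ δ')
    (Y : (κ → ℝ) → ℝ) (CY : ℝ) (hCY : 0 ≤ CY) (hY1 : ∀ z, |Y z| ≤ 1)
    (hY : ∀ z z', |Y z - Y z'| ≤ CY * n1 (z - z')) (a : ℕ → ℕ) (K : ℕ) (ha : ∀ l, a l ≤ K) :
    |∫ y, ∏ i : Fin n, Y (fun c => dot y (v i c)) ^ a i ∂(gam ι) -
      ∫ y, ∏ i : Fin n, Y (Wk lG (xp w y i) L) ^ a i ∂(pths κ L n)| ≤
      2 * (CY * K) * (n * Fintype.card κ) * Real.sqrt ((n * Fintype.card κ + 1) * δ') := by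
  have hYc := in1_cont Y CY hY
  have hm : Measurable (fun z : Fin n → κ → ℝ => ∏ i : Fin n, Y (z i) ^ a i) := by
    refine Continuous.measurable ?_
    exact continuous_finsetProd _ fun i _ => (hYc.comp (continuous_apply i)).pow _
  rw [tree_feat lG w (fun z : Fin n → κ → ℝ => ∏ i : Fin n, Y (z i) ^ a i) hm]
  have h1 := gauss_cmp (α := Fin n × κ) (fun p => v p.1 p.2) (vT lG w) δ' hδ' (by
    rintro ⟨i, c⟩ ⟨j, c'⟩
    rw [vT_gram lG hL hw]
    exact hv i j c c') (fun x => ∏ i : Fin n, Y (fun c => x (i, c)) ^ a i) (CY * K)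
    (by positivity) (by
    intro x y
    refine (prod_lip (fun i => Y (fun c => x (i, c))) (fun i => Y (fun c => y (i, c)))
      (fun i => a i) (fun i => hY1 _) (fun i => hY1 _)).trans ?_
    rw [Fintype.sum_prod_type, Finset.mul_sum]
    refine Finset.sum_le_sum fun i _ => ?_
    have h2 := hY (fun c => x (i, c)) (fun c => y (i, c))
    have h3 : n1 ((fun c => x (i, c)) - fun c => y (i, c)) = ∑ c, |x (i, c) - y (i, c)| := rfl
    rw [h3] at h2
    have h4 : ((a i : ℕ) : ℝ) ≤ K := by exact_mod_cast ha i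
    calc ((a i : ℕ) : ℝ) * |Y (fun c => x (i, c)) - Y (fun c => y (i, c))|
        ≤ K * (CY * ∑ c, |x (i, c) - y (i, c)|) :=
          mul_le_mul h4 h2 (abs_nonneg _) (by positivity)
      _ = CY * K * ∑ c, |x (i, c) - y (i, c)| := by ring)
  rw [Fintype.card_prod, Fintype.card_fin] at h1
  push_cast at h1
  exact h1

/-- **Comparison at `t = 0` for one system.**  `lv` = level matrix as a function of the overlap array; `hbad`: the probability that some covariance is
far from the one of the tree is small; `hlaw`: the law of the level matrix is close to `p`.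
[With `Φ r = ∫ ∏ Y(field)^a`, `Ψ w = ∫ ∏ Y(tree)^a`, `|Φ|, |Ψ| ≤ 1`: `S.av Φ = ∑_w S.av (1{lv = w} Φ)`.  For `w` with `p w ≠ 0` (`w.Um`, `hUm`):
`|S.av (1{lv = w} Φ) - p w * Ψ w| ≤ S.av (1{lv = w} |Φ - Ψ w|) + |S.av 1{lv = w} - p w|` and `|Φ - Ψ w| ≤ (bound of in_one) + 2 * 1{bad}`; for the other `w` the term is at most `θ`.  Sum over `w`.] -/
theorem in_det {N : ℕ} (S : RS N) (lG : List (Lev κ)) (hL : lG.length = L)
    (p : LM L n → ℝ) (hp : ∀ w, p w ≠ 0 → w.Um)
    (lv : (Fin n → Cfg (Fin 2) N) → LM L n) (Gm : Matrix (Fin 2) (Fin 2) ℝ → Matrix κ κ ℝ)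
    {ι : Type} [Fintype ι] (v : Cfg (Fin 2) N → κ → ι → ℝ)
    (hv : ∀ ρ ρ' c c', dot (v ρ c) (v ρ' c') = Gm (ovM ρ ρ') c c')
    (δ' θ : ℝ) (hδ' : 0 ≤ δ') (hθ : 0 ≤ θ)
    (hbad : S.av (fun r => if ∃ i j c c', δ' < |Gm (arr r i j) c c' -
      CovG (lG.take (lv r i j)) c c'| then (1 : ℝ) else 0) ≤ θ)
    (hlaw : ∀ w, |S.av (fun r => if lv r = w then (1 : ℝ) else 0) - p w| ≤ θ)
    (Y : (κ → ℝ) → ℝ) (CY : ℝ) (hCY : 0 ≤ CY) (hY1 : ∀ z, |Y z| ≤ 1)
    (hY : ∀ z z', |Y z - Y z'| ≤ CY * n1 (z - z')) (a : ℕ → ℕ) (K : ℕ) (ha : ∀ l, a l ≤ K) :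
    |S.av (fun r => ∫ y, ∏ i : Fin n, Y (fun c => dot y (v (r i) c)) ^ a i ∂(gam ι)) -
      ∑ w : LM L n, p w * ∫ y, ∏ i : Fin n, Y (Wk lG (xp w y i) L) ^ a i ∂(pths κ L n)| ≤
      2 * θ + Fintype.card (LM L n) * θ +
        2 * (CY * K) * (n * Fintype.card κ) * Real.sqrt ((n * Fintype.card κ + 1) * δ') := by
  obtain ⟨bd, hbd⟩ : ∃ bd : ℝ, bd =
      2 * (CY * K) * (n * Fintype.card κ) * Real.sqrt ((n * Fintype.card κ + 1) * δ') := ⟨_, rfl⟩
  have hbd0 : 0 ≤ bd := by
    rw [hbd]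
    positivity
  obtain ⟨Φ, hΦ⟩ : ∃ Φ : (Fin n → Cfg (Fin 2) N) → ℝ, Φ = fun r =>
      ∫ y, ∏ i : Fin n, Y (fun c => dot y (v (r i) c)) ^ a i ∂(gam ι) := ⟨_, rfl⟩
  obtain ⟨Ψ, hΨ⟩ : ∃ Ψ : LM L n → ℝ, Ψ = fun w =>
      ∫ y, ∏ i : Fin n, Y (Wk lG (xp w y i) L) ^ a i ∂(pths κ L n) := ⟨_, rfl⟩
  have hΦ1 : ∀ r, |Φ r| ≤ 1 := by
    intro r
    rw [hΦ, ← Real.norm_eq_abs]
    refine (norm_integral_le_of_norm_le_const (C := 1) (ae_of_all _ fun y => ?_)).trans ?_
    · rw [Real.norm_eq_abs]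
      exact in1_prod _ _ fun i => hY1 _
    · simp
  have hΨ1 : ∀ w, |Ψ w| ≤ 1 := by
    intro w
    rw [hΨ, ← Real.norm_eq_abs]
    refine (norm_integral_le_of_norm_le_const (C := 1) (ae_of_all _ fun y => ?_)).trans ?_
    · rw [Real.norm_eq_abs]
      exact in1_prod _ _ fun i => hY1 _
    · simp
  obtain ⟨bad, hbad'⟩ : ∃ bad : (Fin n → Cfg (Fin 2) N) → ℝ, bad = fun r =>
      if ∃ i j c c', δ' < |Gm (arr r i j) c c' - CovG (lG.take (lv r i j)) c c'| then (1 : ℝ)
        else 0 := ⟨_, rfl⟩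
  have hbad0 : ∀ r, 0 ≤ bad r := by
    intro r
    rw [hbad']
    simp only
    split_ifs <;> norm_num
  rw [← hbad'] at hbad
  -- the pointwise comparison
  have hpt : ∀ w : LM L n, w.Um → ∀ r, lv r = w → |Φ r - Ψ w| ≤ bd + 2 * bad r := by
    intro w hw r hr
    by_cases hb : ∃ i j c c', δ' < |Gm (arr r i j) c c' - CovG (lG.take (lv r i j)) c c'|
    · have h1 : bad r = 1 := by
        rw [hbad']
        exact if_pos hb
      rw [h1]
      refine (abs_sub _ _).trans ?_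
      have := hΦ1 r
      have := hΨ1 w
      linarith
    · push Not at hb
      have h1 := in_one lG hL hw (fun i c => v (r i) c) δ' hδ' (by
        intro i j c c'
        have h2 := hb i j c c'
        rw [hr] at h2
        rw [hv]
        exact h2) Y CY hCY hY1 hY a K ha
      have h2 := hbad0 r
      rw [← hbd] at h1
      have h3 : |Φ r - Ψ w| ≤ bd := by
        rw [hΦ, hΨ]
        exact h1
      linarith
  -- one level matrix
  have hone : ∀ w : LM L n, |S.av (fun r => (if lv r = w then (1 : ℝ) else 0) * Φ r) - p w * Ψ w| ≤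
      S.av (fun r => (if lv r = w then (1 : ℝ) else 0) * (bd + 2 * bad r)) + θ := by
    intro w
    have hS0 : 0 ≤ S.av (fun r => (if lv r = w then (1 : ℝ) else 0) * (bd + 2 * bad r)) := by
      refine S.av_nonneg _ fun r => mul_nonneg ?_ ?_
      · split_ifs <;> norm_num
      · have := hbad0 r
        linarith
    by_cases hw : p w = 0
    · rw [hw, zero_mul, sub_zero]
      have h1 : |S.av (fun r => (if lv r = w then (1 : ℝ) else 0) * Φ r)| ≤
          S.av (fun r => if lv r = w then (1 : ℝ) else 0) := by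
        have h2 := S.abs_av_sub_le (fun r => (if lv r = w then (1 : ℝ) else 0) * Φ r) (fun _ => 0)
        rw [S.av_const, sub_zero] at h2
        refine h2.trans (S.av_mono _ _ fun r => ?_)
        rw [sub_zero, abs_mul]
        split_ifs
        · rw [abs_one, one_mul]
          exact hΦ1 r
        · simp
      have h3 := hlaw w
      rw [hw, sub_zero] at h3
      have h4 := le_abs_self (S.av (fun r => if lv r = w then (1 : ℝ) else 0))
      linarith
    · have hU := hp w hw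
      have e1 : S.av (fun r => (if lv r = w then (1 : ℝ) else 0) * Φ r) - p w * Ψ w =
          (S.av (fun r => (if lv r = w then (1 : ℝ) else 0) * Φ r) -
            S.av (fun r => Ψ w * (if lv r = w then (1 : ℝ) else 0))) +
          Ψ w * (S.av (fun r => if lv r = w then (1 : ℝ) else 0) - p w) := by
        rw [S.av_const_mul]
        ring
      rw [e1]
      refine (abs_add_le _ _).trans (add_le_add ?_ ?_)
      · refine (S.abs_av_sub_le _ _).trans (S.av_mono _ _ fun r => ?_)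
        split_ifs with hr
        · rw [one_mul, mul_one, one_mul]
          exact hpt w hU r hr
        · simp
      · rw [abs_mul]
        have h1 := mul_le_mul (hΨ1 w) (hlaw w) (abs_nonneg _) zero_le_one
        rw [one_mul] at h1
        exact h1
  -- sum over the level matrices
  have hsumΦ : S.av Φ = ∑ w : LM L n, S.av (fun r => (if lv r = w then (1 : ℝ) else 0) * Φ r) := by
    rw [← S.av_sum]
    congr 1
    funext r
    rw [← Finset.sum_mul, Finset.sum_ite_eq Finset.univ (lv r) (fun _ => (1 : ℝ)),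
      if_pos (Finset.mem_univ _), one_mul]
  have hsumB : ∑ w : LM L n, S.av (fun r => (if lv r = w then (1 : ℝ) else 0) * (bd + 2 * bad r)) =
      bd + 2 * S.av bad := by
    rw [← S.av_sum]
    have h1 : (fun r => ∑ w : LM L n, (if lv r = w then (1 : ℝ) else 0) * (bd + 2 * bad r)) =
        fun r => bd + 2 * bad r := by
      funext r
      rw [← Finset.sum_mul, Finset.sum_ite_eq Finset.univ (lv r) (fun _ => (1 : ℝ)),
        if_pos (Finset.mem_univ _), one_mul]
    rw [h1, S.av_add, S.av_const, S.av_const_mul]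
  have hfin : |S.av Φ - ∑ w : LM L n, p w * Ψ w| ≤ 2 * θ + Fintype.card (LM L n) * θ + bd := by
    rw [hsumΦ, ← Finset.sum_sub_distrib]
    refine (Finset.abs_sum_le_sum_abs _ _).trans ?_
    refine (Finset.sum_le_sum fun w _ => hone w).trans ?_
    rw [Finset.sum_add_distrib, hsumB, Finset.sum_const, Finset.card_univ, nsmul_eq_mul]
    linarith
  rw [hΦ, hΨ, hbd] at hfin
  exact hfin

end SKC.G
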