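import Pool.Agent.H.MP_08eaf3_pr.G.An

/-!
# Part G2: the combinatorial identity
-/

set_option autoImplicit false

open MeasureTheory ProbabilityTheory Filter Topology Matrix

namespace SKC.G

variable {L n : ℕ} {m : ℕ → ℝ}

/-- [induction on `n`, `T.one`, `T.cons`, exchange of the sums; start with `n = 1`] -/
theorem TLaw.sum_one (T : TLaw L m) (n : ℕ) (hn : 0 < n) : ∑ w : LM L n, T.p n w = 1 := by
  induction n with
  | zero => exact absurd hn (lt_irrefl 0)
  | succ n ih =>
    rcases Nat.eq_zero_or_pos n with h0 | h0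
    · subst h0
      exact T.one
    · rw [← ih h0, ← Finset.sum_congr rfl fun w _ => T.cons n w h0, Finset.sum_comm]
      refine Finset.sum_congr rfl fun w' _ => ?_
      simp

/-- The restriction of a level matrix in the support is symmetric and ultrametric, or has probability zero and then all its extensions too. -/
theorem TLaw.ext_zero (T : TLaw L m) (hn : 0 < n) (w : LM L n) (hw : T.p n w = 0)
    (w' : LM L (n + 1)) (hr : w'.res = w) : T.p (n + 1) w' = 0 := by
  have h := T.cons n w hn
  rw [hw] at h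
  have h2 := (Finset.sum_eq_zero_iff_of_nonneg (fun v _ => by
    split_ifs
    · exact T.nonneg _ _
    · exact le_rfl)).1 h w' (Finset.mem_univ _)
  rwa [if_pos hr] at h2

theorem co_tel (f : ℕ → ℝ) {t L : ℕ} (ht : t ≤ L) :
    ∑ j : Fin L, (if (j : ℕ) < t then f ((j : ℕ) + 1) - f (j : ℕ) else 0) = f t - f 0 := by
  rw [Fin.sum_univ_eq_sum_range (fun j => if j < t then f (j + 1) - f j else 0) L,
    ← Finset.sum_filter]
  have h : (Finset.range L).filter (fun j => j < t) = Finset.range t := by
    ext j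
    simp only [Finset.mem_filter, Finset.mem_range]
    omega
  rw [h, Finset.sum_range_sub]

/-- for fixed level and target replica exactly one first replica counts -/
theorem co_one {w : LM L n} (h : w.Um) (V : Fin n → ℕ → ℝ)
    (hV : ∀ i i' k, k ≤ (w i i' : ℕ) → V i k = V i' k) (k : Fin n) {j : ℕ} (hj : j < L) :
    (∑ i : Fin n, if anc w i j = i ∧ j < (w i k : ℕ) then V i (j + 1) - V i j else 0) =
      V k (j + 1) - V k j := by
  have h1 : ∀ i : Fin n, (if anc w i j = i ∧ j < (w i k : ℕ) then V i (j + 1) - V i j else 0) =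
      if i = anc w k j then V k (j + 1) - V k j else 0 := by
    intro i
    by_cases hi : i = anc w k j
    · have h2 := (anc_unique h k i hj).2 hi
      rw [if_pos h2, if_pos hi, hV i k (j + 1) h2.2, hV i k j h2.2.le]
    · rw [if_neg hi, if_neg fun h2 => hi ((anc_unique h k i hj).1 h2)]
  rw [Finset.sum_congr rfl fun i _ => h1 i]
  simp

/-- telescoping along the path of the new replica: `V k = V 0 + ∑_{j<k} (V (j+1) - V j)` where the increment at level `j` is written at the unique old replica `i`
which is its own first replica and shares level `j` with the new one.  [`j < top`: `anc_unique` for `w'.res` and `i0` (`j < w'.res i i0 ↔ j < w' i.castSucc last` by `um`, `symm`), and `hV`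
(`V i (j+1) = V i0 (j+1)`, `V i j = V i0 j`); `j ≥ top`: no `i`.  Then `Finset.sum_range_sub`-type telescoping over `Fin L`, `top ≤ L`.] -/
theorem comb_tel {w' : LM L (n + 1)} (h : w'.Um) (i0 : Fin n)
    (h0 : ∀ i : Fin n, w' i.castSucc (Fin.last n) ≤ w' i0.castSucc (Fin.last n))
    (V : Fin n → ℕ → ℝ) (hV : ∀ i i' k, k ≤ (w'.res i i' : ℕ) → V i k = V i' k) :
    V i0 (w' i0.castSucc (Fin.last n)) = V i0 0 + ∑ i : Fin n, ∑ j : Fin L,
      if anc w'.res i j = i ∧ (j : ℕ) < (w' i.castSucc (Fin.last n) : ℕ) then V i (j + 1) - V i j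
      else 0 := by
  have h1 : (∑ i : Fin n, ∑ j : Fin L,
      if anc w'.res i j = i ∧ (j : ℕ) < (w' i.castSucc (Fin.last n) : ℕ) then V i (j + 1) - V i j
      else 0) = ∑ j : Fin L, (if (j : ℕ) < (w' i0.castSucc (Fin.last n) : ℕ) then
        V i0 ((j : ℕ) + 1) - V i0 (j : ℕ) else 0) := by
    rw [Finset.sum_comm]
    refine Finset.sum_congr rfl fun j _ => ?_
    split_ifs with hj
    · rw [← co_one h.res V hV i0 j.2]
      refine Finset.sum_congr rfl fun i _ => ?_
      have h2 : (j : ℕ) < (w' i.castSucc (Fin.last n) : ℕ) ↔ (j : ℕ) < (w'.res i i0 : ℕ) := by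
        constructor
        · intro h3
          have h4 := h.um i.castSucc (Fin.last n) i0.castSucc
          rw [h.symm (Fin.last n) i0.castSucc] at h4
          exact lt_of_lt_of_le (lt_min h3 hj) h4
        · intro h3
          exact lt_of_lt_of_le (lt_min h3 hj) (h.um i.castSucc i0.castSucc (Fin.last n))
      exact if_congr (and_congr_right fun _ => h2) rfl rfl
    · refine Finset.sum_eq_zero fun i _ => if_neg fun h3 => hj ?_
      exact lt_of_lt_of_le h3.2 (h0 i)
  rw [h1, co_tel (V i0) (Nat.lt_succ_iff.1 (w' i0.castSucc (Fin.last n)).2)]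
  ring

/-- counting: `∑_{i,j : anc i j = i} cnt i j * (V i (j+1) - V i j) = ∑_i (V i L - V i 0)`.  [`cnt i j = ∑_k 1{j < w i k}`; exchange the sums; for fixed `k`, `j` exactly one `i`
(`anc_unique`), and `V i (j+1) - V i j = V k (j+1) - V k j`.] -/
theorem comb_cnt {w : LM L n} (h : w.Um) (V : Fin n → ℕ → ℝ)
    (hV : ∀ i i' k, k ≤ (w i i' : ℕ) → V i k = V i' k) :
    (∑ i : Fin n, ∑ j : Fin L, if anc w i j = i then ((w.cnt i j : ℕ) : ℝ) * (V i (j + 1) - V i j) else 0)
      = ∑ i : Fin n, (V i L - V i 0) := by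
  have h1 : (∑ i : Fin n, ∑ j : Fin L,
      if anc w i j = i then ((w.cnt i j : ℕ) : ℝ) * (V i (j + 1) - V i j) else 0) =
      ∑ i : Fin n, ∑ j : Fin L, ∑ k : Fin n,
        if anc w i j = i ∧ (j : ℕ) < (w i k : ℕ) then V i ((j : ℕ) + 1) - V i (j : ℕ) else 0 := by
    refine Finset.sum_congr rfl fun i _ => Finset.sum_congr rfl fun j _ => ?_
    by_cases hi : anc w i j = i
    · have h2 : ((w.cnt i j : ℕ) : ℝ) = ∑ k : Fin n, if (j : ℕ) < (w i k : ℕ) then (1 : ℝ) else 0 := by
        unfold LM.cnt
        rw [Finset.card_filter]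
        push_cast
        rfl
      rw [if_pos hi, h2, Finset.sum_mul]
      refine Finset.sum_congr rfl fun k _ => ?_
      by_cases hk : (j : ℕ) < (w i k : ℕ)
      · rw [if_pos hk, if_pos ⟨hi, hk⟩, one_mul]
      · rw [if_neg hk, if_neg fun h => hk h.2, zero_mul]
    · rw [if_neg hi]
      exact (Finset.sum_eq_zero fun k _ => if_neg fun h => hi h.1).symm
  rw [h1, Finset.sum_comm]
  have h2 : ∀ j : Fin L, (∑ i : Fin n, ∑ k : Fin n,
        if anc w i j = i ∧ (j : ℕ) < (w i k : ℕ) then V i ((j : ℕ) + 1) - V i (j : ℕ) else 0) =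
      ∑ k : Fin n, (V k ((j : ℕ) + 1) - V k (j : ℕ)) := by
    intro j
    rw [Finset.sum_comm]
    exact Finset.sum_congr rfl fun k _ => co_one h V hV k j.2
  rw [Finset.sum_congr rfl fun j _ => h2 j, Finset.sum_comm]
  refine Finset.sum_congr rfl fun k _ => ?_
  rw [Fin.sum_univ_eq_sum_range (fun j => V k (j + 1) - V k j) L, Finset.sum_range_sub]

/-- **The combinatorial identity.**  [If `T.p n w = 0` both sides vanish (`ext_zero`).  Otherwise `w.Um` (`T.supp`).  For `w'` with `w'.res = w` and `T.p (n+1) w' ≠ 0`: `comb_tel`; sum over `w'`,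
exchange the sums: the terms with `V i0 0 = V i 0` for any fixed `i` (`hV` with `k = 0`) give `T.p n w * V i 0` (`T.cons`) `= (T.p n w / n) * ∑ i, V i 0`, the term `(i, j)` gives `T.gg`; then `comb_cnt`.] -/
theorem comb_identity (T : TLaw L m) (hn : 0 < n) (w : LM L n) (par : LM L (n + 1) → Fin n)
    (hpar : ∀ (w' : LM L (n + 1)) (i : Fin n),
      w' i.castSucc (Fin.last n) ≤ w' (par w').castSucc (Fin.last n))
    (V : Fin n → ℕ → ℝ) (hV : ∀ i i' k, k ≤ (w i i' : ℕ) → V i k = V i' k) :
    (n : ℝ) * ∑ w' : LM L (n + 1), (if w'.res = w then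
      T.p (n + 1) w' * V (par w') (w' (par w').castSucc (Fin.last n)) else 0) =
    T.p n w * ((∑ i, V i L) -
      ∑ i : Fin n, ∑ j : Fin L, if anc w i j = i then m j * (V i (j + 1) - V i j) else 0) := by
  by_cases hp : T.p n w = 0
  · rw [hp, zero_mul]
    have h0 : (∑ w' : LM L (n + 1), (if w'.res = w then
      T.p (n + 1) w' * V (par w') (w' (par w').castSucc (Fin.last n)) else 0)) = 0 := by
      refine Finset.sum_eq_zero fun w' _ => ?_
      split_ifs with hr
      · rw [T.ext_zero hn w hp w' hr, zero_mul]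
      · rfl
    rw [h0, mul_zero]
  · have hU := T.supp n w hp
    have hn0 : (n : ℝ) ≠ 0 := Nat.cast_ne_zero.2 hn.ne'
    set i1 : Fin n := ⟨0, hn⟩ with hi1
    have hV0 : ∀ i : Fin n, V i 0 = V i1 0 := fun i => hV i i1 0 (Nat.zero_le _)
    have h1 : ∀ w' : LM L (n + 1), (if w'.res = w then
        T.p (n + 1) w' * V (par w') (w' (par w').castSucc (Fin.last n)) else 0) =
        V i1 0 * (if w'.res = w then T.p (n + 1) w' else 0) +
        ∑ i : Fin n, ∑ j : Fin L, if anc w i j = i then (V i ((j : ℕ) + 1) - V i (j : ℕ)) *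
          (if w'.res = w ∧ (j : ℕ) < (w' i.castSucc (Fin.last n) : ℕ) then T.p (n + 1) w' else 0)
          else 0 := by
      intro w'
      by_cases hr : w'.res = w
      · by_cases hp' : T.p (n + 1) w' = 0
        · simp [hp']
        · have hU' := T.supp (n + 1) w' hp'
          have h2 := comb_tel hU' (par w') (hpar w') V (by rw [hr]; exact hV)
          rw [if_pos hr, if_pos hr, h2, hV0, hr, mul_add, mul_comm (T.p (n + 1) w') (V i1 0),
            Finset.mul_sum]
          congr 1
          refine Finset.sum_congr rfl fun i _ => ?_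
          rw [Finset.mul_sum]
          refine Finset.sum_congr rfl fun j _ => ?_
          by_cases ha : anc w i j = i
          · by_cases hj : (j : ℕ) < (w' i.castSucc (Fin.last n) : ℕ)
            · rw [if_pos ⟨ha, hj⟩, if_pos ha, if_pos ⟨rfl, hj⟩, mul_comm]
            · rw [if_neg fun h => hj h.2, if_pos ha, if_neg fun h => hj h.2, mul_zero, mul_zero]
          · rw [if_neg fun h => ha h.1, if_neg ha, mul_zero]
      · simp [hr]
    rw [Finset.sum_congr rfl fun w' _ => h1 w', Finset.sum_add_distrib, ← Finset.mul_sum,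
      T.cons n w hn, Finset.sum_comm]
    have h3 : ∀ i : Fin n, (∑ w' : LM L (n + 1), ∑ j : Fin L,
        if anc w i j = i then (V i ((j : ℕ) + 1) - V i (j : ℕ)) *
          (if w'.res = w ∧ (j : ℕ) < (w' i.castSucc (Fin.last n) : ℕ) then T.p (n + 1) w' else 0)
          else 0) = ∑ j : Fin L, if anc w i j = i then
            (V i ((j : ℕ) + 1) - V i (j : ℕ)) * (T.p n w * (((w.cnt i j : ℕ) : ℝ) - m j) / n)
            else 0 := by
      intro i
      rw [Finset.sum_comm]
      refine Finset.sum_congr rfl fun j _ => ?_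
      split_ifs with ha
      · rw [← Finset.mul_sum, T.gg n w i j j.2]
      · exact Finset.sum_const_zero
    rw [Finset.sum_congr rfl fun i _ => h3 i, mul_add, Finset.mul_sum]
    have h4 : ∀ i : Fin n, (n : ℝ) * (∑ j : Fin L, if anc w i j = i then
            (V i ((j : ℕ) + 1) - V i (j : ℕ)) * (T.p n w * (((w.cnt i j : ℕ) : ℝ) - m j) / n)
            else 0) = T.p n w * ((∑ j : Fin L, if anc w i j = i then
              ((w.cnt i j : ℕ) : ℝ) * (V i (j + 1) - V i j) else 0) -
            ∑ j : Fin L, if anc w i j = i then m j * (V i (j + 1) - V i j) else 0) := by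
      intro i
      rw [← Finset.sum_sub_distrib, Finset.mul_sum, Finset.mul_sum]
      refine Finset.sum_congr rfl fun j _ => ?_
      split_ifs with ha
      · field_simp
      · ring
    rw [Finset.sum_congr rfl fun i _ => h4 i, ← Finset.mul_sum, Finset.sum_sub_distrib,
      comb_cnt hU V hV, Finset.sum_sub_distrib]
    have h5 : ∑ i : Fin n, V i 0 = (n : ℝ) * V i1 0 := by
      rw [Finset.sum_congr rfl fun i _ => hV0 i]
      simp
    rw [h5]
    ring

end SKC.G
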