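import Pool.Agent.H.MP_08eaf3_pr.G.Ps2

/-!
# Part G: bounded level functions: derivative in the tilt parameter
-/

set_option autoImplicit false

open MeasureTheory ProbabilityTheory Filter Topology Matrix

namespace SKC.G

variable {κ : Type} [Fintype κ]

/-- one step of the derivative in the tilt.  [`m = 0`: derivative under the integral.  `m ≠ 0`: derivative under the integral for `exp (m f)`
(`hasDerivAt_integral_of_dominated_loc_of_deriv_le` with the constant bound `|m| exp (|m| (|t|+1))` on the ball of radius `1`), chain rule for `log`.] -/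
theorem Tm_deriv (m : ℝ) (B : Matrix κ κ ℝ) (f f' : ℝ → (κ → ℝ) → ℝ) (hf : ∀ t, Measurable (f t))
    (hf' : ∀ t, Measurable (f' t)) (hd : ∀ t z, HasDerivAt (fun s => f s z) (f' t z) t)
    (hb : ∀ t z, |f t z| ≤ |t|) (hb' : ∀ t z, |f' t z| ≤ 1) (t : ℝ) (z : κ → ℝ) :
    HasDerivAt (fun s => Tm m B (f s) z) (Es m B (f t) (f' t) z) t := by
  by_cases hm : m = 0
  · subst hm
    have e1 : Es 0 B (f t) (f' t) z = ∫ x, f' t (z + B.mulVec x) ∂(gam κ) := by
      unfold Es
      simp
    have e2 : (fun s => Tm 0 B (f s) z) = fun s => ∫ x, f s (z + B.mulVec x) ∂(gam κ) := by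
      funext s
      unfold Tm
      rw [if_pos rfl]
    rw [e1, e2]
    refine (hasDerivAt_integral_of_dominated_loc_of_deriv_le (μ := gam κ)
      (F := fun s x => f s (z + B.mulVec x)) (F' := fun s x => f' s (z + B.mulVec x))
      (bound := fun _ => 1) (Metric.ball_mem_nhds t one_pos) ?_ ?_ ?_ ?_ ?_ ?_).2
    · exact Filter.Eventually.of_forall fun s => (ps2_meas B (hf s) z).aestronglyMeasurable
    · exact Integrable.of_bound (ps2_meas B (hf t) z).aestronglyMeasurable |t|
        (Filter.Eventually.of_forall fun x => by rw [Real.norm_eq_abs]; exact hb t _)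
    · exact (ps2_meas B (hf' t) z).aestronglyMeasurable
    · exact Filter.Eventually.of_forall fun x s _ => by rw [Real.norm_eq_abs]; exact hb' s _
    · exact integrable_const _
    · exact Filter.Eventually.of_forall fun x s _ => hd s _
  · have hder : HasDerivAt (fun s => ∫ x, Real.exp (m * f s (z + B.mulVec x)) ∂(gam κ))
        (∫ x, m * (f' t (z + B.mulVec x) * Real.exp (m * f t (z + B.mulVec x))) ∂(gam κ)) t := by
      refine (hasDerivAt_integral_of_dominated_loc_of_deriv_le (μ := gam κ)
        (F := fun s x => Real.exp (m * f s (z + B.mulVec x)))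
        (F' := fun s x => m * (f' s (z + B.mulVec x) * Real.exp (m * f s (z + B.mulVec x))))
        (bound := fun _ => |m| * (1 * Real.exp (|m| * (|t| + 1))))
        (Metric.ball_mem_nhds t one_pos) ?_ ?_ ?_ ?_ ?_ ?_).2
      · exact Filter.Eventually.of_forall fun s =>
          ((ps2_meas B (hf s) z).const_mul m).exp.aestronglyMeasurable
      · exact ps2_int m B (hf t) (hb t) z
      · exact (((ps2_meas B (hf' t) z).mul ((ps2_meas B (hf t) z).const_mul m).exp).const_mul
          m).aestronglyMeasurable
      · refine Filter.Eventually.of_forall fun x s hs => ?_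
        have hs1 : |s| ≤ |t| + 1 := by
          rw [Metric.mem_ball, Real.dist_eq] at hs
          have h1 := abs_sub_abs_le_abs_sub s t
          linarith
        rw [norm_mul, norm_mul, Real.norm_eq_abs, Real.norm_eq_abs, Real.norm_eq_abs,
          abs_of_pos (Real.exp_pos _)]
        refine mul_le_mul_of_nonneg_left (mul_le_mul (hb' s _) ?_ (Real.exp_pos _).le zero_le_one)
          (abs_nonneg m)
        exact (ps2_exp_bd m ((hb s _).trans hs1)).2
      · exact integrable_const _
      · refine Filter.Eventually.of_forall fun x s _ => ?_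
        have h1 := ((hd s (z + B.mulVec x)).const_mul m).exp
        have h2 : Real.exp (m * f s (z + B.mulVec x)) * (m * f' s (z + B.mulVec x)) =
            m * (f' s (z + B.mulVec x) * Real.exp (m * f s (z + B.mulVec x))) := by ring
        rw [h2] at h1
        exact h1
    have hpos := ps2_pos m B (hf t) (hb t) z
    have h2 := (hder.log hpos.ne').const_mul (1 / m)
    have e2 : (fun s => Tm m B (f s) z) =
        fun s => 1 / m * Real.log (∫ x, Real.exp (m * f s (z + B.mulVec x)) ∂(gam κ)) := by
      funext s
      unfold Tm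
      rw [if_neg hm]
    rw [e2]
    have e3 : Es m B (f t) (f' t) z = 1 / m *
        ((∫ x, m * (f' t (z + B.mulVec x) * Real.exp (m * f t (z + B.mulVec x))) ∂(gam κ)) /
          ∫ x, Real.exp (m * f t (z + B.mulVec x)) ∂(gam κ)) := by
      unfold Es
      rw [integral_const_mul, mul_div_assoc, ← mul_assoc, one_div_mul_cancel hm, one_mul]
    rw [e3]
    exact h2

/-- [induction on `l`, `Tm_deriv`] -/
theorem PsiG_deriv (l : List (Lev κ)) {Y : (κ → ℝ) → ℝ} (hY : Measurable Y) (hb : ∀ z, |Y z| ≤ 1) :
    ∀ (t : ℝ) (z : κ → ℝ), HasDerivAt (fun s => PsiG l (fun z => s * Y z) z)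
      (ChG l (fun z => t * Y z) Y z) t := by
  induction l with
  | nil =>
    intro t z
    show HasDerivAt (fun s => s * Y z) (Y z) t
    have h1 := (hasDerivAt_id t).mul_const (Y z)
    rw [one_mul] at h1
    exact h1
  | cons s l ih =>
    intro t z
    have hm : ∀ t : ℝ, Measurable (fun z => t * Y z) := fun t => hY.const_mul t
    have hbt : ∀ (t : ℝ) (z : κ → ℝ), |t * Y z| ≤ |t| := by
      intro t z
      rw [abs_mul]
      exact (mul_le_mul_of_nonneg_left (hb z) (abs_nonneg t)).trans_eq (mul_one _)
    exact Tm_deriv s.1 s.2 (fun t => PsiG l (fun z => t * Y z))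
      (fun t => ChG l (fun z => t * Y z) Y) (fun t => PsiG_meas l (hm t))
      (fun t => ChG_meas l (hm t) hY) ih (fun t z => PsiG_bd l (hm t) (hbt t) z)
      (fun t z => ChG_bd l (hm t) hY (hbt t) hb z) t z

/-- [all functions of the recursion are constant] -/
theorem PsiG_zero (l : List (Lev κ)) : PsiG l (fun _ : κ → ℝ => (0 : ℝ)) = fun _ => 0 := by
  induction l with
  | nil => rfl
  | cons s l ih =>
    show Tm s.1 s.2 (PsiG l fun _ => 0) = _
    rw [ih]
    funext z
    unfold Tm
    split_ifs <;> simp

end SKC.G
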