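import Pool.Agent.H.MP_08eaf3_pr.G.Ma
import Pool.Agent.H.MP_08eaf3_pr.G.Co
import Pool.Agent.H.MP_08eaf3_pr.G.Ps3

/-!
# Part G2: the hierarchy of the tree averages
-/

set_option autoImplicit false

open MeasureTheory ProbabilityTheory Filter Topology Matrix

namespace SKC.G

variable {κ : Type} [Fintype κ] {L n : ℕ} {m : ℕ → ℝ}

/-- chain expectation of `Y` at the level `k` of replica `i` -/
noncomputable def Vt (l : List (Lev κ)) (t : ℝ) (Y : (κ → ℝ) → ℝ) (w : LM L n)
    (y : Fin n → Pth κ L) (i : Fin n) (k : ℕ) : ℝ :=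
  ChG (l.drop k) (fun z => t * Y z) Y (Wk l (xp w y i) k)

/-- derivative of the exponent in `t`.  [`PsiG_deriv` for the lists `l.drop j`, finite sums] -/
theorem exT_deriv (l : List (Lev κ)) {Y : (κ → ℝ) → ℝ} (hY : Measurable Y) (hb : ∀ z, |Y z| ≤ 1)
    (w : LM L n) (y : Fin n → Pth κ L) (t : ℝ) :
    HasDerivAt (fun s => exT l (fun z => s * Y z) w y)
      (∑ i : Fin n, ∑ j : Fin L, if anc w i j = i then
        wt l j * (Vt l t Y w y i (j + 1) - Vt l t Y w y i j) else 0) t := by
  unfold exT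
  refine HasDerivAt.fun_sum fun i _ => HasDerivAt.fun_sum fun j _ => ?_
  by_cases h : anc w i j = i
  · simp only [if_pos h]
    exact ((PsiG_deriv (l.drop (j + 1)) hY hb t _).sub
      (PsiG_deriv (l.drop j) hY hb t _)).const_mul _
  · simp only [if_neg h]
    exact hasDerivAt_const _ _

/-- the derivative of the exponent -/
noncomputable def tr_S (l : List (Lev κ)) (t : ℝ) (Y : (κ → ℝ) → ℝ) (w : LM L n)
    (y : Fin n → Pth κ L) : ℝ :=
  ∑ i : Fin n, ∑ j : Fin L, if anc w i j = i then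
    wt l j * (Vt l t Y w y i (j + 1) - Vt l t Y w y i j) else 0

omit [Fintype κ] in
theorem tr_Yb {Y : (κ → ℝ) → ℝ} (hb : ∀ z, |Y z| ≤ 1) (t : ℝ) (z : κ → ℝ) : |t * Y z| ≤ |t| := by
  rw [abs_mul]
  exact mul_le_of_le_one_right (abs_nonneg t) (hb z)

theorem tr_Vt_meas (l : List (Lev κ)) {Y : (κ → ℝ) → ℝ} (hY : Measurable Y) (w : LM L n)
    (t : ℝ) (i : Fin n) (k : ℕ) : Measurable (fun y : Fin n → Pth κ L => Vt l t Y w y i k) :=
  (ChG_meas (l.drop k) (hY.const_mul t) hY).comp ((Wk_meas l k).comp (xp_meas w i))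

theorem tr_Vt_bd (l : List (Lev κ)) {Y : (κ → ℝ) → ℝ} (hY : Measurable Y) (hb : ∀ z, |Y z| ≤ 1)
    (w : LM L n) (t : ℝ) (i : Fin n) (k : ℕ) (y : Fin n → Pth κ L) : |Vt l t Y w y i k| ≤ 1 :=
  ChG_bd (l.drop k) (hY.const_mul t) hY (tr_Yb hb t) hb _

theorem tr_S_meas (l : List (Lev κ)) {Y : (κ → ℝ) → ℝ} (hY : Measurable Y) (w : LM L n) (t : ℝ) :
    Measurable (fun y : Fin n → Pth κ L => tr_S l t Y w y) := by
  unfold tr_S
  refine Finset.measurable_sum _ fun i _ => Finset.measurable_sum _ fun j _ => ?_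
  by_cases h : anc w i j = i
  · simp only [if_pos h]
    exact ((tr_Vt_meas l hY w t i (j + 1)).sub (tr_Vt_meas l hY w t i j)).const_mul _
  · simp only [if_neg h]
    exact measurable_const

theorem tr_S_bd (l : List (Lev κ)) {Y : (κ → ℝ) → ℝ} (hY : Measurable Y) (hb : ∀ z, |Y z| ≤ 1)
    (w : LM L n) (t : ℝ) (y : Fin n → Pth κ L) :
    |tr_S l t Y w y| ≤ ∑ _i : Fin n, ∑ j : Fin L, |wt l j| * 2 := by
  unfold tr_S
  refine (Finset.abs_sum_le_sum_abs _ _).trans (Finset.sum_le_sum fun i _ =>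
    (Finset.abs_sum_le_sum_abs _ _).trans (Finset.sum_le_sum fun j _ => ?_))
  by_cases h : anc w i j = i
  · rw [if_pos h, abs_mul]
    refine mul_le_mul_of_nonneg_left ?_ (abs_nonneg _)
    have h1 := tr_Vt_bd l hY hb w t i (j + 1) y
    have h2 := tr_Vt_bd l hY hb w t i j y
    exact (abs_sub _ _).trans (by linarith)
  · rw [if_neg h, abs_zero]
    positivity

theorem tr_exT_bd (l : List (Lev κ)) {F : (κ → ℝ) → ℝ} (hF : Measurable F) {M : ℝ}
    (hM : ∀ z, |F z| ≤ M) (w : LM L n) (y : Fin n → Pth κ L) :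
    |exT l F w y| ≤ ∑ _i : Fin n, ∑ j : Fin L, |wt l j| * (2 * M) := by
  have hM0 : 0 ≤ M := (abs_nonneg _).trans (hM 0)
  unfold exT
  refine (Finset.abs_sum_le_sum_abs _ _).trans (Finset.sum_le_sum fun i _ =>
    (Finset.abs_sum_le_sum_abs _ _).trans (Finset.sum_le_sum fun j _ => ?_))
  by_cases h : anc w i j = i
  · rw [if_pos h, abs_mul]
    refine mul_le_mul_of_nonneg_left ?_ (abs_nonneg _)
    have h1 := PsiG_bd (l.drop (j + 1)) hF hM (Wk l (xp w y i) (j + 1))
    have h2 := PsiG_bd (l.drop j) hF hM (Wk l (xp w y i) j)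
    exact (abs_sub _ _).trans (by linarith)
  · rw [if_neg h, abs_zero]
    positivity

theorem tr_A_meas (l : List (Lev κ)) (w : LM L n) {Θ : (Fin n → κ → ℝ) → ℝ} (hΘ : Measurable Θ) :
    Measurable (fun y : Fin n → Pth κ L => Θ (fun i => Wk l (xp w y i) L)) :=
  hΘ.comp (measurable_pi_lambda _ fun i => (Wk_meas l L).comp (xp_meas w i))

theorem tr_integrable {H : (Fin n → Pth κ L) → ℝ} (hH : Measurable H) {C : ℝ}
    (hC : ∀ y, |H y| ≤ C) : Integrable H (pths κ L n) :=
  Integrable.of_bound hH.aestronglyMeasurable C (Filter.Eventually.of_forall fun y => by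
    rw [Real.norm_eq_abs]
    exact hC y)

/-- the density of the tree times a bounded function is integrable -/
theorem tr_int_A (l : List (Lev κ)) {F : (κ → ℝ) → ℝ} (hF : Measurable F) {M : ℝ}
    (hM : ∀ z, |F z| ≤ M) (w : LM L n) {Θ : (Fin n → κ → ℝ) → ℝ} (hΘ : Measurable Θ)
    (hΘb : ∀ z, |Θ z| ≤ 1) {H : (Fin n → Pth κ L) → ℝ} (hH : Measurable H) {C : ℝ}
    (hC : ∀ y, |H y| ≤ C) :
    Integrable (fun y => Θ (fun i => Wk l (xp w y i) L) * Real.exp (exT l F w y) * H y)
      (pths κ L n) := by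
  have h1 : Measurable (fun y : Fin n → Pth κ L =>
      Θ (fun i => Wk l (xp w y i) L) * Real.exp (exT l F w y) * H y) :=
    ((tr_A_meas l w hΘ).mul (exT_meas l hF w).exp).mul hH
  refine tr_integrable h1
    (C := 1 * Real.exp (∑ _i : Fin n, ∑ j : Fin L, |wt l j| * (2 * M)) * C) fun y => ?_
  rw [abs_mul, abs_mul]
  have h2 : |Real.exp (exT l F w y)| ≤
      Real.exp (∑ _i : Fin n, ∑ j : Fin L, |wt l j| * (2 * M)) := by
    rw [abs_of_pos (Real.exp_pos _)]
    exact Real.exp_le_exp.2 ((le_abs_self _).trans (tr_exT_bd l hF hM w y))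
  exact mul_le_mul (mul_le_mul (hΘb _) h2 (abs_nonneg _) zero_le_one) (hC y) (abs_nonneg _)
    (by positivity)

/-- derivative of the tree integral.  [`hasDerivAt_integral_of_dominated_loc_of_deriv_le`: the exponent is bounded by `C0 * |t|`-type constants uniformly for `t` in the ball of radius one
(`exT_bd` for `M = |t| + 1`: use the explicit bound `n * L * max |wt| * 2 (|t|+1)`, or `PsiG_bd` again), `|Vt| ≤ 1`; measurability `exT_meas`, `ChG_meas`, `Wk_meas`, `xp_meas`.] -/
theorem tree_int_deriv (l : List (Lev κ)) {Y : (κ → ℝ) → ℝ} (hY : Measurable Y)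
    (hb : ∀ z, |Y z| ≤ 1) (w : LM L n) (Θ : (Fin n → κ → ℝ) → ℝ) (hΘ : Measurable Θ)
    (hΘb : ∀ z, |Θ z| ≤ 1) (t : ℝ) :
    HasDerivAt (fun s => ∫ y, Θ (fun i => Wk l (xp w y i) L) *
        Real.exp (exT l (fun z => s * Y z) w y) ∂(pths κ L n))
      (∫ y, Θ (fun i => Wk l (xp w y i) L) * Real.exp (exT l (fun z => t * Y z) w y) *
        (∑ i : Fin n, ∑ j : Fin L, if anc w i j = i then
          wt l j * (Vt l t Y w y i (j + 1) - Vt l t Y w y i j) else 0) ∂(pths κ L n)) t := by
  have hm : ∀ s : ℝ, Measurable (fun y : Fin n → Pth κ L => Θ (fun i => Wk l (xp w y i) L) *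
      Real.exp (exT l (fun z => s * Y z) w y)) := fun s =>
    (tr_A_meas l w hΘ).mul (exT_meas l (hY.const_mul s) w).exp
  refine (hasDerivAt_integral_of_dominated_loc_of_deriv_le (s := Metric.ball t 1)
    (F := fun s y => Θ (fun i => Wk l (xp w y i) L) * Real.exp (exT l (fun z => s * Y z) w y))
    (F' := fun s y => Θ (fun i => Wk l (xp w y i) L) * Real.exp (exT l (fun z => s * Y z) w y) *
      tr_S l s Y w y)
    (bound := fun _ => 1 * Real.exp (∑ _i : Fin n, ∑ j : Fin L, |wt l j| * (2 * (|t| + 1))) *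
      (∑ _i : Fin n, ∑ j : Fin L, |wt l j| * 2))
    (Metric.ball_mem_nhds t one_pos) ?_ ?_ ?_ ?_ (integrable_const _) ?_).2
  · exact Filter.Eventually.of_forall fun s => (hm s).aestronglyMeasurable
  · have h1 := tr_int_A l (hY.const_mul t) (tr_Yb hb t) w hΘ hΘb
      (H := fun _ : Fin n → Pth κ L => (1 : ℝ)) measurable_const (C := 1) (fun _ => by simp)
    simpa using h1
  · exact ((hm t).mul (tr_S_meas l hY w t)).aestronglyMeasurable
  · refine Filter.Eventually.of_forall fun y s hs => ?_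
    rw [Metric.mem_ball, Real.dist_eq] at hs
    have hs' : |s| ≤ |t| + 1 := by
      have h1 : |s| ≤ |s - t| + |t| := by
        have h2 := abs_add_le (s - t) t
        rwa [sub_add_cancel] at h2
      linarith
    rw [Real.norm_eq_abs, abs_mul, abs_mul]
    have h2 : |Real.exp (exT l (fun z => s * Y z) w y)| ≤
        Real.exp (∑ _i : Fin n, ∑ j : Fin L, |wt l j| * (2 * (|t| + 1))) := by
      rw [abs_of_pos (Real.exp_pos _)]
      exact Real.exp_le_exp.2 ((le_abs_self _).trans (tr_exT_bd l (hY.const_mul s)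
        (fun z => (tr_Yb hb s z).trans hs') w y))
    exact mul_le_mul (mul_le_mul (hΘb _) h2 (abs_nonneg _) zero_le_one)
      (tr_S_bd l hY hb w s y) (abs_nonneg _) (by positivity)
  · refine Filter.Eventually.of_forall fun y s _ => ?_
    refine (((exT_deriv l hY hb w y s).exp).const_mul
      (Θ (fun i => Wk l (xp w y i) L))).congr_deriv ?_
    unfold tr_S
    ring

/-- the average over the new replica.  [`par w'` = an index maximising `w' i.castSucc last` (`Finset.exists_max_image`, `n > 0`).  Group the sum over `w'` by `w = w'.res`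
(`Finset.sum_comm`, `∑_w (if w'.res = w then .. else 0)`); terms with `T.p (n+1) w' = 0` vanish, the others have `w'.Um`: `marg` with `g = Y`.
Then for fixed `w` with `T.p n w ≠ 0` and fixed `y`: `comb_identity` with `V i k = Vt l t Y w y i k` (`hV`: `Wk_xp_eq`), `Vt .. i L = Y (Wk l (xp w y i) L)` (`l.drop L = []`), `m j = wt l j`.] -/
theorem tree_new (l : List (Lev κ)) (hL : l.length = L) (T : TLaw L m) (hm : ∀ j < L, m j = wt l j)
    {Y : (κ → ℝ) → ℝ} (hY : Measurable Y) (hb : ∀ z, |Y z| ≤ 1) (hn : 0 < n)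
    (Θ : (Fin n → κ → ℝ) → ℝ) (hΘ : Measurable Θ) (hΘb : ∀ z, |Θ z| ≤ 1) (t : ℝ) :
    (n : ℝ) * TA l (fun z => t * Y z) T (n := n + 1)
        (fun z => Θ (fun i => z i.castSucc) * Y (z (Fin.last n))) =
      ∑ w : LM L n, T.p n w *
        ∫ y, Θ (fun i => Wk l (xp w y i) L) * Real.exp (exT l (fun z => t * Y z) w y) *
          ((∑ i : Fin n, Y (Wk l (xp w y i) L)) -
            ∑ i : Fin n, ∑ j : Fin L, if anc w i j = i then
              wt l j * (Vt l t Y w y i (j + 1) - Vt l t Y w y i j) else 0) ∂(pths κ L n) := by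
  classical
  have : Nonempty (Fin n) := ⟨⟨0, hn⟩⟩
  have hex : ∀ w' : LM L (n + 1), ∃ i0 : Fin n, ∀ i : Fin n,
      w' i.castSucc (Fin.last n) ≤ w' i0.castSucc (Fin.last n) := by
    intro w'
    obtain ⟨i0, -, h0⟩ := Finset.exists_max_image (Finset.univ : Finset (Fin n))
      (fun i => w' i.castSucc (Fin.last n)) Finset.univ_nonempty
    exact ⟨i0, fun i => h0 i (Finset.mem_univ i)⟩
  choose par hpar using hex
  have hF : Measurable (fun z : κ → ℝ => t * Y z) := hY.const_mul t
  have hM := tr_Yb hb t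
  obtain ⟨A, hA⟩ : ∃ A : LM L n → (Fin n → Pth κ L) → ℝ, A = fun w y =>
      Θ (fun i => Wk l (xp w y i) L) * Real.exp (exT l (fun z => t * Y z) w y) := ⟨_, rfl⟩
  -- the term of one extension
  have h1 : ∀ w' : LM L (n + 1), T.p (n + 1) w' *
      ∫ y, (Θ (fun i => Wk l (xp w' y i.castSucc) L) * Y (Wk l (xp w' y (Fin.last n)) L)) *
        Real.exp (exT l (fun z => t * Y z) w' y) ∂(pths κ L (n + 1)) =
      T.p (n + 1) w' * ∫ y, A w'.res y *
        Vt l t Y w'.res y (par w') (w' (par w').castSucc (Fin.last n)) ∂(pths κ L n) := by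
    intro w'
    by_cases hp : T.p (n + 1) w' = 0
    · rw [hp, zero_mul, zero_mul]
    · have h2 := marg l hL hF hY hM hb (T.supp _ _ hp) (par w') (hpar w') Θ hΘ hΘb
      rw [h2]
      congr 1
      refine integral_congr_ae (Filter.Eventually.of_forall fun y => ?_)
      simp only [hA]
      unfold Vt
      ring
  have h2 : TA l (fun z => t * Y z) T (n := n + 1)
      (fun z => Θ (fun i => z i.castSucc) * Y (z (Fin.last n))) =
      ∑ w' : LM L (n + 1), T.p (n + 1) w' * ∫ y, A w'.res y *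
        Vt l t Y w'.res y (par w') (w' (par w').castSucc (Fin.last n)) ∂(pths κ L n) := by
    unfold TA
    exact Finset.sum_congr rfl fun w' _ => h1 w'
  have h3 : (∑ w' : LM L (n + 1), T.p (n + 1) w' * ∫ y, A w'.res y *
        Vt l t Y w'.res y (par w') (w' (par w').castSucc (Fin.last n)) ∂(pths κ L n)) =
      ∑ w : LM L n, ∑ w' : LM L (n + 1), (if w'.res = w then T.p (n + 1) w' * ∫ y, A w y *
        Vt l t Y w y (par w') (w' (par w').castSucc (Fin.last n)) ∂(pths κ L n) else 0) := by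
    rw [Finset.sum_comm]
    refine Finset.sum_congr rfl fun w' _ => ?_
    rw [Finset.sum_ite_eq]
    simp
  rw [h2, h3, Finset.mul_sum]
  refine Finset.sum_congr rfl fun w _ => ?_
  by_cases hp : T.p n w = 0
  · rw [hp, zero_mul]
    refine mul_eq_zero_of_right _ (Finset.sum_eq_zero fun w' _ => ?_)
    by_cases hr : w'.res = w
    · rw [if_pos hr, T.ext_zero hn w hp w' hr, zero_mul]
    · rw [if_neg hr]
  · have hw := T.supp _ _ hp
    have hVi : ∀ (i : Fin n) (k : ℕ), Integrable (fun y => A w y * Vt l t Y w y i k)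
        (pths κ L n) := by
      intro i k
      rw [hA]
      exact tr_int_A l hF hM w hΘ hΘb (tr_Vt_meas l hY w t i k) (tr_Vt_bd l hY hb w t i k)
    have h4 : ∀ w' : LM L (n + 1), (if w'.res = w then T.p (n + 1) w' * ∫ y, A w y *
        Vt l t Y w y (par w') (w' (par w').castSucc (Fin.last n)) ∂(pths κ L n) else 0) =
        ∫ y, A w y * (if w'.res = w then T.p (n + 1) w' *
          Vt l t Y w y (par w') (w' (par w').castSucc (Fin.last n)) else 0) ∂(pths κ L n) := by
      intro w'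
      by_cases hr : w'.res = w
      · simp only [if_pos hr]
        rw [← integral_const_mul]
        refine integral_congr_ae (Filter.Eventually.of_forall fun y => ?_)
        show T.p (n + 1) w' * (A w y * _) = A w y * (T.p (n + 1) w' * _)
        ring
      · simp only [if_neg hr, mul_zero, integral_zero]
    have h5 : ∀ w' : LM L (n + 1), Integrable (fun y => A w y * (if w'.res = w then
        T.p (n + 1) w' * Vt l t Y w y (par w') (w' (par w').castSucc (Fin.last n)) else 0))
        (pths κ L n) := by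
      intro w'
      by_cases hr : w'.res = w
      · simp only [if_pos hr]
        refine ((hVi (par w') (w' (par w').castSucc (Fin.last n))).const_mul
          (T.p (n + 1) w')).congr (Filter.Eventually.of_forall fun y => ?_)
        show T.p (n + 1) w' * (A w y * _) = A w y * (T.p (n + 1) w' * _)
        ring
      · simp only [if_neg hr, mul_zero]
        exact integrable_zero _ _ _
    rw [Finset.sum_congr rfl fun w' _ => h4 w', ← integral_finsetSum _ fun w' _ => h5 w',
      ← integral_const_mul, ← integral_const_mul]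
    refine integral_congr_ae (Filter.Eventually.of_forall fun y => ?_)
    have h6 := comb_identity T hn w par hpar (fun i k => Vt l t Y w y i k) (by
      intro i i' k hk
      show ChG _ _ _ (Wk l (xp w y i) k) = ChG _ _ _ (Wk l (xp w y i') k)
      rw [Wk_xp_eq l hw y i i' hk])
    have h7 : ∀ i : Fin n, Vt l t Y w y i L = Y (Wk l (xp w y i) L) := by
      intro i
      have h9 : l.drop L = [] := List.drop_eq_nil_of_le hL.le
      unfold Vt
      rw [h9]
      rfl
    simp only [h7] at h6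
    have h8 : (∑ i : Fin n, ∑ j : Fin L, if anc w i j = i then
        m j * (Vt l t Y w y i (j + 1) - Vt l t Y w y i j) else 0) =
        ∑ i : Fin n, ∑ j : Fin L, if anc w i j = i then
          wt l j * (Vt l t Y w y i (j + 1) - Vt l t Y w y i j) else 0 :=
      Finset.sum_congr rfl fun i _ => Finset.sum_congr rfl fun j _ => by rw [hm j j.2]
    rw [h8] at h6
    show (n : ℝ) * (∑ w' : LM L (n + 1), A w y * (if w'.res = w then
        T.p (n + 1) w' * Vt l t Y w y (par w') (w' (par w').castSucc (Fin.last n)) else 0)) = _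
    rw [← Finset.mul_sum]
    calc (n : ℝ) * (A w y * ∑ w' : LM L (n + 1), (if w'.res = w then
        T.p (n + 1) w' * Vt l t Y w y (par w') (w' (par w').castSucc (Fin.last n)) else 0))
        = A w y * ((n : ℝ) * ∑ w' : LM L (n + 1), (if w'.res = w then
        T.p (n + 1) w' * Vt l t Y w y (par w') (w' (par w').castSucc (Fin.last n)) else 0)) := by
          ring
      _ = _ := by
          rw [h6, hA]
          ring

/-- **The hierarchy of the tree averages.**  [`tree_int_deriv`, `tree_new` with `Θ z = ∏ i, Y (z i) ^ a i`; `(Function.update a n 1) i.castSucc = a i`; `∏` over `Fin (n+1)` by `Fin.prod_univ_castSucc`;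
`∏ i, Y (z i) ^ (update a l (a l + 1)) i = (∏ i, Y (z i) ^ a i) * Y (z l)` for `l < n`, the sum over `l ∈ range n` is a sum over `Fin n` (`Finset.sum_range`).] -/
theorem tree_hier (l : List (Lev κ)) (hL : l.length = L) (T : TLaw L m) (hm : ∀ j < L, m j = wt l j)
    {Y : (κ → ℝ) → ℝ} (hY : Measurable Y) (hb : ∀ z, |Y z| ≤ 1) :
    Hier (fun t n a => TA l (fun z => t * Y z) T (n := n) (fun z => ∏ i : Fin n, Y (z i) ^ a i)) := by
  intro n a t hn
  have hΘm : ∀ b : ℕ → ℕ, Measurable (fun z : Fin n → κ → ℝ => ∏ i : Fin n, Y (z i) ^ b i) :=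
    fun b => Finset.measurable_prod _ fun i _ => (hY.comp (measurable_pi_apply i)).pow_const _
  have hΘb : ∀ (b : ℕ → ℕ) (z : Fin n → κ → ℝ), |∏ i : Fin n, Y (z i) ^ b i| ≤ 1 := by
    intro b z
    rw [Finset.abs_prod]
    refine Finset.prod_le_one (fun i _ => abs_nonneg _) fun i _ => ?_
    rw [abs_pow]
    exact pow_le_one₀ (abs_nonneg _) (hb _)
  have hF : Measurable (fun z : κ → ℝ => t * Y z) := hY.const_mul t
  have hM := tr_Yb hb t
  have h1 : HasDerivAt (fun s => TA l (fun z => s * Y z) T (n := n)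
      (fun z => ∏ i : Fin n, Y (z i) ^ a i))
      (∑ w : LM L n, T.p n w * ∫ y, (∏ i : Fin n, Y (Wk l (xp w y i) L) ^ a i) *
        Real.exp (exT l (fun z => t * Y z) w y) * tr_S l t Y w y ∂(pths κ L n)) t := by
    unfold TA
    exact HasDerivAt.fun_sum fun w _ => (tree_int_deriv l hY hb w
      (fun z => ∏ i : Fin n, Y (z i) ^ a i) (hΘm a) (hΘb a) t).const_mul _
  refine h1.congr_deriv ?_
  -- the new replica
  have h2 : (fun z : Fin (n + 1) → κ → ℝ => ∏ i : Fin (n + 1),
      Y (z i) ^ (Function.update a n 1) i) =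
      fun z => (fun z : Fin n → κ → ℝ => ∏ i : Fin n, Y (z i) ^ a i) (fun i => z i.castSucc) *
        Y (z (Fin.last n)) := by
    funext z
    rw [Fin.prod_univ_castSucc]
    congr 1
    · refine Finset.prod_congr rfl fun i _ => ?_
      rw [Fin.val_castSucc, Function.update_of_ne i.2.ne]
    · rw [Fin.val_last, Function.update_self, pow_one]
  have h3 := tree_new l hL T hm hY hb hn (fun z => ∏ i : Fin n, Y (z i) ^ a i) (hΘm a) (hΘb a) t
  beta_reduce
  rw [h2, h3]
  -- the old replicas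
  have h4 : ∀ (w : LM L n) (k : Fin n), Integrable (fun y : Fin n → Pth κ L =>
      (∏ i : Fin n, Y (Wk l (xp w y i) L) ^ a i) * Real.exp (exT l (fun z => t * Y z) w y) *
        Y (Wk l (xp w y k) L)) (pths κ L n) := fun w k =>
    tr_int_A l hF hM w (hΘm a) (hΘb a) (hY.comp ((Wk_meas l L).comp (xp_meas w k)))
      (fun y => hb _)
  have h5 : (∑ k ∈ Finset.range n, TA l (fun z => t * Y z) T (n := n)
      (fun z => ∏ i : Fin n, Y (z i) ^ (Function.update a k (a k + 1)) i)) =
      ∑ w : LM L n, T.p n w * ∫ y, (∏ i : Fin n, Y (Wk l (xp w y i) L) ^ a i) *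
        Real.exp (exT l (fun z => t * Y z) w y) * (∑ k : Fin n, Y (Wk l (xp w y k) L))
          ∂(pths κ L n) := by
    rw [Finset.sum_range]
    unfold TA
    rw [Finset.sum_comm]
    refine Finset.sum_congr rfl fun w _ => ?_
    rw [← Finset.mul_sum]
    congr 1
    have h6 : ∀ k : Fin n, (∫ y, (∏ i : Fin n, Y (Wk l (xp w y i) L) ^
        (Function.update a (k : ℕ) (a k + 1)) i) * Real.exp (exT l (fun z => t * Y z) w y)
          ∂(pths κ L n)) = ∫ y, (∏ i : Fin n, Y (Wk l (xp w y i) L) ^ a i) *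
          Real.exp (exT l (fun z => t * Y z) w y) * Y (Wk l (xp w y k) L) ∂(pths κ L n) := by
      intro k
      refine integral_congr_ae (Filter.Eventually.of_forall fun y => ?_)
      have h7 : (∏ i : Fin n, Y (Wk l (xp w y i) L) ^ (Function.update a (k : ℕ) (a k + 1)) i) =
          (∏ i : Fin n, Y (Wk l (xp w y i) L) ^ a i) * Y (Wk l (xp w y k) L) := by
        rw [← Finset.mul_prod_erase _ _ (Finset.mem_univ k), ← Finset.mul_prod_erase
          (Finset.univ : Finset (Fin n)) (fun i => Y (Wk l (xp w y i) L) ^ a i)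
          (Finset.mem_univ k), Function.update_self, pow_succ]
        have h8 : (∏ x ∈ Finset.univ.erase k, Y (Wk l (xp w y x) L) ^
            (Function.update a (k : ℕ) (a k + 1)) x) =
            ∏ x ∈ Finset.univ.erase k, Y (Wk l (xp w y x) L) ^ a x := by
          refine Finset.prod_congr rfl fun x hx => ?_
          rw [Function.update_of_ne]
          intro h9
          exact (Finset.mem_erase.1 hx).1 (Fin.ext h9)
        rw [h8]
        ring
      show (∏ i : Fin n, Y (Wk l (xp w y i) L) ^ (Function.update a (k : ℕ) (a k + 1)) i) *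
        Real.exp (exT l (fun z => t * Y z) w y) = _
      rw [h7]
      ring
    rw [Finset.sum_congr rfl fun k _ => h6 k, ← integral_finsetSum _ fun k _ => h4 w k]
    refine integral_congr_ae (Filter.Eventually.of_forall fun y => ?_)
    show (∑ k : Fin n, (∏ i : Fin n, Y (Wk l (xp w y i) L) ^ a i) *
      Real.exp (exT l (fun z => t * Y z) w y) * Y (Wk l (xp w y k) L)) = _
    rw [← Finset.mul_sum]
  rw [h5, ← Finset.sum_sub_distrib]
  refine Finset.sum_congr rfl fun w _ => ?_
  rw [← mul_sub]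
  congr 1
  have h10 : Integrable (fun y : Fin n → Pth κ L =>
      (∏ i : Fin n, Y (Wk l (xp w y i) L) ^ a i) * Real.exp (exT l (fun z => t * Y z) w y) *
        tr_S l t Y w y) (pths κ L n) :=
    tr_int_A l hF hM w (hΘm a) (hΘb a) (tr_S_meas l hY w t) (tr_S_bd l hY hb w t)
  have h11 : Integrable (fun y : Fin n → Pth κ L =>
      (∏ i : Fin n, Y (Wk l (xp w y i) L) ^ a i) * Real.exp (exT l (fun z => t * Y z) w y) *
        (∑ k : Fin n, Y (Wk l (xp w y k) L))) (pths κ L n) := by
    refine (integrable_finsetSum Finset.univ fun k _ => h4 w k).congr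
      (Filter.Eventually.of_forall fun y => ?_)
    show (∑ k : Fin n, (∏ i : Fin n, Y (Wk l (xp w y i) L) ^ a i) *
      Real.exp (exT l (fun z => t * Y z) w y) * Y (Wk l (xp w y k) L)) = _
    rw [← Finset.mul_sum]
  have h12 : (∫ y, (∏ i : Fin n, Y (Wk l (xp w y i) L) ^ a i) *
      Real.exp (exT l (fun z => t * Y z) w y) * ((∑ k : Fin n, Y (Wk l (xp w y k) L)) -
        tr_S l t Y w y) ∂(pths κ L n)) =
      (∫ y, (∏ i : Fin n, Y (Wk l (xp w y i) L) ^ a i) *
      Real.exp (exT l (fun z => t * Y z) w y) * (∑ k : Fin n, Y (Wk l (xp w y k) L))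
        ∂(pths κ L n)) - ∫ y, (∏ i : Fin n, Y (Wk l (xp w y i) L) ^ a i) *
      Real.exp (exT l (fun z => t * Y z) w y) * tr_S l t Y w y ∂(pths κ L n) := by
    rw [← integral_sub h11 h10]
    refine integral_congr_ae (Filter.Eventually.of_forall fun y => ?_)
    show _ = (∏ i : Fin n, Y (Wk l (xp w y i) L) ^ a i) *
      Real.exp (exT l (fun z => t * Y z) w y) * (∑ k : Fin n, Y (Wk l (xp w y k) L)) -
      (∏ i : Fin n, Y (Wk l (xp w y i) L) ^ a i) *
      Real.exp (exT l (fun z => t * Y z) w y) * tr_S l t Y w y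
    rw [← mul_sub]
  show _ = _ - (∫ y, (∏ i : Fin n, Y (Wk l (xp w y i) L) ^ a i) *
      Real.exp (exT l (fun z => t * Y z) w y) * ((∑ k : Fin n, Y (Wk l (xp w y k) L)) -
        tr_S l t Y w y) ∂(pths κ L n))
  rw [h12, sub_sub_cancel]

/-- [`tree_int_bd`, `T.sum_one`] -/
theorem tree_bd (l : List (Lev κ)) (hL : l.length = L) (T : TLaw L m) {F : (κ → ℝ) → ℝ}
    (hF : Measurable F) {M : ℝ} (hM : ∀ z, |F z| ≤ M) (hn : 0 < n)
    (Θ : (Fin n → κ → ℝ) → ℝ) (hΘ : Measurable Θ) (hΘb : ∀ z, |Θ z| ≤ 1) :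
    |TA l F T Θ| ≤ 1 := by
  unfold TA
  refine (Finset.abs_sum_le_sum_abs _ _).trans ?_
  rw [← T.sum_one n hn]
  refine Finset.sum_le_sum fun w _ => ?_
  rw [abs_mul, abs_of_nonneg (T.nonneg n w)]
  by_cases hp : T.p n w = 0
  · rw [hp, zero_mul]
  · exact mul_le_of_le_one_right (T.nonneg n w)
      (tree_int_bd l hL hF hM hn (T.supp _ _ hp) Θ hΘ hΘb)

/-- [`marg_one`, `T.one`, `T.supp`] -/
theorem tree_one (l : List (Lev κ)) (hL : l.length = L) (T : TLaw L m) {F Y : (κ → ℝ) → ℝ}
    (hF : Measurable F) {M : ℝ} (hM : ∀ z, |F z| ≤ M) (hY : Measurable Y) (hb : ∀ z, |Y z| ≤ 1) :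
    TA l F T (n := 1) (fun z => ∏ i : Fin 1, Y (z i) ^ (fun _ : ℕ => 1) i) = ChG l F Y 0 := by
  unfold TA
  have h1 : ∀ w : LM L 1, T.p 1 w * ∫ y, (∏ i : Fin 1, Y (Wk l (xp w y i) L) ^
      (fun _ : ℕ => 1) (i : ℕ)) * Real.exp (exT l F w y) ∂(pths κ L 1) =
      T.p 1 w * ChG l F Y 0 := by
    intro w
    by_cases hp : T.p 1 w = 0
    · rw [hp, zero_mul, zero_mul]
    · rw [← marg_one l hL hF hY hM hb (T.supp _ _ hp)]
      congr 1
      refine integral_congr_ae (Filter.Eventually.of_forall fun y => ?_)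
      show (∏ i : Fin 1, Y (Wk l (xp w y i) L) ^ 1) * Real.exp (exT l F w y) = _
      rw [Fin.prod_univ_one, pow_one]
  rw [Finset.sum_congr rfl fun w _ => h1 w, ← Finset.sum_mul, T.one, one_mul]

end SKC.G
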