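import Pool.Agent.H.MP_08eaf3_pr.G.Sy2
import Pool.Agent.H.MP_08eaf3_pr.G.Tr
import Pool.Agent.H.MP_08eaf3_pr.G.Hi
import Pool.Agent.H.MP_08eaf3_pr.G.In1

/-!
# Part G3: bounded functions of the field, one system
-/

set_option autoImplicit false

open MeasureTheory ProbabilityTheory Filter Topology Matrix

namespace SKC.G

variable {κ : Type} [Fintype κ] [DecidableEq κ] {L : ℕ}

omit [Fintype κ] [DecidableEq κ] in
theorem bd0_Ymeas {N : ℕ} (S : RS N) {ι : Type} [Fintype ι] (v : Cfg (Fin 2) N → κ → ι → ℝ)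
    (Y : (κ → ℝ) → ℝ) (hYm : Measurable Y) (ρ : Cfg (Fin 2) N) :
    Measurable (fun p : S.X × (ι → ℝ) => Y (fun c => dot p.2 (v ρ c))) := by
  refine hYm.comp (measurable_pi_lambda _ fun c => ?_)
  unfold dot
  refine Finset.measurable_fun_sum _ fun i _ => ?_
  exact ((measurable_pi_apply i).comp measurable_snd).mul_const _

omit [Fintype κ] [DecidableEq κ] in
theorem bd0_Ymeas2 {N : ℕ} {ι : Type} [Fintype ι] (v : Cfg (Fin 2) N → κ → ι → ℝ)
    (Y : (κ → ℝ) → ℝ) (hYm : Measurable Y) (ρ : Cfg (Fin 2) N) :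
    Measurable (fun y : ι → ℝ => Y (fun c => dot y (v ρ c))) := by
  refine hYm.comp (measurable_pi_lambda _ fun c => ?_)
  unfold dot
  refine Finset.measurable_fun_sum _ fun i _ => ?_
  exact (measurable_pi_apply i).mul_const _

theorem bd0_Gmeas {N : ℕ} (S : RS N) {ι : Type} (ρ : Cfg (Fin 2) N) :
    Measurable (fun p : S.X × (ι → ℝ) => S.G p.1 ρ) := (S.meas ρ).comp measurable_fst

/-- [`fld S (M Y) v` is the integral of `log (zz ..)` over `S.mu.prod (gam ι)`; `integral_prod`, bounded by `M`, measurable] -/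
theorem fld_eq {N : ℕ} (S : RS N) {ι : Type} [Fintype ι] (v : Cfg (Fin 2) N → κ → ι → ℝ)
    (Y : (κ → ℝ) → ℝ) (hYm : Measurable Y) (hY1 : ∀ z, |Y z| ≤ 1) (M : ℝ) :
    fld S (fun z => M * Y z) v =
      ∫ p, Real.log (zz (fun p ρ => S.G p.1 ρ) (fun p ρ => Y (fun c => dot p.2 (v ρ c))) M p)
        ∂(S.mu.prod (gam ι)) := by
  have h0 : ∀ (p : S.X × (ι → ℝ)) (ρ : Cfg (Fin 2) N), 0 ≤ S.G p.1 ρ := fun p ρ => S.nonneg _ _
  have h1 : ∀ p : S.X × (ι → ℝ), ∑ ρ, S.G p.1 ρ = 1 := fun p => S.sum_one _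
  have hY : ∀ (p : S.X × (ι → ℝ)) (ρ : Cfg (Fin 2) N), |Y (fun c => dot p.2 (v ρ c))| ≤ 1 :=
    fun p ρ => hY1 _
  have hint : Integrable (fun p : S.X × (ι → ℝ) => Real.log (zz (fun p ρ => S.G p.1 ρ)
      (fun p ρ => Y (fun c => dot p.2 (v ρ c))) M p)) (S.mu.prod (gam ι)) := by
    have hm : Measurable (fun p : S.X × (ι → ℝ) => Real.log (zz (fun p ρ => S.G p.1 ρ)
        (fun p ρ => Y (fun c => dot p.2 (v ρ c))) M p)) :=
      (zz_meas (G := fun (p : S.X × (ι → ℝ)) ρ => S.G p.1 ρ)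
        (Y := fun p ρ => Y (fun c => dot p.2 (v ρ c))) (bd0_Gmeas S) (bd0_Ymeas S v Y hYm) M).log
    refine Integrable.of_bound hm.aestronglyMeasurable |M| (Eventually.of_forall fun p => ?_)
    rw [Real.norm_eq_abs, abs_le]
    have hz := zz_pos h0 h1 hY M p
    constructor
    · rw [Real.le_log_iff_exp_le hz]
      exact zz_lower h0 h1 hY M p
    · rw [Real.log_le_iff_le_exp hz]
      exact zz_upper h0 h1 hY M p
  rw [integral_prod _ hint]
  rfl

/-- [`sys_zero` for `X = S.X × (ι → ℝ)`; `RS.avx_ext`-type Fubini: integrate the second variable first] -/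
theorem sys_zero_fld {N : ℕ} (S : RS N) {ι : Type} [Fintype ι] (v : Cfg (Fin 2) N → κ → ι → ℝ)
    (Y : (κ → ℝ) → ℝ) (hYm : Measurable Y) (hY1 : ∀ z, |Y z| ≤ 1) (n : ℕ) (a : ℕ → ℕ) :
    ∫ p, ∏ l ∈ Finset.range n, mo (fun p ρ => S.G p.1 ρ) (fun p ρ => Y (fun c => dot p.2 (v ρ c)))
        0 p (a l) ∂(S.mu.prod (gam ι)) =
      S.av (fun r : Fin n → Cfg (Fin 2) N =>
        ∫ y, ∏ i : Fin n, Y (fun c => dot y (v (r i) c)) ^ a i ∂(gam ι)) := by
  have h0 : ∀ (p : S.X × (ι → ℝ)) (ρ : Cfg (Fin 2) N), 0 ≤ S.G p.1 ρ := fun p ρ => S.nonneg _ _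
  have h1 : ∀ p : S.X × (ι → ℝ), ∑ ρ, S.G p.1 ρ = 1 := fun p => S.sum_one _
  rw [sys_zero (bd0_Gmeas S) (bd0_Ymeas S v Y hYm) (S.mu.prod (gam ι)) h0 h1 n a]
  have hG1 : ∀ (x : S.X) (ρ : Cfg (Fin 2) N), |S.G x ρ| ≤ 1 := by
    intro x ρ
    rw [abs_of_nonneg (S.nonneg x ρ), ← S.sum_one x]
    exact Finset.single_le_sum (fun ρ _ => S.nonneg x ρ) (Finset.mem_univ ρ)
  have hP1 : ∀ (y : ι → ℝ) (r : Fin n → Cfg (Fin 2) N),
      |∏ l : Fin n, Y (fun c => dot y (v (r l) c)) ^ a l| ≤ 1 := by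
    intro y r
    refine sy2_prod_le _ _ fun l _ => ?_
    rw [abs_pow]
    exact pow_le_one₀ (abs_nonneg _) (hY1 _)
  have hint : Integrable (fun p : S.X × (ι → ℝ) => ∑ r : Fin n → Cfg (Fin 2) N,
      (∏ l, S.G p.1 (r l)) * ∏ l : Fin n, Y (fun c => dot p.2 (v (r l) c)) ^ a l)
      (S.mu.prod (gam ι)) := by
    refine integrable_finset_sum _ fun r _ => ?_
    have hm : Measurable (fun p : S.X × (ι → ℝ) =>
        (∏ l, S.G p.1 (r l)) * ∏ l : Fin n, Y (fun c => dot p.2 (v (r l) c)) ^ a l) :=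
      (Finset.measurable_fun_prod _ fun l _ => bd0_Gmeas S (r l)).mul
        (Finset.measurable_fun_prod _ fun l _ => (bd0_Ymeas S v Y hYm (r l)).pow_const _)
    refine Integrable.of_bound hm.aestronglyMeasurable 1 (Eventually.of_forall fun p => ?_)
    rw [Real.norm_eq_abs, abs_mul]
    exact mul_le_one₀ (sy2_prod_le _ _ fun l _ => hG1 _ _) (abs_nonneg _) (hP1 _ _)
  rw [integral_prod _ hint]
  unfold RS.av RS.avx
  refine integral_congr_ae (Eventually.of_forall fun x => ?_)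
  dsimp only
  rw [integral_finset_sum]
  · refine Finset.sum_congr rfl fun r _ => ?_
    rw [integral_const_mul]
  · intro r _
    refine Integrable.const_mul ?_ _
    have hm : Measurable (fun y : ι → ℝ => ∏ l : Fin n, Y (fun c => dot y (v (r l) c)) ^ a l) :=
      Finset.measurable_fun_prod _ fun l _ => (bd0_Ymeas2 v Y hYm (r l)).pow_const _
    refine Integrable.of_bound hm.aestronglyMeasurable 1 (Eventually.of_forall fun y => ?_)
    rw [Real.norm_eq_abs]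
    exact hP1 y r

/-- **Bounded functions, one system.**  For all `M, CY, ε` there are `K`, `η` such that closeness `η` of the moments at `t = 0` for `n ≤ K` replicas and exponents `≤ K` gives closeness `ε` of
`E log <exp (M Y)>`.  [`hier_close` with `T0 = M`, `ε' = ε / M`, `D t n a = (sys moment) - TA lG (t Y) T (∏ Y^a)`: `Hier` by `sys_hier`, `tree_hier`, `Hier.sub`; `|D| ≤ 2` by `sys_bd`, `tree_bd`;
at `t = 0`: `sys_zero_fld`, `exT_zero`.  Then `g t = ∫ log (zz .. t) - PsiG lG (t Y) 0` has derivative `D t 1 (fun _ => 1)` (`sys_log`, `PsiG_deriv`, `tree_one`), `g 0 = 0` (`PsiG_zero`, `zz .. 0 = 1`), so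
`|g M| ≤ M ε'` (`Convex.norm_image_sub_le_of_norm_hasDerivWithin_le` on `[0, M]`); `fld_eq`.] -/
theorem bdd_one (M ε : ℝ) (hM : 0 < M) (hε : 0 < ε) : ∃ (K : ℕ) (η : ℝ), 0 < η ∧
    ∀ (L : ℕ) (m : ℕ → ℝ) (T : TLaw L m) (lG : List (Lev κ)), lG.length = L →
      (∀ j < L, m j = wt lG j) → ∀ (N : ℕ) (S : RS N) (ι : Type) (_ : Fintype ι)
      (v : Cfg (Fin 2) N → κ → ι → ℝ) (Y : (κ → ℝ) → ℝ), Measurable Y → (∀ z, |Y z| ≤ 1) →
      (∀ (n : ℕ) (a : ℕ → ℕ), 0 < n → n ≤ K → (∀ l, a l ≤ K) →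
        |S.av (fun r : Fin n → Cfg (Fin 2) N =>
            ∫ y, ∏ i : Fin n, Y (fun c => dot y (v (r i) c)) ^ a i ∂(gam ι)) -
          ∑ w : LM L n, T.p n w *
            ∫ y, ∏ i : Fin n, Y (Wk lG (xp w y i) L) ^ a i ∂(pths κ L n)| ≤ η) →
      |fld S (fun z => M * Y z) v - PsiG lG (fun z => M * Y z) 0| ≤ ε := by
  obtain ⟨K, η, hη, hK⟩ := hier_close M (ε / M) (by positivity)
  refine ⟨K, η, hη, ?_⟩
  intro L m T lG hL hm N S ι _ v Y hYm hY1 hclose
  set G : S.X × (ι → ℝ) → Cfg (Fin 2) N → ℝ := fun p ρ => S.G p.1 ρ with hG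
  set Yp : S.X × (ι → ℝ) → Cfg (Fin 2) N → ℝ := fun p ρ => Y (fun c => dot p.2 (v ρ c)) with hYp
  set μ := S.mu.prod (gam ι) with hμ
  have h0 : ∀ p ρ, 0 ≤ G p ρ := fun p ρ => S.nonneg _ _
  have h1 : ∀ p, ∑ ρ, G p ρ = 1 := fun p => S.sum_one _
  have hY : ∀ p ρ, |Yp p ρ| ≤ 1 := fun p ρ => hY1 _
  have hGm : ∀ ρ, Measurable (fun p => G p ρ) := bd0_Gmeas S
  have hYmm : ∀ ρ, Measurable (fun p => Yp p ρ) := bd0_Ymeas S v Y hYm
  have htY : ∀ (t : ℝ) (z : κ → ℝ), |t * Y z| ≤ |t| := fun t z => tr_Yb hY1 t z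
  set D : ℝ → ℕ → (ℕ → ℕ) → ℝ := fun t n a =>
    (∫ p, ∏ l ∈ Finset.range n, mo G Yp t p (a l) ∂μ) -
      TA lG (fun z => t * Y z) T (n := n) (fun z => ∏ i : Fin n, Y (z i) ^ a i) with hD
  have hHier : Hier D := Hier.sub (sys_hier hGm hYmm μ h0 h1 hY) (tree_hier lG hL T hm hYm hY1)
  have hΘm : ∀ (n : ℕ) (a : ℕ → ℕ), Measurable (fun z : Fin n → κ → ℝ => ∏ i : Fin n, Y (z i) ^ a i) :=
    fun n a => Finset.measurable_fun_prod _ fun i _ => (hYm.comp (measurable_pi_apply i)).pow_const _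
  have hΘb : ∀ (n : ℕ) (a : ℕ → ℕ) (z : Fin n → κ → ℝ), |∏ i : Fin n, Y (z i) ^ a i| ≤ 1 := by
    intro n a z
    refine sy2_prod_le _ _ fun l _ => ?_
    rw [abs_pow]
    exact pow_le_one₀ (abs_nonneg _) (hY1 _)
  have hDb : ∀ t n a, 0 < n → |D t n a| ≤ 2 := by
    intro t n a hn
    have e1 := sys_bd μ h0 h1 hY t n a
    have e2 := tree_bd lG hL T (hYm.const_mul t) (htY t) hn _ (hΘm n a) (hΘb n a)
    have e3 := abs_sub (∫ p, ∏ l ∈ Finset.range n, mo G Yp t p (a l) ∂μ)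
      (TA lG (fun z => t * Y z) T (n := n) (fun z => ∏ i : Fin n, Y (z i) ^ a i))
    calc |D t n a| ≤ _ := e3
      _ ≤ 1 + 1 := add_le_add e1 e2
      _ = 2 := by norm_num
  have hD0 : ∀ n a, 0 < n → n ≤ K → (∀ l, a l ≤ K) → |D 0 n a| ≤ η := by
    intro n a hn hnK haK
    have e1 := sys_zero_fld S v Y hYm hY1 n a
    have e2 : TA lG (fun z => 0 * Y z) T (n := n) (fun z => ∏ i : Fin n, Y (z i) ^ a i) =
        ∑ w : LM L n, T.p n w * ∫ y, ∏ i : Fin n, Y (Wk lG (xp w y i) L) ^ a i ∂(pths κ L n) := by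
      unfold TA
      refine Finset.sum_congr rfl fun w _ => ?_
      congr 1
      refine integral_congr_ae (Eventually.of_forall fun y => ?_)
      dsimp only
      rw [exT_zero, Real.exp_zero, mul_one]
    have e3 : D 0 n a = S.av (fun r : Fin n → Cfg (Fin 2) N =>
        ∫ y, ∏ i : Fin n, Y (fun c => dot y (v (r i) c)) ^ a i ∂(gam ι)) -
        ∑ w : LM L n, T.p n w * ∫ y, ∏ i : Fin n, Y (Wk lG (xp w y i) L) ^ a i ∂(pths κ L n) := by
      rw [← e1, ← e2]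
    rw [e3]
    exact hclose n a hn hnK haK
  have hbound := hK D hHier hDb hD0
  set g : ℝ → ℝ := fun t => (∫ p, Real.log (zz G Yp t p) ∂μ) - PsiG lG (fun z => t * Y z) 0 with hg
  have hgd : ∀ t, HasDerivAt g (D t 1 (fun _ => 1)) t := by
    intro t
    have e1 := sys_log hGm hYmm μ h0 h1 hY t
    have e2 := PsiG_deriv lG hYm hY1 t 0
    have e3 := tree_one lG hL T (hYm.const_mul t) (htY t) hYm hY1
    have e4 := e1.sub e2
    rw [← e3] at e4
    exact e4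
  have hg0 : g 0 = 0 := by
    have e1 : ∀ p, Real.log (zz G Yp 0 p) = 0 := by
      intro p
      have : zz G Yp 0 p = 1 := by
        unfold zz
        simp only [zero_mul, Real.exp_zero, mul_one]
        exact h1 p
      rw [this, Real.log_one]
    have e2 : (fun z => 0 * Y z) = fun _ : κ → ℝ => (0 : ℝ) := by
      funext z
      exact zero_mul _
    simp only [hg]
    rw [e2, PsiG_zero]
    simp [e1]
  have hmv := Convex.norm_image_sub_le_of_norm_hasDerivWithin_le (f := g)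
    (f' := fun t => D t 1 (fun _ => 1)) (C := ε / M) (s := Set.Icc 0 M) (x := 0) (y := M)
    (fun t _ => (hgd t).hasDerivWithinAt) (fun t ht => by
      rw [Real.norm_eq_abs]
      exact hbound t ht) (convex_Icc 0 M) ⟨le_rfl, hM.le⟩ ⟨hM.le, le_rfl⟩
  rw [hg0, sub_zero, sub_zero, Real.norm_eq_abs, Real.norm_eq_abs, abs_of_pos hM,
    div_mul_cancel₀ _ hM.ne'] at hmv
  rw [fld_eq S v Y hYm hY1 M]
  exact hmv

end SKC.G
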