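import Pool.Agent.H.MP_08eaf3_pr.A.Mom
import Pool.Agent.H.MP_08eaf3_pr.G.Defs

/-!
# Part G3: comparison of Gaussian vectors with close covariances
-/

set_option autoImplicit false

open MeasureTheory ProbabilityTheory Filter Topology Matrix
open scoped MatrixOrder ComplexOrder

namespace SKC.G

section

variable {α ι ι' : Type} [Fintype α] [Fintype ι] [Fintype ι']

/-- features of a positive semidefinite matrix.  [`Matrix.posSemidef_iff_eq_conjTranspose_mul_self` or the square root; `u a k = B k a`.] -/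
theorem psd_feat (M : Matrix α α ℝ) (hM : M.PosSemidef) :
    ∃ u : α → α → ℝ, ∀ a b, dot (u a) (u b) = M a b := by
  classical
  obtain ⟨B, hB⟩ := CStarAlgebra.nonneg_iff_eq_star_mul_self.mp hM.nonneg
  refine ⟨fun a k => B k a, fun a b => ?_⟩
  rw [hB, Matrix.star_eq_conjTranspose, Matrix.conjTranspose_eq_transpose_of_trivial,
    Matrix.mul_apply]
  rfl

/-- [`s ⬝ (K - K') s ≥ - δ (∑ |s a|)² ≥ - δ * card * ∑ s a ²`; `K`, `K'` Gram matrices, symmetric] -/
theorem psd_shift [DecidableEq α] (v : α → ι → ℝ) (v' : α → ι' → ℝ) (δ : ℝ) (hδ : 0 ≤ δ)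
    (h : ∀ a b, |dot (v a) (v b) - dot (v' a) (v' b)| ≤ δ) :
    (Matrix.of (fun a b => dot (v a) (v b) - dot (v' a) (v' b) +
      if a = b then (Fintype.card α : ℝ) * δ else 0)).PosSemidef := by
  rw [Matrix.posSemidef_iff_dotProduct_mulVec]
  constructor
  · ext a b
    simp only [Matrix.conjTranspose_apply, Matrix.of_apply, star_trivial]
    rw [A.dot_comm (v b) (v a), A.dot_comm (v' b) (v' a)]
    congr 1
    by_cases hab : a = b
    · simp [hab]
    · simp [hab, Ne.symm hab]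
  · intro x
    have e1 : star x ⬝ᵥ (Matrix.of (fun a b => dot (v a) (v b) - dot (v' a) (v' b) +
        if a = b then (Fintype.card α : ℝ) * δ else 0) *ᵥ x) =
        (∑ a, ∑ b, x a * x b * (dot (v a) (v b) - dot (v' a) (v' b))) +
          (Fintype.card α : ℝ) * δ * ∑ a, x a ^ 2 := by
      rw [Finset.mul_sum, ← Finset.sum_add_distrib]
      unfold dotProduct Matrix.mulVec dotProduct
      refine Finset.sum_congr rfl fun a _ => ?_
      rw [Finset.mul_sum]
      have h1 : (Fintype.card α : ℝ) * δ * x a ^ 2 =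
          ∑ b, (if a = b then (Fintype.card α : ℝ) * δ * x a ^ 2 else 0) := by
        rw [Finset.sum_ite_eq Finset.univ a, if_pos (Finset.mem_univ a)]
      rw [h1, ← Finset.sum_add_distrib]
      refine Finset.sum_congr rfl fun b _ => ?_
      simp only [Matrix.of_apply, Pi.star_apply, star_trivial]
      by_cases hab : a = b
      · subst hab
        simp only [if_true]
        ring
      · simp only [if_neg hab]
        ring
    rw [e1]
    have e2 : ∀ a b, -(δ * (|x a| * |x b|)) ≤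
        x a * x b * (dot (v a) (v b) - dot (v' a) (v' b)) := by
      intro a b
      have h1 := h a b
      have h2 : |x a * x b * (dot (v a) (v b) - dot (v' a) (v' b))| ≤ δ * (|x a| * |x b|) := by
        rw [abs_mul, abs_mul, mul_comm]
        exact mul_le_mul_of_nonneg_right h1 (by positivity)
      exact (abs_le.1 h2).1
    have e3 : -(δ * (∑ a, |x a|) ^ 2) ≤
        ∑ a, ∑ b, x a * x b * (dot (v a) (v b) - dot (v' a) (v' b)) := by
      have h1 : -(δ * (∑ a, |x a|) ^ 2) = ∑ a, ∑ b, -(δ * (|x a| * |x b|)) := by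
        rw [sq, Finset.sum_mul_sum, Finset.mul_sum, ← Finset.sum_neg_distrib]
        refine Finset.sum_congr rfl fun a _ => ?_
        rw [Finset.mul_sum, ← Finset.sum_neg_distrib]
      rw [h1]
      exact Finset.sum_le_sum fun a _ => Finset.sum_le_sum fun b _ => e2 a b
    have e4 : (∑ a, |x a|) ^ 2 ≤ (Fintype.card α : ℝ) * ∑ a, x a ^ 2 := by
      have h1 := sq_sum_le_card_mul_sum_sq (s := (Finset.univ : Finset α)) (f := fun a => |x a|)
      simpa using h1
    have e5 := mul_le_mul_of_nonneg_left e4 hδ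
    linarith

theorem ga_cont (Θ : (α → ℝ) → ℝ) (C : ℝ) (hC : 0 ≤ C)
    (hΘ : ∀ x y, |Θ x - Θ y| ≤ C * ∑ a, |x a - y a|) : Continuous Θ := by
  have h0 : (0 : ℝ) ≤ C * Fintype.card α := by positivity
  refine (LipschitzWith.of_dist_le_mul (K := ⟨C * Fintype.card α, h0⟩) fun x y => ?_).continuous
  rw [Real.dist_eq]
  refine (hΘ x y).trans ?_
  have h1 : ∑ a, |x a - y a| ≤ ∑ _a : α, dist x y := Finset.sum_le_sum fun a _ => by
    rw [← Real.dist_eq]
    exact dist_le_pi_dist x y a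
  have h2 : ∑ _a : α, dist x y = Fintype.card α * dist x y := by
    rw [Finset.sum_const, Finset.card_univ, nsmul_eq_mul]
  rw [h2] at h1
  have h3 := mul_le_mul_of_nonneg_left h1 hC
  rw [← mul_assoc] at h3
  exact h3

theorem ga_lg {κ : Type} [Fintype κ] (w : α → κ → ℝ) (Θ : (α → ℝ) → ℝ) (C : ℝ) (hC : 0 ≤ C)
    (hΘ : ∀ x y, |Θ x - Θ y| ≤ C * ∑ a, |x a - y a|) :
    LG (fun x : κ → ℝ => Θ (fun a => dot x (w a))) := by
  refine ⟨(ga_cont Θ C hC hΘ).comp (continuous_pi fun a => A.continuous_dot_left (w a)),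
    |Θ 0| + C * ∑ a, n1 (w a), fun x => ?_⟩
  have h1 := hΘ (fun a => dot x (w a)) 0
  have h2 : ∑ a, |(fun a => dot x (w a)) a - (0 : α → ℝ) a| ≤ (∑ a, n1 (w a)) * n1 x := by
    rw [Finset.sum_mul]
    refine Finset.sum_le_sum fun a _ => ?_
    rw [Pi.zero_apply, sub_zero, mul_comm]
    exact A.abs_dot_le_n1 x (w a)
  have h3 : |Θ (fun a => dot x (w a))| ≤ |Θ (fun a => dot x (w a)) - Θ 0| + |Θ 0| := by
    have := abs_add_le (Θ (fun a => dot x (w a)) - Θ 0) (Θ 0)
    rwa [sub_add_cancel] at this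
  have h4 : C * ∑ a, |(fun a => dot x (w a)) a - (0 : α → ℝ) a| ≤ C * ((∑ a, n1 (w a)) * n1 x) :=
    mul_le_mul_of_nonneg_left h2 hC
  have h5 : 0 ≤ ∑ a, n1 (w a) := Finset.sum_nonneg fun a _ => A.n1_nonneg _
  have h6 : 0 ≤ n1 x := A.n1_nonneg _
  have h7 : 0 ≤ |Θ 0| * n1 x := by positivity
  have h8 : 0 ≤ C * ∑ a, n1 (w a) := mul_nonneg hC h5
  calc |Θ (fun a => dot x (w a))| ≤ C * ((∑ a, n1 (w a)) * n1 x) + |Θ 0| := by linarith
    _ ≤ (|Θ 0| + C * ∑ a, n1 (w a)) * (1 + n1 x) := by nlinarith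

theorem ga_law {κ κ' : Type} [Fintype κ] [Fintype κ'] (w : α → κ → ℝ) (w' : α → κ' → ℝ)
    (h : ∀ a b, dot (w a) (w b) = dot (w' a) (w' b)) (Θ : (α → ℝ) → ℝ) (hΘ : Continuous Θ) :
    ∫ x, Θ (fun a => dot x (w a)) ∂(gam κ) = ∫ x, Θ (fun a => dot x (w' a)) ∂(gam κ') := by
  have hm : Continuous fun (x : κ → ℝ) (a : α) => dot x (w a) :=
    continuous_pi fun a => A.continuous_dot_left (w a)
  have hm' : Continuous fun (x : κ' → ℝ) (a : α) => dot x (w' a) :=
    continuous_pi fun a => A.continuous_dot_left (w' a)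
  have h1 : ∫ y, Θ y ∂((gam κ).map fun x a => dot x (w a)) =
      ∫ x, Θ (fun a => dot x (w a)) ∂(gam κ) :=
    integral_map hm.measurable.aemeasurable hΘ.aestronglyMeasurable
  have h2 : ∫ y, Θ y ∂((gam κ').map fun x a => dot x (w' a)) =
      ∫ x, Θ (fun a => dot x (w' a)) ∂(gam κ') :=
    integral_map hm'.measurable.aemeasurable hΘ.aestronglyMeasurable
  rw [← h1, ← h2, A.law_map_field_eq w w' h]

theorem ga_abs {κ : Type} [Fintype κ] (w : κ → ℝ) :
    ∫ x, |dot x w| ∂(gam κ) ≤ Real.sqrt (dot w w) := by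
  have i1 : Integrable (fun x : κ → ℝ => |dot x w|) (gam κ) := (EG.dot_right w).abs.integrable
  have i2 : Integrable (fun x : κ → ℝ => dot x w * dot x w) (gam κ) :=
    ((EG.dot_right w).mul (EG.dot_right w)).integrable
  obtain ⟨c, hc⟩ : ∃ c : ℝ, c = ∫ x, |dot x w| ∂(gam κ) := ⟨_, rfl⟩
  rw [← hc]
  have h1 : 0 ≤ ∫ x, (dot x w * dot x w - 2 * c * |dot x w| + c ^ 2) ∂(gam κ) := by
    refine integral_nonneg fun x => ?_
    show 0 ≤ dot x w * dot x w - 2 * c * |dot x w| + c ^ 2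
    have h2 : dot x w * dot x w = |dot x w| ^ 2 := by rw [sq_abs, sq]
    rw [h2]
    nlinarith [sq_nonneg (|dot x w| - c)]
  have h3 : ∫ x, (dot x w * dot x w - 2 * c * |dot x w| + c ^ 2) ∂(gam κ) =
      dot w w - 2 * c * c + c ^ 2 := by
    have i4 : Integrable (fun x : κ → ℝ => dot x w * dot x w - 2 * c * |dot x w|) (gam κ) :=
      i2.sub (i1.const_mul _)
    rw [integral_add i4 (integrable_const _),
      integral_sub i2 (i1.const_mul _), A.integral_dot_mul_dot, integral_const_mul, ← hc]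
    simp
  rw [h3] at h1
  refine Real.le_sqrt_of_sq_le ?_
  nlinarith

/-- adding a small independent Gaussian vector changes the expectation of a Lipschitz function little.
[`integral_gam_sum'` for the features `Sum.elim (v a) (u a)` (a Lipschitz function has linear growth, so `EG`);
`|Θ (X + η) - Θ X| ≤ C ∑ |η a|`, `∫ |dot y (u a)| ≤ sqrt (∫ (dot y (u a))²) = sqrt (dot (u a) (u a)) ≤ sqrt s` (`A.integral_dot_mul_dot`, Cauchy-Schwarz with `1`).] -/
theorem add_noise (v : α → ι → ℝ) (u : α → ι' → ℝ) (s : ℝ) (hs : ∀ a, dot (u a) (u a) ≤ s)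
    (Θ : (α → ℝ) → ℝ) (C : ℝ) (hC : 0 ≤ C) (hΘ : ∀ x y, |Θ x - Θ y| ≤ C * ∑ a, |x a - y a|) :
    |∫ x, Θ (fun a => dot x (Sum.elim (v a) (u a))) ∂(gam (ι ⊕ ι')) -
      ∫ x, Θ (fun a => dot x (v a)) ∂(gam ι)| ≤ C * (Fintype.card α * Real.sqrt s) := by
  have h1 : ∫ x, Θ (fun a => dot x (v a)) ∂(gam ι) =
      ∫ x, Θ (fun a => dot x (Sum.elim (v a) (0 : ι' → ℝ))) ∂(gam (ι ⊕ ι')) := by
    refine ga_law _ _ (fun a b => ?_) Θ (ga_cont Θ C hC hΘ)
    rw [A.dot_sum_elim, A.dot_zero_left, add_zero]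
  have i1 := (ga_lg (fun a => Sum.elim (v a) (u a)) Θ C hC hΘ).integrable
  have i2 := (ga_lg (fun a => Sum.elim (v a) (0 : ι' → ℝ)) Θ C hC hΘ).integrable
  have i3 : ∀ a, Integrable (fun x : ι ⊕ ι' → ℝ => |dot x (Sum.elim (0 : ι → ℝ) (u a))|)
      (gam (ι ⊕ ι')) := fun a => (EG.dot_right _).abs.integrable
  rw [h1, ← integral_sub i1 i2]
  refine abs_integral_le_integral_abs.trans ?_
  have h2 : ∫ x, |Θ (fun a => dot x (Sum.elim (v a) (u a))) -
      Θ (fun a => dot x (Sum.elim (v a) (0 : ι' → ℝ)))| ∂(gam (ι ⊕ ι')) ≤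
      ∫ x, C * ∑ a, |dot x (Sum.elim (0 : ι → ℝ) (u a))| ∂(gam (ι ⊕ ι')) := by
    refine integral_mono (i1.sub i2).abs
      ((integrable_finsetSum _ fun a _ => i3 a).const_mul _) fun x => ?_
    refine (hΘ _ _).trans (le_of_eq ?_)
    congr 1
    refine Finset.sum_congr rfl fun a _ => ?_
    congr 1
    have h3 : Sum.elim (v a) (u a) = Sum.elim (v a) (0 : ι' → ℝ) + Sum.elim (0 : ι → ℝ) (u a) := by
      funext i
      rcases i with i | i <;> simp
    rw [h3, A.dot_add_right]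
    ring
  refine h2.trans ?_
  rw [integral_const_mul, integral_finsetSum _ fun a _ => i3 a]
  refine mul_le_mul_of_nonneg_left ?_ hC
  have h4 : ∀ a, ∫ x, |dot x (Sum.elim (0 : ι → ℝ) (u a))| ∂(gam (ι ⊕ ι')) ≤ Real.sqrt s := by
    intro a
    refine (ga_abs _).trans (Real.sqrt_le_sqrt ?_)
    rw [A.dot_sum_elim, A.dot_zero_left, zero_add]
    exact hs a
  refine (Finset.sum_le_sum fun a _ => h4 a).trans ?_
  rw [Finset.sum_const, Finset.card_univ, nsmul_eq_mul]

/-- **Comparison.**  [`A := card α`.  Features `V = Sum.elim v (sqrt (A δ) e_a)` and `V' = Sum.elim v' u` with `u` from `psd_feat`, `psd_shift`: same Gram matrix, so same law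
(`A.law_map_field_eq`); `add_noise` twice; the diagonal entries of `u` are at most `δ + A δ`.] -/
theorem gauss_cmp (v : α → ι → ℝ) (v' : α → ι' → ℝ) (δ : ℝ) (hδ : 0 ≤ δ)
    (h : ∀ a b, |dot (v a) (v b) - dot (v' a) (v' b)| ≤ δ)
    (Θ : (α → ℝ) → ℝ) (C : ℝ) (hC : 0 ≤ C) (hΘ : ∀ x y, |Θ x - Θ y| ≤ C * ∑ a, |x a - y a|) :
    |∫ x, Θ (fun a => dot x (v a)) ∂(gam ι) - ∫ x, Θ (fun a => dot x (v' a)) ∂(gam ι')| ≤
      2 * C * Fintype.card α * Real.sqrt ((Fintype.card α + 1) * δ) := by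
  classical
  obtain ⟨u, hu⟩ := psd_feat _ (psd_shift v v' δ hδ h)
  have hA : (0 : ℝ) ≤ Fintype.card α := Nat.cast_nonneg _
  have hAδ : 0 ≤ (Fintype.card α : ℝ) * δ := mul_nonneg hA hδ
  obtain ⟨r, hr⟩ : ∃ r : ℝ, r = Real.sqrt ((Fintype.card α : ℝ) * δ) := ⟨_, rfl⟩
  have hrr : r * r = (Fintype.card α : ℝ) * δ := by rw [hr]; exact Real.mul_self_sqrt hAδ
  have h1 := add_noise v (fun a => (Pi.single a r : α → ℝ)) ((Fintype.card α + 1) * δ)
    (fun a => by
      rw [A.dot_single, Pi.single_eq_same, hrr]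
      linarith) Θ C hC hΘ
  have h2 := add_noise v' u ((Fintype.card α + 1) * δ)
    (fun a => by
      rw [hu a a]
      simp only [Matrix.of_apply, if_true]
      have := (abs_le.1 (h a a)).2
      linarith) Θ C hC hΘ
  have h3 : ∫ x, Θ (fun a => dot x (Sum.elim (v a) (Pi.single a r : α → ℝ))) ∂(gam (ι ⊕ α)) =
      ∫ x, Θ (fun a => dot x (Sum.elim (v' a) (u a))) ∂(gam (ι' ⊕ α)) := by
    refine ga_law _ _ (fun a b => ?_) Θ (ga_cont Θ C hC hΘ)
    rw [A.dot_sum_elim, A.dot_sum_elim, hu a b, A.dot_single]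
    simp only [Matrix.of_apply]
    by_cases hab : a = b
    · subst hab
      rw [Pi.single_eq_same, hrr, if_pos rfl]
      ring
    · rw [if_neg hab, Pi.single_eq_of_ne (Ne.symm hab)]
      ring
  rw [h3] at h1
  rw [abs_le] at h1 h2 ⊢
  have h4 : 2 * C * Fintype.card α * Real.sqrt ((Fintype.card α + 1) * δ) =
      C * (Fintype.card α * Real.sqrt ((Fintype.card α + 1) * δ)) +
      C * (Fintype.card α * Real.sqrt ((Fintype.card α + 1) * δ)) := by ring
  rw [h4]
  constructor <;> linarith [h1.1, h1.2, h2.1, h2.2]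

end

end SKC.G
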