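import Pool.Agent.H.MP_08eaf3_pr.B.Cls
import Pool.Agent.H.MP_08eaf3_pr.A.Mom
import Pool.Agent.H.MP_08eaf3_pr.G.Defs

/-!
# Part G4: the gap inequality for level functions
-/

set_option autoImplicit false

open MeasureTheory ProbabilityTheory Filter Topology Matrix

namespace SKC.G

variable {κ : Type} [Fintype κ]

theorem gp_Tm_add (m : ℝ) (B : Matrix κ κ ℝ) {g : (κ → ℝ) → ℝ} (hg : LG g) (c : ℝ)
    (z : κ → ℝ) : Tm m B (fun y => g y + c) z = Tm m B g z + c := by
  by_cases hm0 : m = 0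
  · subst hm0
    have e1 : Tm 0 B (fun y => g y + c) z = ∫ x, (g (z + B.mulVec x) + c) ∂(gam κ) := by simp [Tm]
    have e2 : Tm 0 B g z = ∫ x, g (z + B.mulVec x) ∂(gam κ) := by simp [Tm]
    rw [e1, e2, integral_add (hg.comp_affine z B).integrable (integrable_const c), integral_const,
      probReal_univ, one_smul]
  · have e1 : Tm m B (fun y => g y + c) z =
        (1 / m) * Real.log (∫ x, Real.exp (m * (g (z + B.mulVec x) + c)) ∂(gam κ)) := by
      simp [Tm, hm0]
    have e2 : Tm m B g z = (1 / m) * Real.log (∫ x, Real.exp (m * g (z + B.mulVec x)) ∂(gam κ)) := by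
      simp [Tm, hm0]
    obtain ⟨hZ, -⟩ := SKC.B.LG_Z hg m B z
    have e3 : ∫ x, Real.exp (m * (g (z + B.mulVec x) + c)) ∂(gam κ) =
        (∫ x, Real.exp (m * g (z + B.mulVec x)) ∂(gam κ)) * Real.exp (m * c) := by
      rw [← integral_mul_const]
      refine integral_congr_ae (Filter.Eventually.of_forall (fun x => ?_))
      simp only
      rw [← Real.exp_add]
      congr 1
      ring
    rw [e1, e2, e3, Real.log_mul hZ.ne' (Real.exp_pos _).ne', Real.log_exp]
    field_simp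

theorem gp_Tm_nonneg {m : ℝ} (hm : 0 ≤ m) (B : Matrix κ κ ℝ) {g : (κ → ℝ) → ℝ} (hg : LG g)
    (h : ∀ z, 0 ≤ g z) (z : κ → ℝ) : 0 ≤ Tm m B g z := by
  by_cases hm0 : m = 0
  · subst hm0
    have e2 : Tm 0 B g z = ∫ x, g (z + B.mulVec x) ∂(gam κ) := by simp [Tm]
    rw [e2]
    exact integral_nonneg (fun x => h _)
  · have e2 : Tm m B g z = (1 / m) * Real.log (∫ x, Real.exp (m * g (z + B.mulVec x)) ∂(gam κ)) := by
      simp [Tm, hm0]
    obtain ⟨hZ, hi⟩ := SKC.B.LG_Z hg m B z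
    rw [e2]
    refine mul_nonneg (by positivity) (Real.log_nonneg ?_)
    calc (1 : ℝ) = ∫ _x : κ → ℝ, (1 : ℝ) ∂(gam κ) := by
          rw [integral_const, probReal_univ, one_smul]
      _ ≤ _ := integral_mono (integrable_const 1) hi
          (fun x => Real.one_le_exp (mul_nonneg hm (h _)))

theorem gp_GxG_nonneg (l : List (Lev κ)) {h : (κ → ℝ) → ℝ} (h0 : ∀ z, 0 ≤ h z) :
    ∀ z, 0 ≤ GxG l h z := by
  induction l with
  | nil => exact h0
  | cons s l ih =>
    intro z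
    exact integral_nonneg (fun x => ih _)

theorem gp_dot_mulVec (c x : κ → ℝ) (B : Matrix κ κ ℝ) :
    dot c (B.mulVec x) = dot x (Bᵀ.mulVec c) := by
  unfold dot
  simp only [Matrix.mulVec, dotProduct, Matrix.transpose_apply, Finset.mul_sum]
  rw [Finset.sum_comm]
  refine Finset.sum_congr rfl (fun i _ => Finset.sum_congr rfl (fun j _ => ?_))
  ring

theorem gp_dot_tr (c : κ → ℝ) (B : Matrix κ κ ℝ) :
    dot (Bᵀ.mulVec c) (Bᵀ.mulVec c) = ∑ i, ∑ j, c i * (B * Bᵀ) i j * c j := by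
  rw [← gp_dot_mulVec]
  unfold dot
  refine Finset.sum_congr rfl (fun i _ => ?_)
  rw [Matrix.mulVec_mulVec]
  simp only [Matrix.mulVec, dotProduct, Finset.mul_sum]
  refine Finset.sum_congr rfl (fun j _ => ?_)
  ring

/-- [`B.LG_Tm`] -/
theorem LG_PsiG (l : List (Lev κ)) {f : (κ → ℝ) → ℝ} (hf : LG f) : LG (PsiG l f) := by
  induction l with
  | nil => exact hf
  | cons s l ih => exact SKC.B.LG_Tm ih _ _

/-- [`B.Tm_mono`] -/
theorem PsiG_mono (l : List (Lev κ)) (hl : ∀ a ∈ l, 0 ≤ a.1) {f g : (κ → ℝ) → ℝ} (hf : LG f)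
    (hg : LG g) (h : ∀ z, f z ≤ g z) : ∀ z, PsiG l f z ≤ PsiG l g z := by
  induction l with
  | nil => exact h
  | cons s l ih =>
    intro z
    exact SKC.B.Tm_mono (LG_PsiG l hf) (LG_PsiG l hg) (hl s (by simp)) _
      (ih (fun a ha => hl a (by simp [ha]))) z

/-- adding a constant.  [`m = 0`: linearity; `m ≠ 0`: `exp (m (f + c)) = exp (m c) exp (m f)`, the integral is positive (`B.LG_Z`)] -/
theorem PsiG_add_const (l : List (Lev κ)) {f : (κ → ℝ) → ℝ} (hf : LG f) (c : ℝ) :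
    ∀ z, PsiG l (fun y => f y + c) z = PsiG l f z + c := by
  induction l with
  | nil => intro z; rfl
  | cons s l ih =>
    intro z
    have h1 : PsiG l (fun y => f y + c) = fun z => PsiG l f z + c := funext ih
    show Tm s.1 s.2 (PsiG l (fun y => f y + c)) z = Tm s.1 s.2 (PsiG l f) z + c
    rw [h1]
    exact gp_Tm_add s.1 s.2 (LG_PsiG l hf) c z

theorem PsiG_nonneg (l : List (Lev κ)) (hl : ∀ a ∈ l, 0 ≤ a.1) {f : (κ → ℝ) → ℝ} (hf : LG f)
    (h : ∀ z, 0 ≤ f z) : ∀ z, 0 ≤ PsiG l f z := by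
  induction l with
  | nil => exact h
  | cons s l ih =>
    intro z
    exact gp_Tm_nonneg (hl s (by simp)) s.2 (LG_PsiG l hf)
      (ih (fun a ha => hl a (by simp [ha]))) z

/-- plain Gaussian smoothing preserves the class `EG`.  [`EG.integral_affine`] -/
theorem EG_GxG (l : List (Lev κ)) {h : (κ → ℝ) → ℝ} (hh : EG h) : EG (GxG l h) := by
  induction l with
  | nil => exact hh
  | cons s l ih => exact ih.integral_affine s.2

theorem GxG_mono (l : List (Lev κ)) {h h' : (κ → ℝ) → ℝ} (hh : EG h) (hh' : EG h')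
    (hle : ∀ z, h z ≤ h' z) : ∀ z, GxG l h z ≤ GxG l h' z := by
  induction l with
  | nil => exact hle
  | cons s l ih =>
    intro z
    exact integral_mono ((EG_GxG l hh).comp_affine z s.2).integrable
      ((EG_GxG l hh').comp_affine z s.2).integrable (fun x => ih _)

theorem GxG_const_mul (l : List (Lev κ)) (c : ℝ) (h : (κ → ℝ) → ℝ) :
    ∀ z, GxG l (fun y => c * h y) z = c * GxG l h z := by
  induction l with
  | nil => intro z; rfl
  | cons s l ih =>
    intro z
    show ∫ x, GxG l (fun y => c * h y) (z + s.2.mulVec x) ∂(gam κ) =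
      c * ∫ x, GxG l h (z + s.2.mulVec x) ∂(gam κ)
    rw [← integral_const_mul]
    exact integral_congr_ae (Filter.Eventually.of_forall (fun x => ih _))

theorem GxG_sum (l : List (Lev κ)) {J : Type} (s : Finset J) (h : J → (κ → ℝ) → ℝ)
    (hh : ∀ j, EG (h j)) : ∀ z, GxG l (fun y => ∑ j ∈ s, h j y) z = ∑ j ∈ s, GxG l (h j) z := by
  induction l with
  | nil => intro z; rfl
  | cons a l ih =>
    intro z
    show ∫ x, GxG l (fun y => ∑ j ∈ s, h j y) (z + a.2.mulVec x) ∂(gam κ) =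
      ∑ j ∈ s, ∫ x, GxG l (h j) (z + a.2.mulVec x) ∂(gam κ)
    rw [← integral_finsetSum s (fun j _ => ((EG_GxG l (hh j)).comp_affine z a.2).integrable)]
    exact integral_congr_ae (Filter.Eventually.of_forall (fun x => ih _))

/-- exponentials.  [induction on `l`; one step: `∫ exp (dot c (z + B x)) = exp (dot c z) * exp (½ |Bᵀ c|²)` (`A.integral_exp_dot`), and `|Bᵀ c|² = ∑ c c' c_c (B Bᵀ) c_c'`] -/
theorem GxG_exp (l : List (Lev κ)) (c : κ → ℝ) : ∀ z : κ → ℝ,
    GxG l (fun y => Real.exp (dot c y)) z =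
      Real.exp (dot c z + (1 / 2) * ∑ i, ∑ j, c i * CovG l i j * c j) := by
  induction l with
  | nil =>
    intro z
    simp [GxG, CovG]
  | cons s l ih =>
    intro z
    show ∫ x, GxG l (fun y => Real.exp (dot c y)) (z + s.2.mulVec x) ∂(gam κ) = _
    have h1 : ∀ x : κ → ℝ, GxG l (fun y => Real.exp (dot c y)) (z + s.2.mulVec x) =
        Real.exp (dot c z + (1 / 2) * ∑ i, ∑ j, c i * CovG l i j * c j) *
          Real.exp (dot x (s.2ᵀ.mulVec c)) := by
      intro x
      rw [ih, ← Real.exp_add, A.dot_add_right, gp_dot_mulVec]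
      congr 1
      ring
    simp_rw [h1]
    rw [integral_const_mul, A.integral_exp_dot, ← Real.exp_add, gp_dot_tr]
    congr 1
    have h2 : CovG (s :: l) = s.2 * s.2ᵀ + CovG l := by
      simp [CovG]
    rw [h2]
    have h3 : (∑ i, ∑ j, c i * (s.2 * s.2ᵀ + CovG l) i j * c j) =
        (∑ i, ∑ j, c i * (s.2 * s.2ᵀ) i j * c j) + ∑ i, ∑ j, c i * CovG l i j * c j := by
      rw [← Finset.sum_add_distrib]
      refine Finset.sum_congr rfl (fun i _ => ?_)
      rw [← Finset.sum_add_distrib]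
      refine Finset.sum_congr rfl (fun j _ => ?_)
      rw [Matrix.add_apply]
      ring
    rw [h3]
    ring

/-- one step of the gap inequality.  [`D = f - g`.  `m ≠ 0`, so `0 < m ≤ 1`: `Tm m B f z - Tm m B g z = -(1/m) log (E[e^{mf} e^{-mD}] / E[e^{mf}]) ≤ E[e^{mf} D] / E[e^{mf}]`
(`-log x ≤ ...` by Jensen, or: `e^{-mD} ≥ 1 - mD` gives only `log (1 - m E D)`; use convexity: `E_μ[e^{-mD}] ≥ e^{-m E_μ[D]}` for the probability measure `μ = e^{mf}/E[e^{mf}]`, `ConvexOn.map_integral_le` or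
`e^{-mD} ≥ e^{-mc} (1 - m (D - c))` with `c = E_μ D`), and `D ≤ e^{-m' f} h ≤ e^{-m f} h` (`f ≥ 0`, `m ≤ m'`), so the quotient is at most `E[h] / E[e^{mf}] = e^{-m Tm m B f z} E[h]`.
`m = 0`: `E[D] ≤ E[e^{-m' f} h] ≤ E[h]`.] -/
theorem gap_step (m m' : ℝ) (hm : 0 ≤ m) (hmm : m ≤ m') (B : Matrix κ κ ℝ) {f g h : (κ → ℝ) → ℝ}
    (hf : LG f) (hg : LG g) (hh : EG h) (h0 : ∀ z, 0 ≤ f z) (hh0 : ∀ z, 0 ≤ h z)
    (hle : ∀ z, f z - g z ≤ Real.exp (-(m' * f z)) * h z) (z : κ → ℝ) :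
    Tm m B f z - Tm m B g z ≤
      Real.exp (-(m * Tm m B f z)) * ∫ x, h (z + B.mulVec x) ∂(gam κ) := by
  have hfz : LG (fun x : κ → ℝ => f (z + B.mulVec x)) := hf.comp_affine z B
  have hgz : LG (fun x : κ → ℝ => g (z + B.mulVec x)) := hg.comp_affine z B
  have hhz : EG (fun x : κ → ℝ => h (z + B.mulVec x)) := hh.comp_affine z B
  have hD : EG (fun x : κ → ℝ => f (z + B.mulVec x) - g (z + B.mulVec x)) := hfz.eg.sub hgz.eg
  have hbd : ∀ y, Real.exp (m * f y) * (f y - g y) ≤ h y := by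
    intro y
    have h1 := mul_le_mul_of_nonneg_left (hle y) (Real.exp_pos (m * f y)).le
    have h2 : Real.exp (m * f y) * (Real.exp (-(m' * f y)) * h y) =
        Real.exp (m * f y - m' * f y) * h y := by
      rw [← mul_assoc, ← Real.exp_add]
      rfl
    rw [h2] at h1
    have h3 : Real.exp (m * f y - m' * f y) ≤ 1 := by
      rw [Real.exp_le_one_iff]
      nlinarith [h0 y]
    exact h1.trans (mul_le_of_le_one_left (hh0 y) h3)
  by_cases hm0 : m = 0
  · subst hm0
    rw [zero_mul, neg_zero, Real.exp_zero, one_mul]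
    have e1 : Tm 0 B f z = ∫ x, f (z + B.mulVec x) ∂(gam κ) := by simp [Tm]
    have e2 : Tm 0 B g z = ∫ x, g (z + B.mulVec x) ∂(gam κ) := by simp [Tm]
    rw [e1, e2, ← integral_sub hfz.integrable hgz.integrable]
    refine integral_mono hD.integrable hhz.integrable (fun x => ?_)
    have h1 := hbd (z + B.mulVec x)
    rwa [zero_mul, Real.exp_zero, one_mul] at h1
  · have hmp : 0 < m := lt_of_le_of_ne hm (Ne.symm hm0)
    obtain ⟨hZf, hZfi⟩ := SKC.B.LG_Z hf m B z
    obtain ⟨hZg, hZgi⟩ := SKC.B.LG_Z hg m B z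
    have e1 : Tm m B f z = (1 / m) * Real.log (∫ x, Real.exp (m * f (z + B.mulVec x)) ∂(gam κ)) := by
      simp [Tm, hm0]
    have e2 : Tm m B g z = (1 / m) * Real.log (∫ x, Real.exp (m * g (z + B.mulVec x)) ∂(gam κ)) := by
      simp [Tm, hm0]
    have hEi : Integrable (fun x : κ → ℝ => Real.exp (m * f (z + B.mulVec x)) *
        (f (z + B.mulVec x) - g (z + B.mulVec x))) (gam κ) :=
      ((hfz.exp m).mul hD).integrable
    have hI : ∫ x, Real.exp (m * f (z + B.mulVec x)) *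
        (f (z + B.mulVec x) - g (z + B.mulVec x)) ∂(gam κ) ≤ ∫ x, h (z + B.mulVec x) ∂(gam κ) :=
      integral_mono hEi hhz.integrable (fun x => hbd _)
    obtain ⟨Zf, hZf'⟩ : ∃ Zf, Zf = ∫ x, Real.exp (m * f (z + B.mulVec x)) ∂(gam κ) := ⟨_, rfl⟩
    obtain ⟨Zg, hZg'⟩ : ∃ Zg, Zg = ∫ x, Real.exp (m * g (z + B.mulVec x)) ∂(gam κ) := ⟨_, rfl⟩
    obtain ⟨J, hJ⟩ : ∃ J, J = ∫ x, Real.exp (m * f (z + B.mulVec x)) *
        (f (z + B.mulVec x) - g (z + B.mulVec x)) ∂(gam κ) := ⟨_, rfl⟩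
    have hexp : Real.exp (-(m * Tm m B f z)) = 1 / Zf := by
      rw [e1, ← hZf', ← mul_assoc, mul_one_div_cancel hm0, one_mul, Real.exp_neg,
        Real.exp_log (by rw [hZf']; exact hZf), one_div]
    rw [hexp, e1, e2, ← hZf', ← hZg']
    rw [← hZf'] at hZf
    rw [← hZg'] at hZg
    rw [← hJ] at hI
    have key : Real.exp (-(m * (J / Zf))) * Zf ≤ Zg := by
      have h1 : ∫ x, Real.exp (-(m * (J / Zf))) * (Real.exp (m * f (z + B.mulVec x)) * (1 + m * (J / Zf)) -
          m * (Real.exp (m * f (z + B.mulVec x)) * (f (z + B.mulVec x) - g (z + B.mulVec x)))) ∂(gam κ)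
          ≤ Zg := by
        rw [hZg']
        refine integral_mono (((hZfi.mul_const _).sub (hEi.const_mul m)).const_mul _) hZgi
          (fun x => ?_)
        simp only
        obtain ⟨D, hDD⟩ : ∃ D, D = f (z + B.mulVec x) - g (z + B.mulVec x) := ⟨_, rfl⟩
        have h2 : g (z + B.mulVec x) = f (z + B.mulVec x) - D := by rw [hDD]; ring
        rw [← hDD, h2]
        have h3 : Real.exp (m * (f (z + B.mulVec x) - D)) = Real.exp (-(m * (J / Zf))) *
            (Real.exp (m * f (z + B.mulVec x)) * Real.exp (m * (J / Zf) - m * D)) := by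
          rw [← Real.exp_add, ← Real.exp_add]
          congr 1
          ring
        rw [h3]
        refine mul_le_mul_of_nonneg_left ?_ (Real.exp_pos _).le
        have h4 := Real.add_one_le_exp (m * (J / Zf) - m * D)
        have h5 := mul_le_mul_of_nonneg_left h4 (Real.exp_pos (m * f (z + B.mulVec x))).le
        linarith
      rw [integral_const_mul, integral_sub (hZfi.mul_const _) (hEi.const_mul m), integral_mul_const,
        integral_const_mul, ← hZf', ← hJ] at h1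
      have h6 : Zf * (1 + m * (J / Zf)) - m * J = Zf := by
        field_simp
        ring
      rwa [h6] at h1
    have hlog : Real.log Zf - m * (J / Zf) ≤ Real.log Zg := by
      have h1 := Real.log_le_log (by positivity) key
      rw [Real.log_mul (Real.exp_pos _).ne' hZf.ne', Real.log_exp] at h1
      linarith
    have h7 : 1 / m * Real.log Zf - 1 / m * Real.log Zg ≤ J / Zf := by
      have h8 : 1 / m * Real.log Zf - 1 / m * Real.log Zg = (Real.log Zf - Real.log Zg) / m := by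
        ring
      rw [h8, div_le_iff₀ hmp]
      linarith
    refine h7.trans ?_
    rw [one_div, inv_mul_eq_div]
    exact div_le_div_of_nonneg_right hI hZf.le

/-- **The gap inequality.**  [induction on `l` with `gap_step`; base: `f - g ≤ e^{-m0 f} (f - g) e^{f}` because `(1 - m0) f ≥ 0`, `f - g ≥ 0`; at the end `e^{-m s.1 ..} ≤ e^{-m0 ..}` because `PsiG ≥ 0`, `m0 ≤ s.1`] -/
theorem psi_gap (l : List (Lev κ)) (hl : l.Pairwise (fun a b => a.1 ≤ b.1))
    (hl' : ∀ a ∈ l, 0 ≤ a.1 ∧ a.1 ≤ 1) {f g : (κ → ℝ) → ℝ} (hf : LG f) (hg : LG g)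
    (h0 : ∀ z, 0 ≤ f z) (hle : ∀ z, g z ≤ f z) (m0 : ℝ) (hm0 : 0 ≤ m0) (hm1 : m0 ≤ 1)
    (hm : ∀ a ∈ l, m0 ≤ a.1) (z : κ → ℝ) :
    PsiG l f z - PsiG l g z ≤ Real.exp (-(m0 * PsiG l f z)) *
      GxG l (fun y => (f y - g y) * Real.exp (f y)) z := by
  have hH : EG (fun y => (f y - g y) * Real.exp (f y)) := by
    have h1 := hf.exp 1
    simp only [one_mul] at h1
    exact (hf.eg.sub hg.eg).mul h1
  have hH0 : ∀ y, 0 ≤ (f y - g y) * Real.exp (f y) :=
    fun y => mul_nonneg (sub_nonneg.mpr (hle y)) (Real.exp_pos _).le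
  induction l generalizing m0 z with
  | nil =>
    show f z - g z ≤ Real.exp (-(m0 * f z)) * ((f z - g z) * Real.exp (f z))
    have h1 : Real.exp (-(m0 * f z)) * ((f z - g z) * Real.exp (f z)) =
        (f z - g z) * Real.exp (f z - m0 * f z) := by
      rw [Real.exp_sub, Real.exp_neg]
      ring
    rw [h1]
    refine le_mul_of_one_le_right (sub_nonneg.mpr (hle z)) ?_
    rw [Real.one_le_exp_iff]
    nlinarith [h0 z]
  | cons s l ih =>
    rw [List.pairwise_cons] at hl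
    have hs := hl' s (by simp)
    have hl2 : ∀ a ∈ l, 0 ≤ a.1 ∧ a.1 ≤ 1 := fun a ha => hl' a (by simp [ha])
    have h1 : ∀ z, PsiG l f z - PsiG l g z ≤ Real.exp (-(s.1 * PsiG l f z)) *
        GxG l (fun y => (f y - g y) * Real.exp (f y)) z :=
      fun z => ih hl.2 hl2 s.1 hs.1 hs.2 hl.1 z
    have hP0 : ∀ z, 0 ≤ PsiG l f z := PsiG_nonneg l (fun a ha => (hl2 a ha).1) hf h0
    have h2 := gap_step s.1 s.1 hs.1 le_rfl s.2 (LG_PsiG l hf) (LG_PsiG l hg) (EG_GxG l hH)
      hP0 (gp_GxG_nonneg l hH0) h1 z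
    have h3 : 0 ≤ PsiG (s :: l) f z :=
      PsiG_nonneg (s :: l) (fun a ha => (hl' a ha).1) hf h0 z
    have h4 : 0 ≤ GxG (s :: l) (fun y => (f y - g y) * Real.exp (f y)) z :=
      gp_GxG_nonneg (s :: l) hH0 z
    refine h2.trans (mul_le_mul_of_nonneg_right (Real.exp_le_exp.mpr ?_) h4)
    have h5 : m0 * PsiG (s :: l) f z ≤ s.1 * PsiG (s :: l) f z :=
      mul_le_mul_of_nonneg_right (hm s (by simp)) h3
    have h6 : PsiG (s :: l) f z = Tm s.1 s.2 (PsiG l f) z := rfl
    rw [← h6]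
    linarith

end SKC.G
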