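import Pool.Agent.H.MP_08eaf3_pr.G.Gp
import Pool.Agent.H.MP_08eaf3_pr.G.Fl
import Pool.Agent.H.MP_08eaf3_pr.G.Bd

/-!
# Part G4: the cavity field
-/

set_option autoImplicit false

open MeasureTheory ProbabilityTheory Filter Topology Matrix

namespace SKC.G

/-- levels of the cavity field -/
noncomputable def lz (b1 b2 : ℝ) (l : List (Step (Fin 2))) : List (Lev (Fin 2)) :=
  l.map (fun s => (s.1, Bm (be b1 b2) s.2))

/-- kernel of the cavity field -/
noncomputable def Gz (b1 b2 : ℝ) (R : Matrix (Fin 2) (Fin 2) ℝ) : Matrix (Fin 2) (Fin 2) ℝ :=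
  fun c c' => 2 * be b1 b2 c * be b1 b2 c' * R c c'

theorem PsiG_lz (b1 b2 : ℝ) (l : List (Step (Fin 2))) (f : (Fin 2 → ℝ) → ℝ) :
    PsiG (lz b1 b2 l) f = PsiL (be b1 b2) l f := by
  induction l with
  | nil => rfl
  | cons s l ih =>
    show Tm s.1 (Bm (be b1 b2) s.2) (PsiG (lz b1 b2 l) f) =
      Tm s.1 (Bm (be b1 b2) s.2) (PsiL (be b1 b2) l f)
    rw [ih]

theorem lz_Bm (b1 b2 : ℝ) (E : Matrix (Fin 2) (Fin 2) ℝ) :
    Bm (be b1 b2) E * (Bm (be b1 b2) E)ᵀ = Gz b1 b2 (E * Eᵀ) := by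
  have h : Real.sqrt 2 * Real.sqrt 2 = 2 := Real.mul_self_sqrt (by norm_num)
  ext c c'
  unfold Gz Bm
  rw [Matrix.mul_apply, Matrix.mul_apply, Finset.mul_sum]
  refine Finset.sum_congr rfl fun d _ => ?_
  rw [Matrix.transpose_apply, Matrix.transpose_apply]
  calc Real.sqrt 2 * be b1 b2 c * E c d * (Real.sqrt 2 * be b1 b2 c' * E c' d) =
      (Real.sqrt 2 * Real.sqrt 2) * be b1 b2 c * be b1 b2 c' * (E c d * E c' d) := by ring
    _ = 2 * be b1 b2 c * be b1 b2 c' * (E c d * E c' d) := by rw [h]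

theorem lz_Gz_add (b1 b2 : ℝ) (R R' : Matrix (Fin 2) (Fin 2) ℝ) :
    Gz b1 b2 (R + R') = Gz b1 b2 R + Gz b1 b2 R' := by
  ext c c'
  rw [Matrix.add_apply]
  unfold Gz
  rw [Matrix.add_apply]
  ring

theorem lz_Gz_zero (b1 b2 : ℝ) : Gz b1 b2 0 = 0 := by
  ext c c'
  unfold Gz
  rw [Matrix.zero_apply, mul_zero]

/-- [`(Bm β E)(Bm β E)ᵀ = 2 β_c β_c' (E Eᵀ)`] -/
theorem CovG_lz (b1 b2 : ℝ) (l : List (Step (Fin 2))) : CovG (lz b1 b2 l) = Gz b1 b2 (Qtot l) := by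
  induction l with
  | nil =>
    show ([] : List (Matrix (Fin 2) (Fin 2) ℝ)).sum = Gz b1 b2 0
    rw [lz_Gz_zero, List.sum_nil]
  | cons s l ih =>
    have h1 : CovG (lz b1 b2 (s :: l)) =
        Bm (be b1 b2) s.2 * (Bm (be b1 b2) s.2)ᵀ + CovG (lz b1 b2 l) := by
      unfold CovG lz
      rw [List.map_cons, List.map_cons, List.sum_cons]
    rw [h1, ih, lz_Bm, ← lz_Gz_add]
    rfl

theorem lz_take (b1 b2 : ℝ) (l : List (Step (Fin 2))) (k : ℕ) :
    (lz b1 b2 l).take k = lz b1 b2 (l.take k) := by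
  unfold lz
  rw [List.map_take]

theorem lz_be (b1 b2 : ℝ) (h1 : 0 ≤ b1) (h2 : 0 ≤ b2) (c : Fin 2) :
    0 ≤ be b1 b2 c ∧ be b1 b2 c ≤ b1 + b2 := by
  fin_cases c
  · show 0 ≤ b1 ∧ b1 ≤ b1 + b2
    exact ⟨h1, by linarith⟩
  · show 0 ≤ b2 ∧ b2 ≤ b1 + b2
    exact ⟨h2, by linarith⟩

theorem KLip_Gz (b1 b2 : ℝ) (h1 : 0 ≤ b1) (h2 : 0 ≤ b2) : KLip (Gz b1 b2) (2 * (b1 + b2) ^ 2) := by
  intro R R' e _ _ he c c'
  obtain ⟨p1, p2⟩ := lz_be b1 b2 h1 h2 c
  obtain ⟨q1, q2⟩ := lz_be b1 b2 h1 h2 c'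
  have e1 : Gz b1 b2 R c c' - Gz b1 b2 R' c c' =
      2 * be b1 b2 c * be b1 b2 c' * (R c c' - R' c c') := by
    unfold Gz
    ring
  have h3 : 0 ≤ 2 * be b1 b2 c * be b1 b2 c' := by positivity
  rw [e1, abs_mul, abs_of_nonneg h3]
  have h4 : 2 * be b1 b2 c * be b1 b2 c' ≤ 2 * (b1 + b2) ^ 2 := by
    have := mul_le_mul p2 q2 q1 (p1.trans p2)
    nlinarith
  exact mul_le_mul h4 (he c c') (abs_nonneg _) (by positivity)

/-- [`dot (vz ρ c) (vz ρ' c') = ∑_i 2 b_c b_c' s s' / N`, `Real.mul_self_sqrt`; `N = 0`: both sides `0`] -/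
theorem vz_gram (b1 b2 : ℝ) (N : ℕ) (ρ ρ' : Cfg (Fin 2) N) (c c' : Fin 2) :
    dot (vz b1 b2 N ρ c) (vz b1 b2 N ρ' c') = Gz b1 b2 (ovM ρ ρ') c c' := by
  have h : Real.sqrt 2 * Real.sqrt 2 = 2 := Real.mul_self_sqrt (by norm_num)
  have hN : Real.sqrt (N : ℝ) * Real.sqrt N = N := Real.mul_self_sqrt (Nat.cast_nonneg N)
  unfold dot vz Gz ovM ov
  rw [Finset.sum_div, Finset.mul_sum]
  refine Finset.sum_congr rfl fun i _ => ?_
  rw [div_mul_div_comm, hN]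
  calc Real.sqrt 2 * be b1 b2 c * sg (ρ i c) * (Real.sqrt 2 * be b1 b2 c' * sg (ρ' i c')) / N =
      (Real.sqrt 2 * Real.sqrt 2) * be b1 b2 c * be b1 b2 c' * (sg (ρ i c) * sg (ρ' i c') / N) := by ring
    _ = 2 * be b1 b2 c * be b1 b2 c' * (sg (ρ i c) * sg (ρ' i c') / N) := by rw [h]

/-- the data of the cavity field -/
noncomputable def PZ (b1 b2 : ℝ) {F : Fam} {δ : ℝ} (C : CS F δ) : FData F δ C (Fin 2) where
  Gm := Gz b1 b2
  lG := lz b1 b2 C.l
  len := by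
    rw [lz, List.length_map]
    exact C.len
  wts := by
    rw [lz, List.map_map]
    rfl
  cov := fun k _ => by rw [lz_take, CovG_lz]
  ι := fun i => Fin (F.Nn i)
  fin := fun _ => inferInstance
  v := fun i => vz b1 b2 (F.Nn i)
  gram := fun i => vz_gram b1 b2 (F.Nn i)

/-- signs of a configuration -/
def lz_s (s : Fin 2 → Bool) : Fin 2 → ℝ := fun c => sg (s c)

theorem lz_F0 (z : Fin 2 → ℝ) :
    F0 z = Real.log (∑ s : Fin 2 → Bool, Real.exp (dot (lz_s s) z)) := by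
  unfold F0 psiEnd dot lz_s
  simp only [mul_zero, add_zero]

theorem lz_pos (z : Fin 2 → ℝ) : 0 < ∑ s : Fin 2 → Bool, Real.exp (dot (lz_s s) z) :=
  Finset.sum_pos (fun _ _ => Real.exp_pos _) Finset.univ_nonempty

theorem lz_expF0 (z : Fin 2 → ℝ) :
    Real.exp (F0 z) = ∑ s : Fin 2 → Bool, Real.exp (dot (lz_s s) z) := by
  rw [lz_F0, Real.exp_log (lz_pos z)]

theorem lz_abs_s (s : Fin 2 → Bool) (c : Fin 2) : |lz_s s c| = 1 := by
  unfold lz_s sg
  split_ifs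
  · exact abs_one
  · rw [abs_neg, abs_one]

/-- `F0 ≥ 0`, 1-Lipschitz.  [`F0 z = log ∑_s exp (∑ sg (s c) z c)`; the sum is at least `1` (it contains `s` and its negative), each exponent changes by at most `n1 (z - z')`] -/
theorem F0_nonneg (z : Fin 2 → ℝ) : 0 ≤ F0 z := by
  rw [lz_F0]
  apply Real.log_nonneg
  obtain ⟨s, hs⟩ : ∃ s : Fin 2 → Bool, s = fun c => decide (0 ≤ z c) := ⟨_, rfl⟩
  have h1 : 0 ≤ dot (lz_s s) z := by
    unfold dot
    refine Finset.sum_nonneg fun c _ => ?_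
    by_cases hc : 0 ≤ z c
    · have : lz_s s c = 1 := by
        rw [hs]
        unfold lz_s sg
        rw [if_pos (decide_eq_true hc)]
      rw [this, one_mul]
      exact hc
    · have : lz_s s c = -1 := by
        rw [hs]
        unfold lz_s sg
        rw [if_neg]
        intro h
        exact hc (of_decide_eq_true h)
      rw [this]
      linarith
  have h2 : Real.exp (dot (lz_s s) z) ≤ ∑ s : Fin 2 → Bool, Real.exp (dot (lz_s s) z) :=
    Finset.single_le_sum (f := fun s => Real.exp (dot (lz_s s) z)) (fun _ _ => (Real.exp_pos _).le)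
      (Finset.mem_univ s)
  exact (Real.one_le_exp h1).trans h2

theorem lz_F0_le (z z' : Fin 2 → ℝ) : F0 z ≤ F0 z' + n1 (z - z') := by
  have h1 : Real.exp (F0 z) ≤ Real.exp (F0 z' + n1 (z - z')) := by
    rw [Real.exp_add, lz_expF0, lz_expF0, Finset.sum_mul]
    refine Finset.sum_le_sum fun s _ => ?_
    rw [← Real.exp_add]
    apply Real.exp_le_exp.2
    unfold dot n1
    rw [← Finset.sum_add_distrib]
    refine Finset.sum_le_sum fun c _ => ?_
    have h2 : lz_s s c * (z c - z' c) ≤ |z c - z' c| := by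
      refine (le_abs_self _).trans ?_
      rw [abs_mul, lz_abs_s, one_mul]
    rw [Pi.sub_apply]
    linarith
  exact Real.exp_le_exp.1 h1

theorem F0_lip (z z' : Fin 2 → ℝ) : |F0 z - F0 z'| ≤ n1 (z - z') := by
  have h1 := lz_F0_le z z'
  have h2 := lz_F0_le z' z
  have h3 : n1 (z' - z) = n1 (z - z') := by
    unfold n1
    refine Finset.sum_congr rfl fun c _ => ?_
    rw [Pi.sub_apply, Pi.sub_apply, abs_sub_comm]
  rw [h3] at h2
  rw [abs_le]
  constructor <;> linarith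

theorem lz_EG_exp (c : Fin 2 → ℝ) : EG (fun y : Fin 2 → ℝ => Real.exp (dot c y)) := by
  refine ⟨?_, 1 + n1 c, fun z => ?_⟩
  · unfold dot
    fun_prop
  · have h0 : 0 ≤ n1 z := Finset.sum_nonneg fun _ _ => abs_nonneg _
    have h0' : 0 ≤ n1 c := Finset.sum_nonneg fun _ _ => abs_nonneg _
    have h1 : dot c z ≤ n1 c * n1 z := by
      unfold dot
      have h2 : ∑ i, c i * z i ≤ ∑ i, n1 c * |z i| := by
        refine Finset.sum_le_sum fun i _ => ?_
        refine (le_abs_self _).trans ?_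
        rw [abs_mul]
        refine mul_le_mul_of_nonneg_right ?_ (abs_nonneg _)
        exact Finset.single_le_sum (f := fun i => |c i|) (fun _ _ => abs_nonneg _)
          (Finset.mem_univ i)
      rw [← Finset.mul_sum] at h2
      exact h2
    rw [Real.abs_exp]
    have h3 : Real.exp (dot c z) ≤ Real.exp ((1 + n1 c) * n1 z) :=
      Real.exp_le_exp.2 (by nlinarith)
    have h4 : 0 ≤ Real.exp ((1 + n1 c) * n1 z) := (Real.exp_pos _).le
    nlinarith

theorem lz_quad (b1 b2 u : ℝ) (h1 : 0 ≤ b1) (h2 : 0 ≤ b2) (l : List (Step (Fin 2)))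
    (hl : Qtot l = mat 1 1 u) (c : Fin 2 → ℝ) (hc : ∀ i, |c i| ≤ 2) :
    (1 / 2) * ∑ i, ∑ j, c i * CovG (lz b1 b2 l) i j * c j ≤ 4 * (b1 + b2) ^ 2 := by
  have hQ : ∀ i j, |Qtot l i j| ≤ 1 := by
    intro i j
    have := Q_cube l u hl l.length i j
    rwa [List.take_length] at this
  have ht : ∀ i j, c i * CovG (lz b1 b2 l) i j * c j ≤ 8 * be b1 b2 i * be b1 b2 j := by
    intro i j
    obtain ⟨p1, -⟩ := lz_be b1 b2 h1 h2 i
    obtain ⟨q1, -⟩ := lz_be b1 b2 h1 h2 j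
    rw [CovG_lz]
    refine (le_abs_self _).trans ?_
    have e1 : |c i * Gz b1 b2 (Qtot l) i j * c j| =
        2 * be b1 b2 i * be b1 b2 j * (|c i| * |c j| * |Qtot l i j|) := by
      unfold Gz
      rw [abs_mul, abs_mul, abs_mul, abs_of_nonneg (by positivity : 0 ≤ 2 * be b1 b2 i * be b1 b2 j)]
      ring
    rw [e1]
    have h3 : |c i| * |c j| * |Qtot l i j| ≤ 4 := by
      have h4 : |c i| * |c j| ≤ 2 * 2 := mul_le_mul (hc i) (hc j) (abs_nonneg _) (by norm_num)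
      have h5 : |c i| * |c j| * |Qtot l i j| ≤ 2 * 2 * 1 :=
        mul_le_mul h4 (hQ i j) (abs_nonneg _) (by norm_num)
      linarith
    have h6 : 0 ≤ 2 * be b1 b2 i * be b1 b2 j := by positivity
    have h7 := mul_le_mul_of_nonneg_left h3 h6
    linarith
  have hs : ∑ i, ∑ j, c i * CovG (lz b1 b2 l) i j * c j ≤
      ∑ i : Fin 2, ∑ j : Fin 2, 8 * be b1 b2 i * be b1 b2 j :=
    Finset.sum_le_sum fun i _ => Finset.sum_le_sum fun j _ => ht i j
  have he : ∑ i : Fin 2, ∑ j : Fin 2, 8 * be b1 b2 i * be b1 b2 j = 8 * (b1 + b2) ^ 2 := by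
    rw [Fin.sum_univ_two, Fin.sum_univ_two, Fin.sum_univ_two]
    show 8 * b1 * b1 + 8 * b1 * b2 + (8 * b2 * b1 + 8 * b2 * b2) = _
    ring
  linarith

/-- exponential moment.  [`e^{2 F0} = ∑_{s,s'} exp (dot (sg s + sg s') y)`, `GxG_sum`, `GxG_exp`; the exponent is `½ ∑ c_i Gz_ij c_j` with `|c_i| ≤ 2`, `|Gz_ij| ≤ 2 b_i b_j` (`Q_cube` with `k = l.length`),
so at most `4 (b1 + b2)²`; there are `16` terms] -/
theorem exp2F0 (b1 b2 u : ℝ) (h1 : 0 ≤ b1) (h2 : 0 ≤ b2) (l : List (Step (Fin 2)))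
    (hl : Qtot l = mat 1 1 u) :
    GxG (lz b1 b2 l) (fun y => Real.exp (2 * F0 y)) 0 ≤ 16 * Real.exp (4 * (b1 + b2) ^ 2) := by
  have e : (fun y : Fin 2 → ℝ => Real.exp (2 * F0 y)) =
      fun y => ∑ p ∈ (Finset.univ : Finset ((Fin 2 → Bool) × (Fin 2 → Bool))),
        (fun (p : (Fin 2 → Bool) × (Fin 2 → Bool)) (y : Fin 2 → ℝ) =>
          Real.exp (dot (fun c => lz_s p.1 c + lz_s p.2 c) y)) p y := by
    funext y
    rw [two_mul, Real.exp_add, lz_expF0, Finset.sum_mul_sum, Fintype.sum_prod_type]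
    refine Finset.sum_congr rfl fun s _ => Finset.sum_congr rfl fun s' _ => ?_
    show _ = Real.exp (dot (fun c => lz_s s c + lz_s s' c) y)
    rw [← Real.exp_add]
    congr 1
    unfold dot
    rw [← Finset.sum_add_distrib]
    refine Finset.sum_congr rfl fun c _ => ?_
    ring
  rw [e, GxG_sum (lz b1 b2 l) Finset.univ (fun (p : (Fin 2 → Bool) × (Fin 2 → Bool)) (y : Fin 2 → ℝ) =>
          Real.exp (dot (fun c => lz_s p.1 c + lz_s p.2 c) y)) (fun p => lz_EG_exp _)]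
  have hb : ∀ p ∈ (Finset.univ : Finset ((Fin 2 → Bool) × (Fin 2 → Bool))),
      GxG (lz b1 b2 l) ((fun (p : (Fin 2 → Bool) × (Fin 2 → Bool)) (y : Fin 2 → ℝ) =>
          Real.exp (dot (fun c => lz_s p.1 c + lz_s p.2 c) y)) p) 0 ≤
        Real.exp (4 * (b1 + b2) ^ 2) := by
    intro p _
    have h3 := GxG_exp (lz b1 b2 l) (fun c => lz_s p.1 c + lz_s p.2 c) 0
    show GxG (lz b1 b2 l) (fun y => Real.exp (dot (fun c => lz_s p.1 c + lz_s p.2 c) y)) 0 ≤ _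
    rw [h3]
    apply Real.exp_le_exp.2
    have h4 : dot (fun c => lz_s p.1 c + lz_s p.2 c) (0 : Fin 2 → ℝ) = 0 := by
      unfold dot
      simp
    rw [h4, zero_add]
    refine lz_quad b1 b2 u h1 h2 l hl _ fun i => ?_
    refine (abs_add_le _ _).trans ?_
    rw [lz_abs_s, lz_abs_s]
    norm_num
  refine (Finset.sum_le_card_nsmul _ _ _ hb).trans ?_
  rw [nsmul_eq_mul]
  have hcard : (Finset.univ : Finset ((Fin 2 → Bool) × (Fin 2 → Bool))).card = 16 := by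
    rw [Finset.card_univ, Fintype.card_prod, Fintype.card_fun, Fintype.card_bool, Fintype.card_fin]
    norm_num
  rw [hcard]
  norm_num

theorem lz_EG_of_le {h g : (Fin 2 → ℝ) → ℝ} (hc : Continuous h) (hg : EG g)
    (hle : ∀ z, |h z| ≤ |g z|) : EG h := by
  obtain ⟨-, C, hC⟩ := hg
  exact ⟨hc, C, fun z => (hle z).trans (hC z)⟩

theorem lz_EG_expLG {f : (Fin 2 → ℝ) → ℝ} (hf : LG f) (k : ℝ) (hk : 0 ≤ k) :
    EG (fun y => Real.exp (k * f y)) := by
  obtain ⟨hc, C, hC⟩ := hf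
  refine ⟨Real.continuous_exp.comp (continuous_const.mul hc), max (Real.exp (k * C)) (k * C),
    fun z => ?_⟩
  have h0 : 0 ≤ n1 z := Finset.sum_nonneg fun _ _ => abs_nonneg _
  rw [Real.abs_exp]
  have h1 : k * f z ≤ k * C + k * C * n1 z := by
    have h2 := (le_abs_self _).trans (hC z)
    have h3 := mul_le_mul_of_nonneg_left h2 hk
    linarith
  calc Real.exp (k * f z) ≤ Real.exp (k * C + k * C * n1 z) := Real.exp_le_exp.2 h1
    _ = Real.exp (k * C) * Real.exp (k * C * n1 z) := Real.exp_add _ _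
    _ ≤ max (Real.exp (k * C)) (k * C) * Real.exp (max (Real.exp (k * C)) (k * C) * n1 z) :=
      B.Cls_exp_max (Real.exp_pos _).le h0

theorem lz_LG_min (M : ℝ) (hM : 0 ≤ M) : LG (fun z : Fin 2 → ℝ => min (F0 z) M) := by
  obtain ⟨hc, C, hC⟩ := B.LG_F0 (K := Fin 2)
  refine ⟨hc.min continuous_const, C, fun z => ?_⟩
  have h0 := F0_nonneg z
  refine le_trans ?_ (hC z)
  rw [abs_of_nonneg (le_min h0 hM), abs_of_nonneg h0]
  exact min_le_left _ _

theorem lz_pt (M : ℝ) (y : Fin 2 → ℝ) :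
    0 ≤ (F0 y - min (F0 y) M) * Real.exp (F0 y) ∧
    (F0 y - min (F0 y) M) * Real.exp (F0 y) ≤ Real.exp (-M) * Real.exp (2 * F0 y) := by
  have h0 : 0 ≤ F0 y - min (F0 y) M := sub_nonneg.2 (min_le_left _ _)
  refine ⟨mul_nonneg h0 (Real.exp_pos _).le, ?_⟩
  have h1 : F0 y - min (F0 y) M ≤ Real.exp (F0 y - M) := by
    rcases le_total (F0 y) M with h | h
    · rw [min_eq_left h, sub_self]
      exact (Real.exp_pos _).le
    · rw [min_eq_right h]
      have := Real.add_one_le_exp (F0 y - M)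
      linarith
  have h2 := mul_le_mul_of_nonneg_right h1 (Real.exp_pos (F0 y)).le
  refine h2.trans (le_of_eq ?_)
  rw [← Real.exp_add, ← Real.exp_add]
  congr 1
  ring

/-- truncation.  [`psi_gap` with `f = F0`, `g = min F0 M`, `m0 = 0`: `(F0 - min F0 M) e^{F0} ≤ e^{-M} e^{2 F0}` (`max (F0 - M) 0 ≤ e^{F0 - M}`), `GxG_mono`, `GxG_const_mul`, `exp2F0`; `B.LG_F0`] -/
theorem psi_trunc (b1 b2 u : ℝ) (h1 : 0 ≤ b1) (h2 : 0 ≤ b2) (l : List (Step (Fin 2)))
    (hv : Valid l) (hl : Qtot l = mat 1 1 u) (M : ℝ) (hM : 0 ≤ M) :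
    PsiL (be b1 b2) l F0 0 ≤ PsiG (lz b1 b2 l) (fun z => min (F0 z) M) 0 +
      16 * Real.exp (4 * (b1 + b2) ^ 2) * Real.exp (-M) := by
  obtain ⟨v1, v2, -⟩ := hv
  have hp : (lz b1 b2 l).Pairwise (fun a b => a.1 ≤ b.1) := by
    unfold lz
    rw [List.pairwise_map]
    exact v1
  have hm : ∀ a ∈ lz b1 b2 l, 0 ≤ a.1 ∧ a.1 ≤ 1 := by
    intro a ha
    unfold lz at ha
    rw [List.mem_map] at ha
    obtain ⟨s, hs, rfl⟩ := ha
    exact v2 s hs
  have hE : EG (fun y : Fin 2 → ℝ => Real.exp (2 * F0 y)) :=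
    lz_EG_expLG B.LG_F0 2 (by norm_num)
  have hE' : EG (fun y : Fin 2 → ℝ => Real.exp (-M) * Real.exp (2 * F0 y)) := by
    refine lz_EG_of_le (continuous_const.mul hE.1) hE fun z => ?_
    rw [abs_mul, Real.abs_exp, Real.abs_exp]
    have h3 : Real.exp (-M) ≤ 1 := Real.exp_le_one_iff.2 (by linarith)
    have h4 : 0 ≤ Real.exp (2 * F0 z) := (Real.exp_pos _).le
    nlinarith
  have hE'' : EG (fun y : Fin 2 → ℝ => (F0 y - min (F0 y) M) * Real.exp (F0 y)) := by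
    refine lz_EG_of_le ?_ hE' fun z => ?_
    · have hc := (B.LG_F0 (K := Fin 2)).1
      exact (hc.sub (hc.min continuous_const)).mul (Real.continuous_exp.comp hc)
    · rw [abs_of_nonneg (lz_pt M z).1]
      exact (lz_pt M z).2.trans (le_abs_self _)
  have hg := psi_gap (lz b1 b2 l) hp hm (f := F0) (g := fun z => min (F0 z) M) B.LG_F0
    (lz_LG_min M hM) F0_nonneg (fun z => min_le_left _ _) 0 le_rfl zero_le_one
    (fun a ha => (hm a ha).1) 0
  rw [zero_mul, neg_zero, Real.exp_zero, one_mul] at hg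
  have h3 := GxG_mono (lz b1 b2 l) hE'' hE' (fun z => (lz_pt M z).2) 0
  rw [GxG_const_mul] at h3
  have h4 := mul_le_mul_of_nonneg_left (exp2F0 b1 b2 u h1 h2 l hl) (Real.exp_pos (-M)).le
  rw [← PsiG_lz]
  linarith

/-- **Lower bound for the cavity field.**  [Choose `M` with `16 e^{4 (b1+b2)²} e^{-M} ≤ ε/2`; `main_bdd` for `f = min F0 M` (`|f| ≤ M`, Lipschitz `1`) with `ε/2`, `PZ`, `KLip_Gz`; `fld_mono`] -/
theorem field_lower (b1 b2 : ℝ) (h1 : 0 ≤ b1) (h2 : 0 ≤ b2) (ε : ℝ) (hε : 0 < ε) :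
    ∃ δ0 : ℝ, 0 < δ0 ∧ ∀ (F : Fam), F.IsGG → ∀ (δ : ℝ), 0 < δ → δ ≤ δ0 → ∀ (C : CS F δ),
      ∀ᶠ i in (F.U : Filter F.I),
        PsiL (be b1 b2) C.l F0 0 - ε ≤ fld (F.S i) F0 (vz b1 b2 (F.Nn i)) := by
  obtain ⟨A, hA⟩ : ∃ A : ℝ, A = 16 * Real.exp (4 * (b1 + b2) ^ 2) := ⟨_, rfl⟩
  have hA0 : 0 < A := by
    rw [hA]
    positivity
  obtain ⟨M, hM⟩ : ∃ M : ℝ, M = max 1 (Real.log (2 * A / ε)) := ⟨_, rfl⟩
  have hM1 : 1 ≤ M := by
    rw [hM]
    exact le_max_left _ _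
  have hM0 : 0 < M := one_pos.trans_le hM1
  have hAM : A * Real.exp (-M) ≤ ε / 2 := by
    have h3 : Real.log (2 * A / ε) ≤ M := by
      rw [hM]
      exact le_max_right _ _
    have h4 : 0 < 2 * A / ε := by positivity
    have h5 : 2 * A / ε ≤ Real.exp M := by
      rw [← Real.exp_log h4]
      exact Real.exp_le_exp.2 h3
    have h6 : 2 * A ≤ Real.exp M * ε := (div_le_iff₀ hε).1 h5
    have h7 : Real.exp M * Real.exp (-M) = 1 := by
      rw [← Real.exp_add, add_neg_cancel, Real.exp_zero]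
    have h8 : 0 < Real.exp (-M) := Real.exp_pos _
    have h9 := mul_le_mul_of_nonneg_right h6 h8.le
    have h10 : Real.exp M * ε * Real.exp (-M) = ε := by
      calc Real.exp M * ε * Real.exp (-M) = (Real.exp M * Real.exp (-M)) * ε := by ring
        _ = ε := by rw [h7, one_mul]
    rw [h10] at h9
    linarith
  obtain ⟨δ0, hδ0, hmain⟩ := main_bdd (κ := Fin 2) M 1 (2 * (b1 + b2) ^ 2) (ε / 2) hM0 zero_le_one
    (by positivity) (half_pos hε)
  refine ⟨δ0, hδ0, fun F hF δ hδ hδδ C => ?_⟩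
  have h3 := hmain F hF δ hδ hδδ C (PZ b1 b2 C) (KLip_Gz b1 b2 h1 h2) (fun z => min (F0 z) M)
    (fun z => by
      rw [abs_of_nonneg (le_min (F0_nonneg z) hM0.le)]
      exact min_le_right _ _)
    (fun z z' => by
      rw [one_mul]
      refine le_trans ?_ (F0_lip z z')
      have h8 := abs_min_sub_min_le_max (F0 z) M (F0 z') M
      rw [sub_self, abs_zero, max_eq_left (abs_nonneg _)] at h8
      exact h8)
  filter_upwards [h3] with i hi
  have h4 : |fld (F.S i) (fun z => min (F0 z) M) (vz b1 b2 (F.Nn i)) -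
      PsiG (lz b1 b2 C.l) (fun z => min (F0 z) M) 0| ≤ ε / 2 := hi
  have h5 := (abs_le.1 h4).1
  have h6 : fld (F.S i) (fun z => min (F0 z) M) (vz b1 b2 (F.Nn i)) ≤
      fld (F.S i) F0 (vz b1 b2 (F.Nn i)) :=
    fld_mono (F.S i) (lz_LG_min M hM0.le) B.LG_F0 (fun z => min_le_left _ _) _
  have h7 := psi_trunc b1 b2 F.u h1 h2 C.l C.valid C.tot M hM0.le
  rw [← hA] at h7
  linarith

end SKC.G
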