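import Pool.Agent.H.MP_08eaf3_pr.G.Pa
import Pool.Agent.H.MP_08eaf3_pr.G.An

/-!
# Part G2: integration over the last replica
-/

set_option autoImplicit false

open MeasureTheory ProbabilityTheory Filter Topology Matrix

namespace SKC.G

variable {κ : Type} [Fintype κ] {L n : ℕ}

/-- splitting off the last replica.  [`measurePreserving_piFinSuccAbove (fun _ => pth κ L) (Fin.last n)`; the inverse is `(z, y) ↦ Fin.insertNth (Fin.last n) z y`, `Fin.insertNth_last'` = `Fin.snoc y z`;
`integral_prod`, bounded measurable.] -/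
theorem pths_snoc (H : (Fin (n + 1) → Pth κ L) → ℝ) (hH : Measurable H) {C : ℝ}
    (hC : ∀ y, |H y| ≤ C) :
    ∫ y, H y ∂(pths κ L (n + 1)) =
      ∫ y, ∫ z, H (Fin.snoc (α := fun _ => Pth κ L) y z) ∂(pth κ L) ∂(pths κ L n) := by
  have h := measurePreserving_piFinSuccAbove (fun _ : Fin (n + 1) => pth κ L) (Fin.last n)
  have h' := h.symm
  have h1 : ∫ y, H y ∂(pths κ L (n + 1)) =
      ∫ p : Pth κ L × (Fin n → Pth κ L), H (Fin.snoc (α := fun _ => Pth κ L) p.2 p.1)
        ∂((pth κ L).prod (pths κ L n)) := by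
    have h2 := h'.integral_comp' H
    have h3 : ∀ p : Pth κ L × (Fin n → Pth κ L),
        (MeasurableEquiv.piFinSuccAbove (fun _ : Fin (n + 1) => Pth κ L) (Fin.last n)).symm p =
          Fin.snoc (α := fun _ => Pth κ L) p.2 p.1 := by
      intro p
      exact Fin.insertNth_last' p.1 p.2
    rw [show pths κ L (n + 1) = Measure.pi (fun _ : Fin (n + 1) => pth κ L) from rfl, ← h2]
    refine integral_congr_ae (Filter.Eventually.of_forall fun p => ?_)
    show H _ = H _
    rw [h3 p]
  rw [h1]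
  have hm : Measurable (fun p : Pth κ L × (Fin n → Pth κ L) =>
      H (Fin.snoc (α := fun _ => Pth κ L) p.2 p.1)) := by
    refine hH.comp (measurable_pi_lambda _ fun i => ?_)
    refine Fin.lastCases ?_ (fun i => ?_) i
    · simp only [Fin.snoc_last]
      exact measurable_fst
    · simp only [Fin.snoc_castSucc]
      exact (measurable_pi_apply i).comp measurable_snd
  rw [integral_prod_symm _ (Integrable.of_bound hm.aestronglyMeasurable C
    (Filter.Eventually.of_forall fun p => by rw [Real.norm_eq_abs]; exact hC _))]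

theorem xp_meas (w : LM L n) (i : Fin n) : Measurable (fun y : Fin n → Pth κ L => xp w y i) := by
  refine measurable_pi_lambda _ fun j => ?_
  exact (measurable_pi_apply j).comp (measurable_pi_apply (anc w i j))

theorem exT_meas (l : List (Lev κ)) {F : (κ → ℝ) → ℝ} (hF : Measurable F) (w : LM L n) :
    Measurable (fun y : Fin n → Pth κ L => exT l F w y) := by
  unfold exT
  refine Finset.measurable_fun_sum _ fun i _ => Finset.measurable_fun_sum _ fun j _ => ?_
  split_ifs with hj
  · exact (((PsiG_meas _ hF).comp ((Wk_meas l _).comp (xp_meas w i))).sub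
      ((PsiG_meas _ hF).comp ((Wk_meas l _).comp (xp_meas w i)))).const_mul _
  · exact measurable_const

/-- [`|PsiG| ≤ M`, finitely many terms] -/
theorem exT_bd (l : List (Lev κ)) {F : (κ → ℝ) → ℝ} (hF : Measurable F) {M : ℝ}
    (hM : ∀ z, |F z| ≤ M) (w : LM L n) : ∃ C : ℝ, ∀ y : Fin n → Pth κ L, |exT l F w y| ≤ C := by
  refine ⟨∑ _i : Fin n, ∑ j : Fin L, |wt l j| * (M + M), fun y => ?_⟩
  unfold exT
  refine (Finset.abs_sum_le_sum_abs _ _).trans (Finset.sum_le_sum fun i _ => ?_)
  refine (Finset.abs_sum_le_sum_abs _ _).trans (Finset.sum_le_sum fun j _ => ?_)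
  have hM0 : 0 ≤ M := (abs_nonneg _).trans (hM 0)
  split_ifs with hj
  · rw [abs_mul]
    refine mul_le_mul_of_nonneg_left ?_ (abs_nonneg _)
    exact (abs_sub _ _).trans (add_le_add (PsiG_bd _ hF hM _) (PsiG_bd _ hF hM _))
  · rw [abs_zero]
    positivity

/-- **Integration over the last replica.**  [`pths_snoc`, `xp_castSucc`, `xp_last`, `exT_snoc`; inner integral: `path_int` with `k = top`, `x = xp w'.res y i0`.] -/
theorem marg (l : List (Lev κ)) (hL : l.length = L) {F g : (κ → ℝ) → ℝ} (hF : Measurable F)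
    (hg : Measurable g) {M C : ℝ} (hM : ∀ z, |F z| ≤ M) (hC : ∀ z, |g z| ≤ C) {w' : LM L (n + 1)}
    (h : w'.Um) (i0 : Fin n)
    (h0 : ∀ i : Fin n, w' i.castSucc (Fin.last n) ≤ w' i0.castSucc (Fin.last n))
    (Θ : (Fin n → κ → ℝ) → ℝ) (hΘ : Measurable Θ) {C' : ℝ} (hC' : ∀ z, |Θ z| ≤ C') :
    ∫ y, Θ (fun i => Wk l (xp w' y i.castSucc) L) * g (Wk l (xp w' y (Fin.last n)) L) *
        Real.exp (exT l F w' y) ∂(pths κ L (n + 1)) =
      ∫ y, Θ (fun i => Wk l (xp w'.res y i) L) *
        ChG (l.drop (w' i0.castSucc (Fin.last n))) F g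
          (Wk l (xp w'.res y i0) (w' i0.castSucc (Fin.last n))) *
        Real.exp (exT l F w'.res y) ∂(pths κ L n) := by
  obtain ⟨D, hD⟩ := exT_bd l hF hM w'
  have hHm : Measurable (fun y : Fin (n + 1) → Pth κ L =>
      Θ (fun i => Wk l (xp w' y i.castSucc) L) * g (Wk l (xp w' y (Fin.last n)) L) *
        Real.exp (exT l F w' y)) :=
    ((hΘ.comp (measurable_pi_lambda _ fun i => (Wk_meas l L).comp (xp_meas w' i.castSucc))).mul
      (hg.comp ((Wk_meas l L).comp (xp_meas w' (Fin.last n))))).mul (exT_meas l hF w').exp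
  have hHb : ∀ y : Fin (n + 1) → Pth κ L,
      |Θ (fun i => Wk l (xp w' y i.castSucc) L) * g (Wk l (xp w' y (Fin.last n)) L) *
        Real.exp (exT l F w' y)| ≤ C' * C * Real.exp D := by
    intro y
    have hC0 : 0 ≤ C := (abs_nonneg _).trans (hC 0)
    have hC0' : 0 ≤ C' := (abs_nonneg _).trans (hC' (fun _ => 0))
    rw [abs_mul, abs_mul, abs_of_pos (Real.exp_pos _)]
    exact mul_le_mul (mul_le_mul (hC' _) (hC _) (abs_nonneg _) hC0')
      (Real.exp_le_exp.2 ((le_abs_self _).trans (hD _))) (Real.exp_pos _).le (by positivity)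
  rw [pths_snoc _ hHm hHb]
  refine integral_congr_ae (Filter.Eventually.of_forall fun y => ?_)
  show ∫ z, Θ (fun i => Wk l (xp w' (Fin.snoc (α := fun _ => Pth κ L) y z) i.castSucc) L) *
      g (Wk l (xp w' (Fin.snoc (α := fun _ => Pth κ L) y z) (Fin.last n)) L) *
        Real.exp (exT l F w' (Fin.snoc (α := fun _ => Pth κ L) y z)) ∂(pth κ L) =
      Θ (fun i => Wk l (xp w'.res y i) L) *
        ChG (l.drop (w' i0.castSucc (Fin.last n))) F g
          (Wk l (xp w'.res y i0) (w' i0.castSucc (Fin.last n))) *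
        Real.exp (exT l F w'.res y)
  rw [← path_int l hL hF hg hM hC (w' i0.castSucc (Fin.last n)) (Fin.is_le _) (xp w'.res y i0),
    ← integral_const_mul, ← integral_mul_const]
  refine integral_congr_ae (Filter.Eventually.of_forall fun z => ?_)
  simp only [xp_castSucc h, xp_last h i0 h0, exT_snoc l F h i0 h0, Real.exp_add]
  ring

/-- the case of one replica: only the last replica, `anc w 0 j = 0`: `exT` = `ex1` with `k = 0`, `xp w y 0 = y 0`.  [`path_int` with `k = 0`, `Wk l x 0 = 0`; `pths κ L 1`: `measurePreserving_funUnique` or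
`pths_snoc` with `n = 0`.] -/
theorem marg_one (l : List (Lev κ)) (hL : l.length = L) {F g : (κ → ℝ) → ℝ} (hF : Measurable F)
    (hg : Measurable g) {M C : ℝ} (hM : ∀ z, |F z| ≤ M) (hC : ∀ z, |g z| ≤ C) {w : LM L 1}
    (h : w.Um) :
    ∫ y, g (Wk l (xp w y 0) L) * Real.exp (exT l F w y) ∂(pths κ L 1) = ChG l F g 0 := by
  have hx : ∀ y : Fin 1 → Pth κ L, xp w y 0 = y 0 := by
    intro y
    funext j
    show y (anc w 0 j) j = y 0 j
    rw [Subsingleton.elim (anc w 0 (j : ℕ)) 0]
  have hE : ∀ y : Fin 1 → Pth κ L, exT l F w y = ex1 l F 0 (y 0) := by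
    intro y
    unfold exT ex1
    rw [Fin.sum_univ_one]
    refine Finset.sum_congr rfl fun j _ => ?_
    rw [if_pos (Subsingleton.elim _ _), if_pos (Nat.zero_le _), hx]
  obtain ⟨D, hD⟩ := exT_bd l hF hM w
  have hHm : Measurable (fun y : Fin 1 → Pth κ L =>
      g (Wk l (xp w y 0) L) * Real.exp (exT l F w y)) :=
    (hg.comp ((Wk_meas l L).comp (xp_meas w 0))).mul (exT_meas l hF w).exp
  have hHb : ∀ y : Fin 1 → Pth κ L,
      |g (Wk l (xp w y 0) L) * Real.exp (exT l F w y)| ≤ C * Real.exp D := by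
    intro y
    have hC0 : 0 ≤ C := (abs_nonneg _).trans (hC 0)
    rw [abs_mul, abs_of_pos (Real.exp_pos _)]
    exact mul_le_mul (hC _) (Real.exp_le_exp.2 ((le_abs_self _).trans (hD _)))
      (Real.exp_pos _).le hC0
  rw [pths_snoc (n := 0) _ hHm hHb]
  have hW : Wk l (0 : Pth κ L) 0 = 0 := by
    unfold Wk
    exact Finset.sum_eq_zero fun j _ => if_neg (Nat.not_lt_zero _)
  have hp := path_int l hL hF hg hM hC 0 (Nat.zero_le L) (0 : Pth κ L)
  rw [hW, List.drop_zero] at hp
  have h1 : ∀ y : Fin 0 → Pth κ L,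
      ∫ z, g (Wk l (xp w (Fin.snoc (α := fun _ => Pth κ L) y z) 0) L) *
        Real.exp (exT l F w (Fin.snoc (α := fun _ => Pth κ L) y z)) ∂(pth κ L) =
      ChG l F g 0 := by
    intro y
    rw [← hp]
    refine integral_congr_ae (Filter.Eventually.of_forall fun z => ?_)
    have h0 : Fin.snoc (α := fun _ : Fin 1 => Pth κ L) y z 0 = z :=
      Fin.snoc_last (α := fun _ : Fin 1 => Pth κ L) z y
    simp only [hx, hE, h0, mix_zero]
  rw [integral_congr_ae (Filter.Eventually.of_forall h1), integral_const]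
  simp

/-- total mass of the density is one.  [Induction on `n ≥ 1`: `marg_one`, `marg` with `g = 1`, `Θ = 1`, `ChG_one`; `i0` by `Finset.exists_max_image`.] -/
theorem norm_tree (l : List (Lev κ)) (hL : l.length = L) {F : (κ → ℝ) → ℝ} (hF : Measurable F)
    {M : ℝ} (hM : ∀ z, |F z| ≤ M) (hn : 0 < n) {w : LM L n} (h : w.Um) :
    ∫ y, Real.exp (exT l F w y) ∂(pths κ L n) = 1 := by
  induction n with
  | zero => exact absurd hn (lt_irrefl 0)
  | succ n ih =>
    rcases Nat.eq_zero_or_pos n with h0 | h0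
    · subst h0
      have h1 := marg_one l hL hF (g := fun _ => 1) measurable_const hM (C := 1)
        (fun _ => by simp) h
      rw [ChG_one l hF hM] at h1
      simpa using h1
    · haveI : Nonempty (Fin n) := ⟨⟨0, h0⟩⟩
      obtain ⟨i0, _, hi0⟩ := Finset.exists_max_image (Finset.univ : Finset (Fin n))
        (fun i => w i.castSucc (Fin.last n)) Finset.univ_nonempty
      have h1 := marg l hL hF (g := fun _ => 1) measurable_const hM (C := 1)
        (fun _ => by simp) h i0 (fun i => hi0 i (Finset.mem_univ i)) (fun _ => 1)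
        measurable_const (C' := 1) (fun _ => by simp)
      rw [ChG_one _ hF hM] at h1
      simp only [one_mul] at h1
      rw [h1]
      exact ih h0 h.res

/-- [`norm_tree`, the density is positive] -/
theorem tree_int_bd (l : List (Lev κ)) (hL : l.length = L) {F : (κ → ℝ) → ℝ} (hF : Measurable F)
    {M : ℝ} (hM : ∀ z, |F z| ≤ M) (hn : 0 < n) {w : LM L n} (h : w.Um)
    (Θ : (Fin n → κ → ℝ) → ℝ) (hΘ : Measurable Θ) (hb : ∀ z, |Θ z| ≤ 1) :
    |∫ y, Θ (fun i => Wk l (xp w y i) L) * Real.exp (exT l F w y) ∂(pths κ L n)| ≤ 1 := by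
  obtain ⟨D, hD⟩ := exT_bd l hF hM w
  have hi : Integrable (fun y : Fin n → Pth κ L => Real.exp (exT l F w y)) (pths κ L n) := by
    refine Integrable.of_bound (exT_meas l hF w).exp.aestronglyMeasurable (Real.exp D)
      (Filter.Eventually.of_forall fun y => ?_)
    rw [Real.norm_eq_abs, abs_of_pos (Real.exp_pos _)]
    exact Real.exp_le_exp.2 ((le_abs_self _).trans (hD _))
  have h1 := norm_integral_le_of_norm_le (f := fun y : Fin n → Pth κ L =>
    Θ (fun i => Wk l (xp w y i) L) * Real.exp (exT l F w y)) hi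
    (Filter.Eventually.of_forall fun y => by
      rw [norm_mul, Real.norm_eq_abs, Real.norm_eq_abs, abs_of_pos (Real.exp_pos _)]
      exact mul_le_of_le_one_left (Real.exp_pos _).le (hb _))
  rw [norm_tree l hL hF hM hn h, Real.norm_eq_abs] at h1
  exact h1

end SKC.G
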