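import Pool.Agent.H.MP_08eaf3_pr.G.Defs

/-!
# Part G: level functions: measurability
-/

set_option autoImplicit false

open MeasureTheory ProbabilityTheory Filter Topology Matrix

namespace SKC.G

variable {κ : Type} [Fintype κ]

/-- `z ↦ z + B x` is jointly measurable -/
theorem ps_meas_add (B : Matrix κ κ ℝ) : Measurable (fun p : (κ → ℝ) × (κ → ℝ) => p.1 + B.mulVec p.2) := by
  have h : Continuous (fun p : (κ → ℝ) × (κ → ℝ) => p.1 + B.mulVec p.2) :=
    continuous_fst.add (continuous_const.matrix_mulVec continuous_snd)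
  exact h.measurable

theorem ps1_int {g : (κ → ℝ) × (κ → ℝ) → ℝ} (hg : Measurable g) :
    Measurable (fun z => ∫ x, g (z, x) ∂(gam κ)) :=
  (hg.stronglyMeasurable.integral_prod_right').measurable

/-- [`Measurable.stronglyMeasurable`, `StronglyMeasurable.integral_prod_right'`] -/
theorem Tm_meas (m : ℝ) (B : Matrix κ κ ℝ) {f : (κ → ℝ) → ℝ} (hf : Measurable f) :
    Measurable (Tm m B f) := by
  unfold Tm
  split_ifs with h
  · exact ps1_int (hf.comp (ps_meas_add B))
  · have h1 : Measurable (fun z => ∫ x, Real.exp (m * f (z + B.mulVec x)) ∂(gam κ)) :=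
      ps1_int (g := fun p => Real.exp (m * f (p.1 + B.mulVec p.2)))
        (Real.measurable_exp.comp ((hf.comp (ps_meas_add B)).const_mul m))
    exact (Real.measurable_log.comp h1).const_mul (1 / m)

theorem Es_meas (m : ℝ) (B : Matrix κ κ ℝ) {f h : (κ → ℝ) → ℝ} (hf : Measurable f)
    (hh : Measurable h) : Measurable (Es m B f h) := by
  unfold Es
  have h2 : Measurable (fun p : (κ → ℝ) × (κ → ℝ) => Real.exp (m * f (p.1 + B.mulVec p.2))) :=
    Real.measurable_exp.comp ((hf.comp (ps_meas_add B)).const_mul m)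
  have h1 : Measurable (fun z => ∫ x, Real.exp (m * f (z + B.mulVec x)) ∂(gam κ)) :=
    ps1_int (g := fun p => Real.exp (m * f (p.1 + B.mulVec p.2))) h2
  have h3 : Measurable (fun z => ∫ x, h (z + B.mulVec x) * Real.exp (m * f (z + B.mulVec x))
      ∂(gam κ)) :=
    ps1_int (g := fun p => h (p.1 + B.mulVec p.2) * Real.exp (m * f (p.1 + B.mulVec p.2)))
      ((hh.comp (ps_meas_add B)).mul h2)
  exact h3.div h1

theorem PsiG_meas (l : List (Lev κ)) {F : (κ → ℝ) → ℝ} (hF : Measurable F) :
    Measurable (PsiG l F) := by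
  induction l with
  | nil => exact hF
  | cons s l ih => exact Tm_meas _ _ ih

theorem ChG_meas (l : List (Lev κ)) {F h : (κ → ℝ) → ℝ} (hF : Measurable F) (hh : Measurable h) :
    Measurable (ChG l F h) := by
  induction l with
  | nil => exact hh
  | cons s l ih => exact Es_meas _ _ (PsiG_meas l hF) ih

end SKC.G
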