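import Pool.Agent.H.MP_08eaf3_pr.G.Ps1

/-!
# Part G: bounded level functions: bounds, normalised form of the chain step
-/

set_option autoImplicit false

open MeasureTheory ProbabilityTheory Filter Topology Matrix

namespace SKC.G

variable {κ : Type} [Fintype κ]

theorem ps2_meas (B : Matrix κ κ ℝ) {f : (κ → ℝ) → ℝ} (hf : Measurable f) (z : κ → ℝ) :
    Measurable (fun x : κ → ℝ => f (z + B.mulVec x)) :=
  hf.comp ((ps_meas_add B).comp measurable_prodMk_left)

theorem ps2_exp_bd (m : ℝ) {a M : ℝ} (h : |a| ≤ M) :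
    Real.exp (-(|m| * M)) ≤ Real.exp (m * a) ∧ Real.exp (m * a) ≤ Real.exp (|m| * M) := by
  have h1 : |m * a| ≤ |m| * M := by
    rw [abs_mul]; exact mul_le_mul_of_nonneg_left h (abs_nonneg m)
  have h2 := abs_le.1 h1
  exact ⟨Real.exp_le_exp.2 h2.1, Real.exp_le_exp.2 h2.2⟩

theorem ps2_int (m : ℝ) (B : Matrix κ κ ℝ) {f : (κ → ℝ) → ℝ} (hf : Measurable f) {M : ℝ}
    (hM : ∀ z, |f z| ≤ M) (z : κ → ℝ) :
    Integrable (fun x : κ → ℝ => Real.exp (m * f (z + B.mulVec x))) (gam κ) := by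
  refine Integrable.of_bound ((ps2_meas B hf z).const_mul m).exp.aestronglyMeasurable
    (Real.exp (|m| * M)) (Filter.Eventually.of_forall fun x => ?_)
  rw [Real.norm_eq_abs, abs_of_pos (Real.exp_pos _)]
  exact (ps2_exp_bd m (hM _)).2

theorem ps2_lo (m : ℝ) (B : Matrix κ κ ℝ) {f : (κ → ℝ) → ℝ} (hf : Measurable f) {M : ℝ}
    (hM : ∀ z, |f z| ≤ M) (z : κ → ℝ) :
    Real.exp (-(|m| * M)) ≤ ∫ x, Real.exp (m * f (z + B.mulVec x)) ∂(gam κ) := by
  have h := integral_mono (μ := gam κ) (integrable_const (Real.exp (-(|m| * M))))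
    (ps2_int m B hf hM z) (fun x => (ps2_exp_bd m (hM _)).1)
  simpa using h

theorem ps2_hi (m : ℝ) (B : Matrix κ κ ℝ) {f : (κ → ℝ) → ℝ} (hf : Measurable f) {M : ℝ}
    (hM : ∀ z, |f z| ≤ M) (z : κ → ℝ) :
    ∫ x, Real.exp (m * f (z + B.mulVec x)) ∂(gam κ) ≤ Real.exp (|m| * M) := by
  have h := integral_mono (μ := gam κ) (ps2_int m B hf hM z)
    (integrable_const (Real.exp (|m| * M))) (fun x => (ps2_exp_bd m (hM _)).2)
  simpa using h

theorem ps2_pos (m : ℝ) (B : Matrix κ κ ℝ) {f : (κ → ℝ) → ℝ} (hf : Measurable f) {M : ℝ}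
    (hM : ∀ z, |f z| ≤ M) (z : κ → ℝ) :
    0 < ∫ x, Real.exp (m * f (z + B.mulVec x)) ∂(gam κ) :=
  lt_of_lt_of_le (Real.exp_pos _) (ps2_lo m B hf hM z)

/-- [`exp (m f)` lies in `[exp (-|m| M), exp (|m| M)]`] -/
theorem Tm_bd (m : ℝ) (B : Matrix κ κ ℝ) {f : (κ → ℝ) → ℝ} (hf : Measurable f) {M : ℝ}
    (hM : ∀ z, |f z| ≤ M) (z : κ → ℝ) : |Tm m B f z| ≤ M := by
  unfold Tm
  split_ifs with hm
  · have h := norm_integral_le_of_norm_le_const (μ := gam κ) (f := fun x => f (z + B.mulVec x))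
      (C := M) (Filter.Eventually.of_forall fun x => by rw [Real.norm_eq_abs]; exact hM _)
    simpa using h
  · have hpos := ps2_pos m B hf hM z
    have h1 : |Real.log (∫ x, Real.exp (m * f (z + B.mulVec x)) ∂(gam κ))| ≤ |m| * M := by
      rw [abs_le]
      constructor
      · rw [← Real.log_exp (-(|m| * M))]
        exact Real.log_le_log (Real.exp_pos _) (ps2_lo m B hf hM z)
      · rw [← Real.log_exp (|m| * M)]
        exact Real.log_le_log hpos (ps2_hi m B hf hM z)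
    rw [abs_mul, abs_div, abs_one]
    have h2 : 0 < |m| := abs_pos.2 hm
    calc 1 / |m| * |Real.log (∫ x, Real.exp (m * f (z + B.mulVec x)) ∂(gam κ))|
        ≤ 1 / |m| * (|m| * M) := mul_le_mul_of_nonneg_left h1 (by positivity)
      _ = M := by field_simp

theorem Es_bd (m : ℝ) (B : Matrix κ κ ℝ) {f h : (κ → ℝ) → ℝ} (hf : Measurable f)
    (hh : Measurable h) {M C : ℝ} (hM : ∀ z, |f z| ≤ M) (hC : ∀ z, |h z| ≤ C) (z : κ → ℝ) :
    |Es m B f h z| ≤ C := by
  have hC0 : 0 ≤ C := le_trans (abs_nonneg _) (hC z)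
  have hpos := ps2_pos m B hf hM z
  have hint := ps2_int m B hf hM z
  unfold Es
  rw [abs_div, abs_of_pos hpos, div_le_iff₀ hpos, ← integral_const_mul, ← Real.norm_eq_abs]
  refine norm_integral_le_of_norm_le (hint.const_mul C) (Filter.Eventually.of_forall fun x => ?_)
  rw [norm_mul, Real.norm_eq_abs, Real.norm_eq_abs, abs_of_pos (Real.exp_pos _)]
  exact mul_le_mul_of_nonneg_right (hC _) (Real.exp_pos _).le

theorem Es_one (m : ℝ) (B : Matrix κ κ ℝ) {f : (κ → ℝ) → ℝ} (hf : Measurable f)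
    {M : ℝ} (hM : ∀ z, |f z| ≤ M) : Es m B f (fun _ => 1) = fun _ => 1 := by
  funext z
  unfold Es
  simp only [one_mul]
  exact div_self (ps2_pos m B hf hM z).ne'

theorem PsiG_bd (l : List (Lev κ)) {F : (κ → ℝ) → ℝ} (hF : Measurable F) {M : ℝ}
    (hM : ∀ z, |F z| ≤ M) : ∀ z, |PsiG l F z| ≤ M := by
  induction l with
  | nil => exact hM
  | cons s l ih => exact fun z => Tm_bd _ _ (PsiG_meas l hF) ih z

theorem ChG_bd (l : List (Lev κ)) {F h : (κ → ℝ) → ℝ} (hF : Measurable F) (hh : Measurable h)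
    {M C : ℝ} (hM : ∀ z, |F z| ≤ M) (hC : ∀ z, |h z| ≤ C) : ∀ z, |ChG l F h z| ≤ C := by
  induction l with
  | nil => exact hC
  | cons s l ih =>
    exact fun z => Es_bd _ _ (PsiG_meas l hF) (ChG_meas l hF hh) (PsiG_bd l hF hM) ih z

theorem ChG_one (l : List (Lev κ)) {F : (κ → ℝ) → ℝ} (hF : Measurable F) {M : ℝ}
    (hM : ∀ z, |F z| ≤ M) : ChG l F (fun _ => 1) = fun _ => 1 := by
  induction l with
  | nil => rfl
  | cons s l ih =>
    show Es s.1 s.2 (PsiG l F) (ChG l F fun _ => 1) = _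
    rw [ih]
    exact Es_one _ _ (PsiG_meas l hF) (PsiG_bd l hF hM)

/-- one step of the chain as an integral with a normalised density.  [`exp (m * Tm m B f z) = ∫ exp (m f(z + B x))` if `m ≠ 0` (the integral is positive);
if `m = 0` both densities are `1` (`gam κ` is a probability measure).] -/
theorem Es_eq (m : ℝ) (B : Matrix κ κ ℝ) {f : (κ → ℝ) → ℝ} (hf : Measurable f)
    {M : ℝ} (hM : ∀ z, |f z| ≤ M) (h : (κ → ℝ) → ℝ) (z : κ → ℝ) :
    Es m B f h z = ∫ x, h (z + B.mulVec x) * Real.exp (m * (f (z + B.mulVec x) - Tm m B f z)) ∂(gam κ) := by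
  have hpos := ps2_pos m B hf hM z
  by_cases hm : m = 0
  · subst hm
    unfold Es
    simp
  · have hT : Real.exp (m * Tm m B f z) = ∫ x, Real.exp (m * f (z + B.mulVec x)) ∂(gam κ) := by
      unfold Tm
      rw [if_neg hm, ← mul_assoc, mul_one_div_cancel hm, one_mul, Real.exp_log hpos]
    unfold Es
    rw [← integral_div]
    refine integral_congr_ae (Filter.Eventually.of_forall fun x => ?_)
    show _ = _
    simp only
    rw [← hT, mul_sub, Real.exp_sub, mul_div_assoc]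

end SKC.G
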