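import Pool.Agent.H.MP_08eaf3_pr.G.Defs

/-!
# Part G1: abstract random Gibbs averages, pointwise statements
-/

set_option autoImplicit false

open MeasureTheory ProbabilityTheory Filter Topology Matrix

namespace SKC.G

section

variable {X Ω : Type} [Fintype Ω] {G Y : X → Ω → ℝ}

theorem sy1_abs (hY : ∀ x ω, |Y x ω| ≤ 1) (t : ℝ) (x : X) (ω : Ω) : |t * Y x ω| ≤ |t| := by
  rw [abs_mul]
  exact mul_le_of_le_one_right (abs_nonneg _) (hY x ω)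

theorem sy1_num (t : ℝ) (x : X) (a : ℕ) :
    HasDerivAt (fun s => ∑ ω, G x ω * Real.exp (s * Y x ω) * Y x ω ^ a)
      (∑ ω, G x ω * Real.exp (t * Y x ω) * Y x ω ^ (a + 1)) t := by
  refine HasDerivAt.fun_sum (fun ω _ => ?_)
  have h1 : HasDerivAt (fun s : ℝ => s * Y x ω) (Y x ω) t := by
    simpa using (hasDerivAt_id t).mul_const (Y x ω)
  have h2 := ((h1.exp).const_mul (G x ω)).mul_const (Y x ω ^ a)
  refine h2.congr_deriv ?_
  ring

theorem sy1_zz (t : ℝ) (x : X) :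
    HasDerivAt (fun s => zz G Y s x)
      (∑ ω, G x ω * Real.exp (t * Y x ω) * Y x ω ^ 1) t := by
  have h := sy1_num (G := G) (Y := Y) t x 0
  refine (h.congr_deriv ?_).congr_of_eventuallyEq ?_
  · rfl
  · refine Filter.Eventually.of_forall (fun s => ?_)
    unfold zz
    exact Finset.sum_congr rfl (fun ω _ => by rw [pow_zero, mul_one])

/-- [every term is nonnegative, the sum of `G x` is `1` and `exp (t * Y) ≥ exp (-|t|)`] -/
theorem zz_lower (h0 : ∀ x ω, 0 ≤ G x ω) (h1 : ∀ x, ∑ ω, G x ω = 1) (hY : ∀ x ω, |Y x ω| ≤ 1)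
    (t : ℝ) (x : X) : Real.exp (-|t|) ≤ zz G Y t x := by
  unfold zz
  calc Real.exp (-|t|) = ∑ ω, G x ω * Real.exp (-|t|) := by
        rw [← Finset.sum_mul, h1 x, one_mul]
    _ ≤ ∑ ω, G x ω * Real.exp (t * Y x ω) :=
        Finset.sum_le_sum (fun ω _ => mul_le_mul_of_nonneg_left
          (Real.exp_le_exp.mpr (neg_le_of_abs_le (sy1_abs hY t x ω))) (h0 x ω))

theorem zz_upper (h0 : ∀ x ω, 0 ≤ G x ω) (h1 : ∀ x, ∑ ω, G x ω = 1) (hY : ∀ x ω, |Y x ω| ≤ 1)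
    (t : ℝ) (x : X) : zz G Y t x ≤ Real.exp |t| := by
  unfold zz
  calc ∑ ω, G x ω * Real.exp (t * Y x ω) ≤ ∑ ω, G x ω * Real.exp |t| :=
        Finset.sum_le_sum (fun ω _ => mul_le_mul_of_nonneg_left
          (Real.exp_le_exp.mpr (le_of_abs_le (sy1_abs hY t x ω))) (h0 x ω))
    _ = Real.exp |t| := by
        rw [← Finset.sum_mul, h1 x, one_mul]

theorem zz_pos (h0 : ∀ x ω, 0 ≤ G x ω) (h1 : ∀ x, ∑ ω, G x ω = 1) (hY : ∀ x ω, |Y x ω| ≤ 1)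
    (t : ℝ) (x : X) : 0 < zz G Y t x :=
  lt_of_lt_of_le (Real.exp_pos _) (zz_lower h0 h1 hY t x)

theorem mo_bd (h0 : ∀ x ω, 0 ≤ G x ω) (h1 : ∀ x, ∑ ω, G x ω = 1) (hY : ∀ x ω, |Y x ω| ≤ 1)
    (t : ℝ) (x : X) (a : ℕ) : |mo G Y t x a| ≤ 1 := by
  have hz := zz_pos h0 h1 hY t x
  unfold mo
  rw [abs_div, abs_of_pos hz, div_le_one hz]
  refine (Finset.abs_sum_le_sum_abs _ _).trans ?_
  unfold zz
  refine Finset.sum_le_sum (fun ω _ => ?_)
  have h2 : 0 ≤ G x ω * Real.exp (t * Y x ω) := mul_nonneg (h0 x ω) (Real.exp_pos _).le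
  rw [abs_mul, abs_of_nonneg h2, abs_pow]
  exact mul_le_of_le_one_right h2 (pow_le_one₀ (abs_nonneg _) (hY x ω))

theorem mo_zero (h0 : ∀ x ω, 0 ≤ G x ω) (h1 : ∀ x, ∑ ω, G x ω = 1) (hY : ∀ x ω, |Y x ω| ≤ 1)
    (t : ℝ) (x : X) : mo G Y t x 0 = 1 := by
  have hz := zz_pos h0 h1 hY t x
  unfold mo
  have h2 : (∑ ω, G x ω * Real.exp (t * Y x ω) * Y x ω ^ 0) = zz G Y t x := by
    unfold zz
    exact Finset.sum_congr rfl (fun ω _ => by rw [pow_zero, mul_one])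
  rw [h2, div_self hz.ne']

/-- [quotient rule] -/
theorem mo_deriv (h0 : ∀ x ω, 0 ≤ G x ω) (h1 : ∀ x, ∑ ω, G x ω = 1) (hY : ∀ x ω, |Y x ω| ≤ 1)
    (t : ℝ) (x : X) (a : ℕ) : HasDerivAt (fun s => mo G Y s x a)
      (mo G Y t x (a + 1) - mo G Y t x a * mo G Y t x 1) t := by
  have hz := zz_pos h0 h1 hY t x
  have hN := sy1_num (G := G) (Y := Y) t x a
  have hZ := sy1_zz (G := G) (Y := Y) t x
  have h := hN.div hZ hz.ne'
  unfold mo
  refine h.congr_deriv ?_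
  field_simp

theorem log_zz_deriv (h0 : ∀ x ω, 0 ≤ G x ω) (h1 : ∀ x, ∑ ω, G x ω = 1) (hY : ∀ x ω, |Y x ω| ≤ 1)
    (t : ℝ) (x : X) : HasDerivAt (fun s => Real.log (zz G Y s x)) (mo G Y t x 1) t := by
  have hz := zz_pos h0 h1 hY t x
  have h := (sy1_zz (G := G) (Y := Y) t x).log hz.ne'
  refine h.congr_deriv ?_
  unfold mo
  rfl

end

end SKC.G
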