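import Pool.Agent.H.MP_08eaf3_pr.G.Sy1

/-!
# Part G1: the hierarchy of an abstract random Gibbs average
-/

set_option autoImplicit false

open MeasureTheory ProbabilityTheory Filter Topology Matrix

namespace SKC.G

section

variable {X Ω : Type} [Fintype Ω] {G Y : X → Ω → ℝ}

/-- products of numbers of absolute value at most one -/
theorem sy2_prod_le {ι : Type} (s : Finset ι) (f : ι → ℝ) (h : ∀ i ∈ s, |f i| ≤ 1) :
    |∏ i ∈ s, f i| ≤ 1 := by
  rw [Finset.abs_prod]
  exact Finset.prod_le_one (fun i _ => abs_nonneg _) h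

/-- the pointwise derivative of the product of the moments -/
theorem sy2_deriv (h0 : ∀ x ω, 0 ≤ G x ω) (h1 : ∀ x, ∑ ω, G x ω = 1) (hY : ∀ x ω, |Y x ω| ≤ 1)
    (n : ℕ) (a : ℕ → ℕ) (t : ℝ) (x : X) :
    HasDerivAt (fun s => ∏ l ∈ Finset.range n, mo G Y s x (a l))
      (∑ l ∈ Finset.range n, (∏ j ∈ (Finset.range n).erase l, mo G Y t x (a j)) *
        (mo G Y t x (a l + 1) - mo G Y t x (a l) * mo G Y t x 1)) t := by
  have h := HasDerivAt.fun_finsetProd (u := Finset.range n) (x := t)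
    (f := fun l s => mo G Y s x (a l))
    (f' := fun l => mo G Y t x (a l + 1) - mo G Y t x (a l) * mo G Y t x 1)
    (fun l _ => mo_deriv h0 h1 hY t x (a l))
  simpa only [smul_eq_mul] using h

/-- the bound of the pointwise derivative -/
theorem sy2_bound (h0 : ∀ x ω, 0 ≤ G x ω) (h1 : ∀ x, ∑ ω, G x ω = 1) (hY : ∀ x ω, |Y x ω| ≤ 1)
    (n : ℕ) (a : ℕ → ℕ) (t : ℝ) (x : X) :
    |∑ l ∈ Finset.range n, (∏ j ∈ (Finset.range n).erase l, mo G Y t x (a j)) *
        (mo G Y t x (a l + 1) - mo G Y t x (a l) * mo G Y t x 1)| ≤ n * 2 := by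
  refine (Finset.abs_sum_le_sum_abs _ _).trans ?_
  have h2 : ∀ l ∈ Finset.range n, |(∏ j ∈ (Finset.range n).erase l, mo G Y t x (a j)) *
        (mo G Y t x (a l + 1) - mo G Y t x (a l) * mo G Y t x 1)| ≤ 2 := by
    intro l _
    rw [abs_mul]
    have h3 := sy2_prod_le ((Finset.range n).erase l) (fun j => mo G Y t x (a j))
      (fun j _ => mo_bd h0 h1 hY t x (a j))
    have h4 : |mo G Y t x (a l + 1) - mo G Y t x (a l) * mo G Y t x 1| ≤ 2 := by
      have h5 := mo_bd h0 h1 hY t x (a l + 1)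
      have h6 := mo_bd h0 h1 hY t x (a l)
      have h7 := mo_bd h0 h1 hY t x 1
      have h8 : |mo G Y t x (a l) * mo G Y t x 1| ≤ 1 := by
        rw [abs_mul]
        exact mul_le_one₀ h6 (abs_nonneg _) h7
      have h9 := abs_sub (mo G Y t x (a l + 1)) (mo G Y t x (a l) * mo G Y t x 1)
      linarith
    calc |∏ j ∈ (Finset.range n).erase l, mo G Y t x (a j)| *
          |mo G Y t x (a l + 1) - mo G Y t x (a l) * mo G Y t x 1| ≤ 1 * 2 :=
        mul_le_mul h3 h4 (abs_nonneg _) zero_le_one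
      _ = 2 := one_mul 2
  refine (Finset.sum_le_card_nsmul _ _ 2 h2).trans ?_
  simp

/-- the pointwise derivative, rewritten -/
theorem sy2_eq (n : ℕ) (a : ℕ → ℕ) (t : ℝ) (x : X) :
    ∑ l ∈ Finset.range n, (∏ j ∈ (Finset.range n).erase l, mo G Y t x (a j)) *
        (mo G Y t x (a l + 1) - mo G Y t x (a l) * mo G Y t x 1) =
      (∑ l ∈ Finset.range n, ∏ j ∈ Finset.range n, mo G Y t x (Function.update a l (a l + 1) j)) -
        (n : ℝ) * ∏ j ∈ Finset.range (n + 1), mo G Y t x (Function.update a n 1 j) := by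
  have h1 : ∏ j ∈ Finset.range (n + 1), mo G Y t x (Function.update a n 1 j) =
      (∏ j ∈ Finset.range n, mo G Y t x (a j)) * mo G Y t x 1 := by
    rw [Finset.prod_range_succ, Function.update_self]
    congr 1
    refine Finset.prod_congr rfl fun j hj => ?_
    rw [Function.update_of_ne (Finset.mem_range.1 hj).ne]
  have h2 : ∀ l ∈ Finset.range n, (∏ j ∈ (Finset.range n).erase l, mo G Y t x (a j)) *
        (mo G Y t x (a l + 1) - mo G Y t x (a l) * mo G Y t x 1) =
      (∏ j ∈ Finset.range n, mo G Y t x (Function.update a l (a l + 1) j)) -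
        (∏ j ∈ Finset.range n, mo G Y t x (a j)) * mo G Y t x 1 := by
    intro l hl
    rw [← Finset.mul_prod_erase _ (fun j => mo G Y t x (Function.update a l (a l + 1) j)) hl,
      ← Finset.mul_prod_erase _ (fun j => mo G Y t x (a j)) hl, Function.update_self]
    have h3 : ∏ j ∈ (Finset.range n).erase l, mo G Y t x (Function.update a l (a l + 1) j) =
        ∏ j ∈ (Finset.range n).erase l, mo G Y t x (a j) := by
      refine Finset.prod_congr rfl fun j hj => ?_
      rw [Function.update_of_ne (Finset.ne_of_mem_erase hj)]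
    rw [h3]
    ring
  rw [h1, Finset.sum_congr rfl h2, Finset.sum_sub_distrib]
  simp

variable [MeasurableSpace X] (hGm : ∀ ω, Measurable (fun x => G x ω))
  (hYm : ∀ ω, Measurable (fun x => Y x ω))

include hGm hYm

theorem zz_meas (t : ℝ) : Measurable (zz G Y t) := by
  change Measurable (fun x => ∑ ω, G x ω * Real.exp (t * Y x ω))
  exact Finset.measurable_fun_sum _ fun ω _ => (hGm ω).mul ((hYm ω).const_mul t).exp

theorem mo_meas (t : ℝ) (a : ℕ) : Measurable (fun x => mo G Y t x a) := by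
  unfold mo
  refine Measurable.div ?_ (zz_meas hGm hYm t)
  exact Finset.measurable_fun_sum _ fun ω _ =>
    ((hGm ω).mul ((hYm ω).const_mul t).exp).mul ((hYm ω).pow_const a)

variable (μ : Measure X) [IsProbabilityMeasure μ]

theorem sy2_prod_meas (s : Finset ℕ) (t : ℝ) (a : ℕ → ℕ) :
    Measurable fun x => ∏ l ∈ s, mo G Y t x (a l) :=
  Finset.measurable_fun_prod _ fun l _ => mo_meas hGm hYm t (a l)

theorem sy2_prod_int (h0 : ∀ x ω, 0 ≤ G x ω) (h1 : ∀ x, ∑ ω, G x ω = 1) (hY : ∀ x ω, |Y x ω| ≤ 1)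
    (s : Finset ℕ) (t : ℝ) (a : ℕ → ℕ) :
    Integrable (fun x => ∏ l ∈ s, mo G Y t x (a l)) μ := by
  refine Integrable.of_bound (sy2_prod_meas hGm hYm s t a).aestronglyMeasurable 1
    (Eventually.of_forall fun x => ?_)
  rw [Real.norm_eq_abs]
  exact sy2_prod_le s _ fun l _ => mo_bd h0 h1 hY t x (a l)

/-- [Pointwise in `x`: the derivative of `∏ l ∈ range n, mo t x (a l)` is (`HasDerivAt.finset_prod`, `mo_deriv`)
`∑_l (∏_{l' ≠ l} mo (a l')) * (mo (a l + 1) - mo (a l) * mo 1)`.  For `l < n`: `∏_{l' < n} mo (update a l (a l + 1) l')` is the first part;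
`∏_{l' < n+1} mo (update a n 1 l') = (∏_{l'<n} mo (a l')) * mo 1` (`Finset.prod_range_succ`).
Bounded by `2 n`: `hasDerivAt_integral_of_dominated_loc_of_deriv_le`.] -/
theorem sys_hier (h0 : ∀ x ω, 0 ≤ G x ω) (h1 : ∀ x, ∑ ω, G x ω = 1) (hY : ∀ x ω, |Y x ω| ≤ 1) :
    Hier (fun t n a => ∫ x, ∏ l ∈ Finset.range n, mo G Y t x (a l) ∂μ) := by
  intro n a t _
  have hm : ∀ s : ℝ, Measurable fun x => ∑ l ∈ Finset.range n,
      (∏ j ∈ (Finset.range n).erase l, mo G Y s x (a j)) *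
        (mo G Y s x (a l + 1) - mo G Y s x (a l) * mo G Y s x 1) := fun s =>
    Finset.measurable_fun_sum _ fun l _ => (sy2_prod_meas hGm hYm _ s a).mul
      ((mo_meas hGm hYm s (a l + 1)).sub ((mo_meas hGm hYm s (a l)).mul (mo_meas hGm hYm s 1)))
  have h := (hasDerivAt_integral_of_dominated_loc_of_deriv_le (μ := μ) (𝕜 := ℝ)
    (F := fun s x => ∏ l ∈ Finset.range n, mo G Y s x (a l))
    (F' := fun s x => ∑ l ∈ Finset.range n,
      (∏ j ∈ (Finset.range n).erase l, mo G Y s x (a j)) *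
        (mo G Y s x (a l + 1) - mo G Y s x (a l) * mo G Y s x 1))
    (x₀ := t) (s := Set.univ) (bound := fun _ => (n : ℝ) * 2) Filter.univ_mem
    (Eventually.of_forall fun s => (sy2_prod_meas hGm hYm _ s a).aestronglyMeasurable)
    (sy2_prod_int hGm hYm μ h0 h1 hY _ t a)
    (hm t).aestronglyMeasurable
    (Eventually.of_forall fun x s _ => by
      rw [Real.norm_eq_abs]
      exact sy2_bound h0 h1 hY n a s x)
    (integrable_const _)
    (Eventually.of_forall fun x s _ => sy2_deriv h0 h1 hY n a s x)).2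
  have h2 : ∫ x, (∑ l ∈ Finset.range n,
      (∏ j ∈ (Finset.range n).erase l, mo G Y t x (a j)) *
        (mo G Y t x (a l + 1) - mo G Y t x (a l) * mo G Y t x 1)) ∂μ =
      (∑ l ∈ Finset.range n, ∫ x, ∏ j ∈ Finset.range n,
        mo G Y t x (Function.update a l (a l + 1) j) ∂μ) -
      (n : ℝ) * ∫ x, ∏ j ∈ Finset.range (n + 1), mo G Y t x (Function.update a n 1 j) ∂μ := by
    have h3 : ∀ l ∈ Finset.range n, Integrable (fun x => ∏ j ∈ Finset.range n,
        mo G Y t x (Function.update a l (a l + 1) j)) μ := fun l _ =>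
      sy2_prod_int hGm hYm μ h0 h1 hY _ t _
    rw [← integral_finsetSum _ h3, ← integral_const_mul, ← integral_sub
      (integrable_finsetSum _ h3) ((sy2_prod_int hGm hYm μ h0 h1 hY _ t _).const_mul _)]
    exact integral_congr_ae (Eventually.of_forall fun x => sy2_eq n a t x)
  rw [h2] at h
  exact h

omit hGm hYm in
theorem sys_bd (h0 : ∀ x ω, 0 ≤ G x ω) (h1 : ∀ x, ∑ ω, G x ω = 1) (hY : ∀ x ω, |Y x ω| ≤ 1)
    (t : ℝ) (n : ℕ) (a : ℕ → ℕ) : |∫ x, ∏ l ∈ Finset.range n, mo G Y t x (a l) ∂μ| ≤ 1 := by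
  have h : ‖∫ x, ∏ l ∈ Finset.range n, mo G Y t x (a l) ∂μ‖ ≤ 1 * μ.real Set.univ :=
    norm_integral_le_of_norm_le_const (Eventually.of_forall fun x => by
      rw [Real.norm_eq_abs]
      exact sy2_prod_le _ _ fun l _ => mo_bd h0 h1 hY t x (a l))
  rw [Real.norm_eq_abs] at h
  simpa using h

theorem sys_log (h0 : ∀ x ω, 0 ≤ G x ω) (h1 : ∀ x, ∑ ω, G x ω = 1) (hY : ∀ x ω, |Y x ω| ≤ 1)
    (t : ℝ) : HasDerivAt (fun s => ∫ x, Real.log (zz G Y s x) ∂μ)
      (∫ x, ∏ l ∈ Finset.range 1, mo G Y t x ((fun _ => 1) l) ∂μ) t := by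
  have h2 : (fun x => ∏ l ∈ Finset.range 1, mo G Y t x ((fun _ => 1) l)) =
      fun x => mo G Y t x 1 := by
    funext x
    rw [Finset.prod_range_one]
  rw [h2]
  refine (hasDerivAt_integral_of_dominated_loc_of_deriv_le (μ := μ) (𝕜 := ℝ)
    (F := fun s x => Real.log (zz G Y s x)) (F' := fun s x => mo G Y s x 1)
    (x₀ := t) (s := Set.univ) (bound := fun _ => (1 : ℝ)) Filter.univ_mem
    (Eventually.of_forall fun s => (zz_meas hGm hYm s).log.aestronglyMeasurable) ?_
    (mo_meas hGm hYm t 1).aestronglyMeasurable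
    (Eventually.of_forall fun x s _ => by
      rw [Real.norm_eq_abs]
      exact mo_bd h0 h1 hY s x 1)
    (integrable_const _)
    (Eventually.of_forall fun x s _ => log_zz_deriv h0 h1 hY s x)).2
  refine Integrable.of_bound (zz_meas hGm hYm t).log.aestronglyMeasurable |t|
    (Eventually.of_forall fun x => ?_)
  rw [Real.norm_eq_abs, abs_le]
  constructor
  · rw [Real.le_log_iff_exp_le (zz_pos h0 h1 hY t x)]
    exact zz_lower h0 h1 hY t x
  · rw [Real.log_le_iff_le_exp (zz_pos h0 h1 hY t x)]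
    exact zz_upper h0 h1 hY t x

/-- at `t = 0` the moments are the ones of the Gibbs measure: products are replica averages -/
theorem sys_zero (h0 : ∀ x ω, 0 ≤ G x ω) (h1 : ∀ x, ∑ ω, G x ω = 1) (n : ℕ) (a : ℕ → ℕ) :
    ∫ x, ∏ l ∈ Finset.range n, mo G Y 0 x (a l) ∂μ =
      ∫ x, ∑ r : Fin n → Ω, (∏ l, G x (r l)) * ∏ l : Fin n, Y x (r l) ^ a l ∂μ := by
  classical
  refine integral_congr_ae (Eventually.of_forall fun x => ?_)
  have h2 : ∀ k : ℕ, mo G Y 0 x k = ∑ ω, G x ω * Y x ω ^ k := by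
    intro k
    unfold mo zz
    simp [h1 x]
  have h3 : ∏ l ∈ Finset.range n, mo G Y 0 x (a l) =
      ∏ l : Fin n, ∑ ω, G x ω * Y x ω ^ a l := by
    rw [Finset.prod_range]
    exact Finset.prod_congr rfl fun l _ => h2 (a l)
  have h4 := Finset.prod_univ_sum (fun _ : Fin n => (Finset.univ : Finset Ω))
    (fun l ω => G x ω * Y x ω ^ a l)
  rw [Fintype.piFinset_univ] at h4
  change ∏ l ∈ Finset.range n, mo G Y 0 x (a l) =
    ∑ r : Fin n → Ω, (∏ l, G x (r l)) * ∏ l : Fin n, Y x (r l) ^ a l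
  rw [h3, h4]
  exact Finset.sum_congr rfl fun r _ => Finset.prod_mul_distrib

end

end SKC.G
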